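import Pool.Agent.QD.N2.OddPl

/-!
# QD-N2-Brk: the tame symbol as a quotient of Gauss sums

`θ = M⁻²`.  PLAN.  Let `a = ordK v x`, `b = ordK v y`, `t = ordK v θ` (even), and `~` = `SP`.
First the case `a = b = 0`, `t + d > 0`: all four `mu` are `1` (`mu_one`: `mem_Rv`), and `hs v x y = 1` (`hs_ee`).
Otherwise all four of `t + d, t + a + d, t + b + d, t + a + b + d` are `≤ 0` and we go through the parities of
`d` (equivalently of `t + d`), `a`, `b`; write `m(ω) = mu v (ω θ)`; `u = uK v`; `mu_even`, `mu_oddsq`,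
`mu_oddmul`, the values of `hs` from `hs_ee, hs_oe, hs_eo, hs_oo`:
* `d` even: (a,b even) all `m ~ 1`.  (a odd, b even) `m(xy) ~ u(y) m(x)`, `m(1) ~ m(y) ~ 1`, `hs = u(y)`.
  (a even, b odd) symmetric.  (both odd) `m(1) ~ m(xy) ~ 1`, `m(y) ~ u(y/x) m(x)`, `m(x)² ~ u(-1)`,
  `hs = u(-(xy))` and `u(-(xy)) u(y/x) u(-1) = u(y²) = 1` (`uK_mul`, `uK_mul_sq`).
* `d` odd: (a,b even) `m(ω) ~ u(ω) m(1)` for the three others, `hs = 1`, `u(xy) = u(x) u(y)`.
  (a odd, b even) `m(x) ~ m(xy) ~ 1`, `m(y) ~ u(y) m(1)`, `hs = u(y)`, `u(y)² = 1`.  (a even, b odd) symmetric.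
  (both odd) `m(x) ~ m(y) ~ 1`, `m(xy) ~ u(xy) m(1)`, `m(1)² ~ u(-1)`, `hs = u(-(xy)) = u(xy) u(-1)`.
-/

set_option autoImplicit false

namespace Pool.Agent.QD.N2

open NumberField IsDedekindDomain Pool.Agent.HWR Pool.Agent.QD

variable {K : Type} [Field K] [NumberField K]

private theorem brk_int {z : ℤ} (h : z = 1 ∨ z = -1) : ((z : ℤ) : ℂ) * ((z : ℤ) : ℂ) = 1 := by
  rcases h with rfl | rfl <;> norm_num

theorem brk (v : HeightOneSpectrum (𝓞 K)) (h2 : (2 : 𝓞 K) ∉ v.asIdeal) {d : ℤ}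
    (hd : IsCond v d) (x y M : Kˣ)
    (hM : (ordK v x = 0 ∧ ordK v y = 0) ∨ (d + |ordK v x| + |ordK v y| ≤ 2 * ordK v M)) :
    SP (mu v ((x * y * (M ^ 2)⁻¹ : Kˣ) : K) * mu v (((M ^ 2)⁻¹ : Kˣ) : K))
      (((hs v x y : ℤ) : ℂ) *
        (mu v ((x * (M ^ 2)⁻¹ : Kˣ) : K) * mu v ((y * (M ^ 2)⁻¹ : Kˣ) : K))) := by
  set θ : Kˣ := (M ^ 2)⁻¹ with hθ
  have ht : ordK v θ = -(2 * ordK v M) := by
    rw [hθ, ordK_inv, ordK_pow]
    push_cast
    ring
  have oxy : ordK v (x * y * θ) = ordK v x + ordK v y + ordK v θ := by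
    rw [ordK_mul, ordK_mul]
  have ox : ordK v (x * θ) = ordK v x + ordK v θ := ordK_mul x θ
  have oy : ordK v (y * θ) = ordK v y + ordK v θ := ordK_mul y θ
  -- the trivial case
  by_cases htriv : (ordK v x = 0 ∧ ordK v y = 0) ∧ 0 < ordK v θ + d
  · obtain ⟨⟨ha, hb⟩, hpos⟩ := htriv
    have m1 : mu v (θ : K) = 1 := mu_one v hd (mem_Rv.2 (by omega))
    have mx : mu v ((x * θ : Kˣ) : K) = 1 := mu_one v hd (mem_Rv.2 (by omega))
    have my : mu v ((y * θ : Kˣ) : K) = 1 := mu_one v hd (mem_Rv.2 (by omega))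
    have mxy : mu v ((x * y * θ : Kˣ) : K) = 1 := mu_one v hd (mem_Rv.2 (by omega))
    rw [m1, mx, my, mxy, hs_ee x y (by rw [ha]; exact Even.zero) (by rw [hb]; exact Even.zero)]
    push_cast
    rw [mul_one, mul_one]
    exact SP.refl _
  have hall : ordK v θ + d + |ordK v x| + |ordK v y| ≤ 0 := by
    rcases hM with ⟨ha, hb⟩ | hM
    · rw [ha, hb, abs_zero]
      by_contra h
      exact htriv ⟨⟨ha, hb⟩, by omega⟩
    · linarith
  have a1 := le_abs_self (ordK v x)
  have a2 := neg_abs_le (ordK v x)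
  have b1 := le_abs_self (ordK v y)
  have b2 := neg_abs_le (ordK v y)
  have a3 := abs_nonneg (ordK v x)
  have b3 := abs_nonneg (ordK v y)
  have l1 : ordK v θ + d ≤ 0 := by linarith
  have lx : ordK v (x * θ) + d ≤ 0 := by linarith
  have ly : ordK v (y * θ) + d ≤ 0 := by linarith
  have lxy : ordK v (x * y * θ) + d ≤ 0 := by linarith
  have hneg1 : ordK v (-1 : Kˣ) = 0 := ordK_neg_one
  have hone : uK v (1 : Kˣ) = 1 := uK_one
  rcases Int.even_or_odd (ordK v θ + d) with hD | hD <;>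
    rcases Int.even_or_odd (ordK v x) with ha | ha <;>
    rcases Int.even_or_odd (ordK v y) with hb | hb
  · -- D even, a even, b even
    have m1 := mu_even v h2 hd θ l1 hD
    have mx := mu_even v h2 hd (x * θ) lx (by rw [ox]; grind)
    have my := mu_even v h2 hd (y * θ) ly (by rw [oy]; grind)
    have mxy := mu_even v h2 hd (x * y * θ) lxy (by rw [oxy]; grind)
    rw [hs_ee x y ha hb]
    have h3 := mxy.mul m1
    have h4 := (SP.refl (((1 : ℤ) : ℂ))).mul (mx.mul my)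
    have e : ((1 : ℤ) : ℂ) * (1 * 1) = 1 * 1 := by push_cast; ring
    rw [e] at h4
    exact h3.trans h4.symm
  · -- D even, a even, b odd
    have m1 := mu_even v h2 hd θ l1 hD
    have mx := mu_even v h2 hd (x * θ) lx (by rw [ox]; grind)
    have mxy := mu_oddmul v h2 hd (y * θ) x ly (by rw [oy]; grind) ha (by linarith)
    have e : y * θ * x = x * y * θ := by simp only [mul_assoc, mul_comm, mul_left_comm]
    rw [e] at mxy
    rw [hs_eo x y ha hb]
    have h3 := mxy.mul m1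
    have h4 := (SP.refl (((uK v x : ℤ) : ℂ))).mul (mx.mul (SP.refl (mu v ((y * θ : Kˣ) : K))))
    have e2 : ((uK v x : ℤ) : ℂ) * (1 * mu v ((y * θ : Kˣ) : K)) =
        ((uK v x : ℤ) : ℂ) * mu v ((y * θ : Kˣ) : K) * 1 := by ring
    rw [e2] at h4
    exact h3.trans h4.symm
  · -- D even, a odd, b even
    have m1 := mu_even v h2 hd θ l1 hD
    have my := mu_even v h2 hd (y * θ) ly (by rw [oy]; grind)
    have mxy := mu_oddmul v h2 hd (x * θ) y lx (by rw [ox]; grind) hb (by linarith)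
    have e : x * θ * y = x * y * θ := by simp only [mul_assoc, mul_comm, mul_left_comm]
    rw [e] at mxy
    rw [hs_oe x y ha hb]
    have h3 := mxy.mul m1
    have h4 := (SP.refl (((uK v y : ℤ) : ℂ))).mul ((SP.refl (mu v ((x * θ : Kˣ) : K))).mul my)
    have e2 : ((uK v y : ℤ) : ℂ) * (mu v ((x * θ : Kˣ) : K) * 1) =
        ((uK v y : ℤ) : ℂ) * mu v ((x * θ : Kˣ) : K) * 1 := by ring
    rw [e2] at h4
    exact h3.trans h4.symm
  · -- D even, a odd, b odd
    have m1 := mu_even v h2 hd θ l1 hD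
    have mxy := mu_even v h2 hd (x * y * θ) lxy (by rw [oxy]; grind)
    have oyx : ordK v (y * x⁻¹) = ordK v y - ordK v x := by
      rw [ordK_mul, ordK_inv]
      ring
    have my := mu_oddmul v h2 hd (x * θ) (y * x⁻¹) lx (by rw [ox]; grind) (by rw [oyx]; grind)
      (by rw [oyx]; linarith)
    have e : x * θ * (y * x⁻¹) = y * θ := by
      calc x * θ * (y * x⁻¹) = y * θ * (x * x⁻¹) := by
            simp only [mul_assoc, mul_comm, mul_left_comm]
        _ = y * θ := by rw [mul_inv_cancel, mul_one]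
    rw [e] at my
    have mx2 := mu_oddsq v h2 hd (x * θ) lx (by rw [ox]; grind)
    rw [hs_oo x y ha hb]
    have hu : uK v (-(x * y)) * uK v (y * x⁻¹) * uK v (-1 : Kˣ) = 1 := by
      have o1 : ordK v (-(x * y)) = ordK v x + ordK v y := by
        rw [← neg_one_mul, ordK_mul, ordK_mul, hneg1, zero_add]
      rw [← uK_mul h2 _ _ (by rw [o1]; grind) (by rw [oyx]; grind),
        ← uK_mul h2 _ _ (by rw [ordK_mul, o1, oyx]; grind) (by rw [hneg1]; exact Even.zero)]
      have e3 : -(x * y) * (y * x⁻¹) * (-1) = 1 * y ^ 2 := by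
        calc -(x * y) * (y * x⁻¹) * (-1) = x * y * (y * x⁻¹) := by
              rw [mul_neg_one, neg_mul, neg_neg]
          _ = y ^ 2 * (x * x⁻¹) := by
              rw [sq]
              simp only [mul_assoc, mul_comm, mul_left_comm]
          _ = 1 * y ^ 2 := by rw [mul_inv_cancel, mul_one, one_mul]
      rw [e3, uK_mul_sq, hone]
    have h3 := mxy.mul m1
    have h4 : SP (((uK v (-(x * y)) : ℤ) : ℂ) *
        (mu v ((x * θ : Kˣ) : K) * mu v ((y * θ : Kˣ) : K))) (1 * 1) := by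
      have h5 := (SP.refl (((uK v (-(x * y)) : ℤ) : ℂ))).mul
        ((SP.refl (mu v ((x * θ : Kˣ) : K))).mul my)
      refine h5.trans ?_
      have e4 : ((uK v (-(x * y)) : ℤ) : ℂ) * (mu v ((x * θ : Kˣ) : K) *
          (((uK v (y * x⁻¹) : ℤ) : ℂ) * mu v ((x * θ : Kˣ) : K))) =
          (((uK v (-(x * y)) : ℤ) : ℂ) * ((uK v (y * x⁻¹) : ℤ) : ℂ)) *
            mu v ((x * θ : Kˣ) : K) ^ 2 := by ring
      rw [e4]
      have h6 := (SP.refl (((uK v (-(x * y)) : ℤ) : ℂ) * ((uK v (y * x⁻¹) : ℤ) : ℂ))).mul mx2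
      have e5 : ((uK v (-(x * y)) : ℤ) : ℂ) * ((uK v (y * x⁻¹) : ℤ) : ℂ) *
          ((uK v (-1 : Kˣ) : ℤ) : ℂ) = 1 * 1 := by
        rw [mul_one]
        exact_mod_cast hu
      rw [e5] at h6
      exact h6
    exact h3.trans h4.symm
  · -- D odd, a even, b even
    have mx := mu_oddmul v h2 hd θ x l1 hD ha (by linarith)
    have my := mu_oddmul v h2 hd θ y l1 hD hb (by linarith)
    have mxy := mu_oddmul v h2 hd θ (x * y) l1 hD (by rw [ordK_mul]; grind)
      (by rw [ordK_mul]; linarith)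
    rw [mul_comm θ x] at mx
    rw [mul_comm θ y] at my
    rw [mul_comm θ (x * y)] at mxy
    rw [hs_ee x y ha hb]
    have h3 := mxy.mul (SP.refl (mu v (θ : K)))
    have h4 := (SP.refl (((1 : ℤ) : ℂ))).mul (mx.mul my)
    have e : ((1 : ℤ) : ℂ) * (((uK v x : ℤ) : ℂ) * mu v (θ : K) *
        (((uK v y : ℤ) : ℂ) * mu v (θ : K))) =
        ((uK v (x * y) : ℤ) : ℂ) * mu v (θ : K) * mu v (θ : K) := by
      rw [uK_mul h2 x y ha hb]
      push_cast
      ring
    rw [e] at h4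
    exact h3.trans h4.symm
  · -- D odd, a even, b odd
    have my := mu_even v h2 hd (y * θ) ly (by rw [oy]; grind)
    have mxy := mu_even v h2 hd (x * y * θ) lxy (by rw [oxy]; grind)
    have mx := mu_oddmul v h2 hd θ x l1 hD ha (by linarith)
    rw [mul_comm θ x] at mx
    rw [hs_eo x y ha hb]
    have h3 := mxy.mul (SP.refl (mu v (θ : K)))
    have h4 := (SP.refl (((uK v x : ℤ) : ℂ))).mul (mx.mul my)
    have e : ((uK v x : ℤ) : ℂ) * (((uK v x : ℤ) : ℂ) * mu v (θ : K) * 1) =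
        1 * mu v (θ : K) := by
      rw [mul_one, ← mul_assoc, brk_int (uK_cases x ha)]
    rw [e] at h4
    exact h3.trans h4.symm
  · -- D odd, a odd, b even
    have mx := mu_even v h2 hd (x * θ) lx (by rw [ox]; grind)
    have mxy := mu_even v h2 hd (x * y * θ) lxy (by rw [oxy]; grind)
    have my := mu_oddmul v h2 hd θ y l1 hD hb (by linarith)
    rw [mul_comm θ y] at my
    rw [hs_oe x y ha hb]
    have h3 := mxy.mul (SP.refl (mu v (θ : K)))
    have h4 := (SP.refl (((uK v y : ℤ) : ℂ))).mul (mx.mul my)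
    have e : ((uK v y : ℤ) : ℂ) * (1 * (((uK v y : ℤ) : ℂ) * mu v (θ : K))) =
        1 * mu v (θ : K) := by
      rw [one_mul, ← mul_assoc, brk_int (uK_cases y hb)]
    rw [e] at h4
    exact h3.trans h4.symm
  · -- D odd, a odd, b odd
    have mx := mu_even v h2 hd (x * θ) lx (by rw [ox]; grind)
    have my := mu_even v h2 hd (y * θ) ly (by rw [oy]; grind)
    have hab : Even (ordK v (x * y)) := by rw [ordK_mul]; grind
    have mxy := mu_oddmul v h2 hd θ (x * y) l1 hD hab (by rw [ordK_mul]; linarith)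
    rw [mul_comm θ (x * y)] at mxy
    have m12 := mu_oddsq v h2 hd θ l1 hD
    rw [hs_oo x y ha hb]
    have h3 := mxy.mul (SP.refl (mu v (θ : K)))
    have e : ((uK v (x * y) : ℤ) : ℂ) * mu v (θ : K) * mu v (θ : K) =
        ((uK v (x * y) : ℤ) : ℂ) * mu v (θ : K) ^ 2 := by ring
    rw [e] at h3
    have h5 := (SP.refl (((uK v (x * y) : ℤ) : ℂ))).mul m12
    have h4 := (SP.refl (((uK v (-(x * y)) : ℤ) : ℂ))).mul (mx.mul my)
    have e2 : ((uK v (-(x * y)) : ℤ) : ℂ) * (1 * 1) =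
        ((uK v (x * y) : ℤ) : ℂ) * ((uK v (-1 : Kˣ) : ℤ) : ℂ) := by
      have e3 : -(x * y) = x * y * (-1) := by rw [mul_neg_one]
      rw [e3, uK_mul h2 (x * y) (-1) hab (by rw [hneg1]; exact Even.zero)]
      push_cast
      ring
    rw [e2] at h4
    exact (h3.trans h5).trans h4.symm

end Pool.Agent.QD.N2
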