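import Pool.Agent.QD.N2.LocChar

/-!
# QD-N2-Cond: the conductor of the local character

PLAN.  `psi v` is trivial on `Rv v 0`.  If it were trivial on `Rv v (-d)` for all `d ≥ 0`, then
`psi v z = 1` for all `z` (`exists_mem_Rv`).  Take `t ∈ K` with `ordK v t = -1`... more precisely: let
`R = {z | ∀ w ≠ v, z ∈ Rv w 0}`, a subring of `K` containing `𝓞 K`; for `z ∈ R`, `z` is its own principal part,
so `ee (Tr z) = 1`, i.e. `Tr z ∈ ℤ` (`ee_eq_one_iff`).  Choose a nonzero `a ∈ 𝓞 K` with `v.asIdeal ^ h` generated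
by `a` for some `h ≥ 1` (class number finite), so that `b = a⁻¹ ∈ R` and `b ^ n ∈ R` for all `n`.  So
`Tr (b ^ n * c) ∈ ℤ` for all `n` and all `c ∈ 𝓞 K`: every `b ^ n` is in the dual lattice
`{x | ∀ c ∈ 𝓞 K, Tr (x c) ∈ ℤ}`, which is a finitely generated `𝓞 K`-module, i.e. there is a nonzero integer
`D` with `D * b ^ n ∈ 𝓞 K` for all `n` (with an integral basis `c_j`: `Tr (x c_j) = m_j ∈ ℤ` determines `x` by a
linear system of determinant `discr K`; or use `traceDual`/`differentIdeal` in Mathlib), contradiction with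
`ordK v (D * b ^ n) = ordK v D - n * h < 0` for large `n`.
So the set of `d : ℕ` such that `psi v` is trivial on `Rv v (-d)` contains `0` and is bounded (it is an initial
segment: `Rv_anti`); take the largest.
-/

set_option autoImplicit false

namespace Pool.Agent.QD.N2

open NumberField IsDedekindDomain Pool.Agent.HWR Pool.Agent.QD

variable {K : Type} [Field K] [NumberField K]

/-- elements with integral traces against `𝓞 K` have a bounded denominator -/
private theorem exists_den : ∃ D : 𝓞 K, D ≠ 0 ∧ ∀ x : K,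
    (∀ c : 𝓞 K, ∃ n : ℤ, Algebra.trace ℚ K (x * (c : K)) = n) → ∃ a : 𝓞 K, (a : K) = (D : K) * x := by
  obtain ⟨D, hD, h⟩ := (FractionalIdeal.dual ℤ ℚ
    (1 : FractionalIdeal (nonZeroDivisors (𝓞 K)) K)).isFractional
  refine ⟨D, nonZeroDivisors.ne_zero hD, ?_⟩
  intro x hx
  have h1 : x ∈ FractionalIdeal.dual ℤ ℚ (1 : FractionalIdeal (nonZeroDivisors (𝓞 K)) K) := by
    have h10 : (1 : FractionalIdeal (nonZeroDivisors (𝓞 K)) K) ≠ 0 := by
      intro h0
      have h2 : (1 : K) ∈ (1 : FractionalIdeal (nonZeroDivisors (𝓞 K)) K) :=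
        FractionalIdeal.one_mem_one _
      rw [h0, FractionalIdeal.mem_zero_iff] at h2
      exact one_ne_zero h2
    rw [FractionalIdeal.mem_dual h10]
    intro a ha
    rw [FractionalIdeal.mem_one_iff] at ha
    obtain ⟨c, rfl⟩ := ha
    obtain ⟨n, hn⟩ := hx c
    refine ⟨n, ?_⟩
    rw [Algebra.traceForm_apply]
    exact hn.symm
  obtain ⟨a, ha⟩ := h x h1
  refine ⟨a, ?_⟩
  rw [Algebra.smul_def] at ha
  exact ha

private theorem exists_ne_one (v : HeightOneSpectrum (𝓞 K)) : ∃ z, psi v z ≠ 1 := by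
  by_contra hall
  push Not at hall
  obtain ⟨D, hD, h⟩ := exists_den (K := K)
  have hD' : (D : K) ≠ 0 := by
    intro h0
    exact hD (by exact_mod_cast h0)
  obtain ⟨u, hu⟩ : ∃ u : Kˣ, (u : K) = (D : K) := ⟨Units.mk0 _ hD', rfl⟩
  obtain ⟨x, hx⟩ := exists_ordK v (-(((ordK v u).toNat : ℤ) + 1))
  obtain ⟨y, hy1, hy2⟩ := exists_pp v (x : K)
  have hneg : ordK v x < 0 := by rw [hx]; omega
  have hy0 : y ≠ 0 := by
    rintro rfl
    rw [sub_zero, mem_Rv] at hy1
    omega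
  obtain ⟨yu, hyu⟩ : ∃ yu : Kˣ, (yu : K) = y := ⟨Units.mk0 _ hy0, rfl⟩
  have hordy : ordK v yu = ordK v x := by
    apply ordK_eq_of_close
    rw [hyu]
    have h1 : y - (x : K) = -((x : K) - y) := by ring
    rw [h1]
    exact (Rv v _).neg_mem (Rv_anti (by omega) hy1)
  obtain ⟨a, ha⟩ := h y (fun c => by
    have hpp : IsPP v (y * (c : K)) (y * (c : K)) := by
      refine ⟨?_, ?_⟩
      · rw [sub_self]; exact (Rv v 0).zero_mem
      · intro w hw
        have := Rv_mul (hy2 w hw) (int_mem_Rv (v := w) c)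
        simpa using this
    have h2 := psi_of_pp hpp
    rw [hall] at h2
    exact (ee_eq_one_iff _).1 h2.symm)
  have h3 : ((u * yu : Kˣ) : K) ∈ Rv v 0 := by
    rw [Units.val_mul, hu, hyu, ← ha]
    exact int_mem_Rv a
  rw [mem_Rv, ordK_mul, hordy, hx] at h3
  omega

theorem exists_cond (v : HeightOneSpectrum (𝓞 K)) : ∃ d : ℕ, IsCond v (d : ℤ) := by
  classical
  have hex : ∃ d : ℕ, ∃ z ∈ Rv v (-(d : ℤ)), psi v z ≠ 1 := by
    obtain ⟨z, hz⟩ := exists_ne_one v
    obtain ⟨n, hn⟩ := exists_mem_Rv v z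
    exact ⟨n, z, hn, hz⟩
  obtain ⟨m, hm⟩ : ∃ m, m = Nat.find hex := ⟨_, rfl⟩
  have hm1 : ∃ z ∈ Rv v (-(m : ℤ)), psi v z ≠ 1 := by rw [hm]; exact Nat.find_spec hex
  have hm2 : ∀ k < m, ∀ z ∈ Rv v (-(k : ℤ)), psi v z = 1 := by
    intro k hk z hz
    by_contra hcon
    exact Nat.find_min hex (by rw [← hm]; exact hk) ⟨z, hz, hcon⟩
  have hm0 : m ≠ 0 := by
    rintro rfl
    obtain ⟨z, hz, hz1⟩ := hm1
    exact hz1 (psi_of_mem (by simpa using hz))
  obtain ⟨d, rfl⟩ := Nat.exists_eq_succ_of_ne_zero hm0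
  refine ⟨d, hm2 d (Nat.lt_succ_self d), ?_⟩
  obtain ⟨z, hz, hz1⟩ := hm1
  refine ⟨z, ?_, hz1⟩
  have : (-(d : ℤ) - 1) = -((d.succ : ℕ) : ℤ) := by push_cast; ring
  rw [this]
  exact hz

end Pool.Agent.QD.N2
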