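import Pool.Agent.QD.N2.Mn

/-!
# QD-N2-Ee: the character `ee`, equality up to positive factors
-/

set_option autoImplicit false

namespace Pool.Agent.QD.N2

theorem ee_add (a b : ℚ) : ee (a + b) = ee a * ee b := by
  unfold ee
  rw [← Complex.exp_add]
  congr 1
  push_cast
  ring

theorem ee_eq_one_iff (r : ℚ) : ee r = 1 ↔ ∃ n : ℤ, r = n := by
  unfold ee
  rw [Complex.exp_eq_one_iff]
  have hpi : (2 * Real.pi * Complex.I : ℂ) ≠ 0 := Complex.two_pi_I_ne_zero
  refine exists_congr fun n => ?_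
  rw [mul_comm (n : ℂ), mul_right_inj' hpi]
  constructor
  · intro h
    exact_mod_cast h
  · intro h
    exact_mod_cast h

theorem ee_int (n : ℤ) : ee (n : ℚ) = 1 := (ee_eq_one_iff _).2 ⟨n, rfl⟩

theorem ee_zero : ee 0 = 1 := by simpa using ee_int 0

theorem norm_ee (r : ℚ) : ‖ee r‖ = 1 := by
  unfold ee
  have : (2 * Real.pi * Complex.I * (r : ℂ) : ℂ) = ((2 * Real.pi * (r : ℝ) : ℝ) : ℂ) * Complex.I := by
    push_cast
    ring
  rw [this, Complex.norm_exp_ofReal_mul_I]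

theorem ee_ne_zero (r : ℚ) : ee r ≠ 0 := Complex.exp_ne_zero _

theorem ee_neg (r : ℚ) : ee (-r) = (starRingEnd ℂ) (ee r) := by
  unfold ee
  rw [← Complex.exp_conj]
  congr 1
  simp
  left
  exact (map_ofNat (starRingEnd ℂ) 2).symm

theorem ee_sum {ι : Type*} (s : Finset ι) (f : ι → ℚ) : ee (∑ i ∈ s, f i) = ∏ i ∈ s, ee (f i) := by
  classical
  induction s using Finset.induction_on with
  | empty => simp [ee_zero]
  | insert a s ha ih => rw [Finset.sum_insert ha, Finset.prod_insert ha, ee_add, ih]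

theorem SP.symm {a b : ℂ} (h : SP a b) : SP b a := by
  obtain ⟨r, hr, h⟩ := h
  refine ⟨r⁻¹, inv_pos.2 hr, ?_⟩
  have : (r : ℂ) ≠ 0 := by exact_mod_cast hr.ne'
  rw [h, Complex.ofReal_inv, inv_mul_cancel_left₀ this]

theorem SP.trans {a b c : ℂ} (h : SP a b) (h' : SP b c) : SP a c := by
  obtain ⟨r, hr, h⟩ := h
  obtain ⟨t, ht, h'⟩ := h'
  exact ⟨r * t, mul_pos hr ht, by rw [h, h', Complex.ofReal_mul, mul_assoc]⟩

theorem SP.refl (a : ℂ) : SP a a := ⟨1, one_pos, by simp⟩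

theorem SP.mul {a b c d : ℂ} (h : SP a b) (h' : SP c d) : SP (a * c) (b * d) := by
  obtain ⟨r, hr, h⟩ := h
  obtain ⟨t, ht, h'⟩ := h'
  exact ⟨r * t, mul_pos hr ht, by rw [h, h', Complex.ofReal_mul]; ring⟩

theorem SP.prod {ι : Type*} (s : Finset ι) {f g : ι → ℂ} (h : ∀ i ∈ s, SP (f i) (g i)) :
    SP (∏ i ∈ s, f i) (∏ i ∈ s, g i) := by
  classical
  induction s using Finset.induction_on with
  | empty => exact SP.refl _
  | insert a s ha ih =>
    rw [Finset.prod_insert ha, Finset.prod_insert ha]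
    exact (h a (Finset.mem_insert_self a s)).mul
      (ih fun i hi => h i (Finset.mem_insert_of_mem hi))

theorem SP.ne_zero {a b : ℂ} (h : SP a b) (hb : b ≠ 0) : a ≠ 0 := by
  obtain ⟨r, hr, h⟩ := h
  rw [h]
  exact mul_ne_zero (by exact_mod_cast hr.ne') hb

/-- a positive real number -/
theorem SP.of_pos {r : ℝ} (hr : 0 < r) : SP (r : ℂ) 1 := ⟨r, hr, by simp⟩

theorem zt_ne_zero : zt ≠ 0 := Complex.exp_ne_zero _

theorem conj_zt_ne_zero : (starRingEnd ℂ) zt ≠ 0 := by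
  rw [Ne, map_eq_zero]
  exact zt_ne_zero

/-- two signs which agree up to a positive factor are equal -/
theorem SP.int_eq {a : ℤ} (ha : a = 1 ∨ a = -1) {z : ℂ} (hz : z ≠ 0) (h : SP ((a : ℂ) * z) z) :
    a = 1 := by
  rcases ha with rfl | rfl
  · rfl
  · exfalso
    obtain ⟨r, hr, h⟩ := h
    have h1 : ((-1 : ℤ) : ℂ) = (r : ℂ) := mul_right_cancel₀ hz h
    have h2 : (-1 : ℝ) = r := by
      have h3 : ((-1 : ℝ) : ℂ) = (r : ℂ) := by
        rw [← h1]
        push_cast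
        rfl
      exact_mod_cast h3
    linarith

end Pool.Agent.QD.N2
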