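import Pool.Agent.QD.N2.MuStab

/-!
# QD-N2-LSqInv: local squares do not change the phase of the local Gauss sum

PLAN.  `θ ∈ Rv v (-n)` for some `n : ℕ` (`exists_mem_Rv`).  Take `r` with `closeOne v (n+1) (x r²)`
(`LSq v x`), i.e. `x r² - 1 ∈ Rv v (n+1)` (`closeOne_iff`).  So `ordK v (x r²) = 0` (`ordK_eq_of_close` with `1`),
`ordK v x = -2 ordK v r`, and `θ x r² - θ ∈ Rv v 0`: `mu v (θ x r²) = mu v θ` (`mu_congr`).
If `ordK v r ≥ 0`: `mu_stab` with `(θ x, r)`: `mu v (θ x r²) ~ mu v (θ x)`.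
If `ordK v r < 0`: `mu_stab` with `(θ x r², r⁻¹)`: `mu v (θ x) ~ mu v (θ x r²)`.
-/

set_option autoImplicit false

namespace Pool.Agent.QD.N2

open NumberField IsDedekindDomain Pool.Agent.HWR Pool.Agent.QD

variable {K : Type} [Field K] [NumberField K]

theorem mu_lsq (v : HeightOneSpectrum (𝓞 K)) {d : ℤ} (hd : IsCond v d) (x θ : Kˣ)
    (hx : LSq v x) (h : ordK v θ + d + 2 * ordK v (two' K) + |ordK v x| ≤ 0) :
    SP (mu v ((x * θ : Kˣ) : K)) (mu v (θ : K)) := by
  obtain ⟨n, hn⟩ := exists_mem_Rv v (θ : K)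
  obtain ⟨r, hr⟩ := hx (n + 1)
  rw [closeOne_iff] at hr
  have hord : ordK v x + 2 * ordK v r = 0 := by
    have h1 : ordK v (x * r ^ 2) = ordK v (1 : Kˣ) := by
      refine ordK_eq_of_close ?_
      rw [ordK_one, Units.val_mul, Units.val_pow_eq_pow_val, Units.val_one]
      exact Rv_anti (by push_cast; omega) hr
    rw [ordK_one, ordK_mul, ordK_pow] at h1
    push_cast at h1
    exact h1
  have hcl : mu v ((θ : K) * ((x : K) * (r : K) ^ 2)) = mu v (θ : K) := by
    refine mu_congr v ?_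
    have e : (θ : K) * ((x : K) * (r : K) ^ 2) - θ = (θ : K) * ((x : K) * (r : K) ^ 2 - 1) := by
      ring
    rw [e]
    exact Rv_anti (by push_cast; omega) (Rv_mul hn hr)
  have hox : ordK v (x * θ) = ordK v x + ordK v θ := ordK_mul x θ
  have habs : ordK v x ≤ |ordK v x| := le_abs_self _
  have habs0 : 0 ≤ |ordK v x| := abs_nonneg _
  rcases le_or_gt 0 (ordK v r) with h0 | h0
  · have h1 := mu_stab v hd (x * θ) r h0 (by rw [hox]; linarith)
    have e : ((x * θ : Kˣ) : K) * (r : K) ^ 2 = (θ : K) * ((x : K) * (r : K) ^ 2) := by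
      rw [Units.val_mul]
      ring
    rw [e, hcl] at h1
    exact h1.symm
  · have h1 := mu_stab v hd (θ * (x * r ^ 2)) r⁻¹ (by rw [ordK_inv]; linarith) (by
      rw [ordK_mul, ordK_mul, ordK_inv, ordK_pow]
      push_cast
      linarith)
    have e : ((θ * (x * r ^ 2) : Kˣ) : K) * ((r⁻¹ : Kˣ) : K) ^ 2 = ((x * θ : Kˣ) : K) := by
      rw [← Units.val_pow_eq_pow_val, ← Units.val_mul]
      congr 1
      rw [inv_pow]
      calc θ * (x * r ^ 2) * (r ^ 2)⁻¹ = x * θ * (r ^ 2 * (r ^ 2)⁻¹) := by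
            simp only [mul_assoc, mul_comm, mul_left_comm]
        _ = x * θ := by rw [mul_inv_cancel, mul_one]
    have e2 : ((θ * (x * r ^ 2) : Kˣ) : K) = (θ : K) * ((x : K) * (r : K) ^ 2) := by
      rw [Units.val_mul, Units.val_mul, Units.val_pow_eq_pow_val]
    rw [e, e2, hcl] at h1
    exact h1

end Pool.Agent.QD.N2
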