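import Pool.Agent.QD.N2.Mean

/-!
# QD-N2-PerQ: rational quadratic forms are periodic on lattices
-/

set_option autoImplicit false

namespace Pool.Agent.QD.N2

/-- A finite set of rational numbers has a common denominator. -/
theorem perq_exists_den {ι : Type*} (s : Finset ι) (f : ι → ℚ) :
    ∃ d : ℕ, d ≠ 0 ∧ ∀ i ∈ s, ∃ n : ℤ, (d : ℚ) * f i = n := by
  classical
  refine ⟨∏ i ∈ s, (f i).den, Finset.prod_ne_zero_iff.2 fun i _ => (f i).den_nz, fun i hi => ?_⟩
  rw [← Finset.prod_erase_mul _ _ hi]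
  refine ⟨((∏ j ∈ s.erase i, (f j).den : ℕ) : ℤ) * (f i).num, ?_⟩
  have h := Rat.den_mul_eq_num (f i)
  push_cast
  rw [mul_assoc]
  congr 1

/-- the multiples of `d` have finite index in a finitely generated group -/
theorem perq_relIndex_ne {V : Type*} [AddCommGroup V] (L : AddSubgroup V) (hL : L.FG) {d : ℕ}
    (hd : d ≠ 0) : (L.map (nsmulAddMonoidHom (α := V) d)).relIndex L ≠ 0 := by
  rw [AddSubgroup.relIndex]
  have : AddGroup.FG L := (AddGroup.fg_iff_addSubgroup_fg L).2 hL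
  set K := (L.map (nsmulAddMonoidHom (α := V) d)).addSubgroupOf L with hK
  have htor : ∀ x : L ⧸ K, d • x = 0 := by
    intro x
    obtain ⟨y, rfl⟩ := QuotientAddGroup.mk_surjective x
    rw [← QuotientAddGroup.mk_nsmul, QuotientAddGroup.eq_zero_iff]
    rw [hK, AddSubgroup.mem_addSubgroupOf]
    exact ⟨y, y.2, by simp⟩
  have : Finite (L ⧸ K) := by
    refine AddCommGroup.finite_of_fg_isAddTorsion (L ⧸ K) ?_
    intro x
    exact isOfFinAddOrder_iff_nsmul_eq_zero.2 ⟨d, Nat.pos_of_ne_zero hd, htor x⟩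
  exact AddSubgroup.index_ne_zero_of_finite

/-- QD-N2-PerQ.  PLAN.  `L` is generated by a finite set `s`.  There is `d ≥ 1` with `d * Q(g) ∈ ℤ` and
`d * polar Q g g' ∈ ℤ` for `g, g' ∈ s`, hence `d * Q(x) ∈ ℤ` for all `x ∈ L` and
`d * polar Q x y ∈ ℤ` for `x, y ∈ L` (`AddSubgroup.closure_induction`).  Take `H = d • L = L.map (nsmul d)`
(finite index in `L`: `L` is finitely generated; e.g. through the surjection `(s → ZMod d) → L ⧸ dL` or
`AddSubgroup.FG` of exponent `d`).  `Q(x + d h) = Q x + d² Q(h) + d polar Q x h`, integer difference;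
`ee_add`, `ee_int`. -/
theorem exists_per {V : Type*} [AddCommGroup V] [Module ℚ V] (Q : QuadraticForm ℚ V)
    (L : AddSubgroup V) (hL : L.FG) : ∃ H, Per L H (fun x => ee (Q x)) := by
  classical
  obtain ⟨s, hs⟩ := hL
  obtain ⟨d1, hd1, h1⟩ := perq_exists_den s (fun g => Q g)
  obtain ⟨d2, hd2, h2⟩ := perq_exists_den (s ×ˢ s) (fun p => QuadraticMap.polar Q p.1 p.2)
  obtain ⟨d, hd, hQ, hP⟩ : ∃ d : ℕ, d ≠ 0 ∧ (∀ g ∈ s, ∃ n : ℤ, (d : ℚ) * Q g = n) ∧
      ∀ g ∈ s, ∀ g' ∈ s, ∃ n : ℤ, (d : ℚ) * QuadraticMap.polar Q g g' = n := by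
    refine ⟨d1 * d2, mul_ne_zero hd1 hd2, fun g hg => ?_, fun g hg g' hg' => ?_⟩
    · obtain ⟨n, hn⟩ := h1 g hg
      refine ⟨(d2 : ℤ) * n, ?_⟩
      push_cast
      rw [← hn]
      ring
    · obtain ⟨n, hn⟩ := h2 (g, g') (Finset.mk_mem_product hg hg')
      refine ⟨(d1 : ℤ) * n, ?_⟩
      push_cast
      rw [← hn]
      ring
  have hP1 : ∀ g ∈ s, ∀ y ∈ L, ∃ n : ℤ, (d : ℚ) * QuadraticMap.polar Q g y = n := by
    intro g hg y hy
    rw [← hs] at hy
    induction hy using AddSubgroup.closure_induction with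
    | mem x hx => exact hP g hg x hx
    | zero => exact ⟨0, by rw [QuadraticMap.polar_zero_right]; simp⟩
    | add x y _ _ hx hy =>
      obtain ⟨a, ha⟩ := hx
      obtain ⟨b, hb⟩ := hy
      exact ⟨a + b, by rw [QuadraticMap.polar_add_right, mul_add, ha, hb]; push_cast; ring⟩
    | neg x _ hx =>
      obtain ⟨a, ha⟩ := hx
      exact ⟨-a, by rw [QuadraticMap.polar_neg_right, mul_neg, ha]; push_cast; ring⟩
  have hP2 : ∀ x ∈ L, ∀ y ∈ L, ∃ n : ℤ, (d : ℚ) * QuadraticMap.polar Q x y = n := by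
    intro x hx y hy
    rw [← hs] at hx
    induction hx using AddSubgroup.closure_induction with
    | mem x hx => exact hP1 x hx y hy
    | zero => exact ⟨0, by rw [QuadraticMap.polar_zero_left]; simp⟩
    | add x x' _ _ hx hx' =>
      obtain ⟨a, ha⟩ := hx
      obtain ⟨b, hb⟩ := hx'
      exact ⟨a + b, by rw [QuadraticMap.polar_add_left, mul_add, ha, hb]; push_cast; ring⟩
    | neg x _ hx =>
      obtain ⟨a, ha⟩ := hx
      exact ⟨-a, by rw [QuadraticMap.polar_neg_left, mul_neg, ha]; push_cast; ring⟩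
  have hQ1 : ∀ x ∈ L, ∃ n : ℤ, (d : ℚ) * Q x = n := by
    intro x hx
    rw [← hs] at hx
    induction hx using AddSubgroup.closure_induction with
    | mem x hx => exact hQ x hx
    | zero => exact ⟨0, by simp⟩
    | add x y hx' hy' hx hy =>
      rw [hs] at hx' hy'
      obtain ⟨a, ha⟩ := hx
      obtain ⟨b, hb⟩ := hy
      obtain ⟨c, hc⟩ := hP2 x hx' y hy'
      refine ⟨a + b + c, ?_⟩
      rw [QuadraticMap.map_add Q x y, mul_add, mul_add, ha, hb, hc]
      push_cast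
      ring
    | neg x _ hx =>
      obtain ⟨a, ha⟩ := hx
      exact ⟨a, by rw [QuadraticMap.map_neg, ha]⟩
  refine ⟨L.map (nsmulAddMonoidHom (α := V) d), ?_, ?_, ?_⟩
  · rintro _ ⟨y, hy, rfl⟩
    exact L.nsmul_mem hy d
  · exact perq_relIndex_ne L ⟨s, hs⟩ hd
  · rintro x hx _ ⟨y, hy, rfl⟩
    obtain ⟨a, ha⟩ := hQ1 y hy
    obtain ⟨b, hb⟩ := hP2 x hx y hy
    have e1 : (nsmulAddMonoidHom (α := V) d) y = (d : ℚ) • y := by
      rw [nsmulAddMonoidHom_apply, Nat.cast_smul_eq_nsmul]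
    show ee (Q (x + (nsmulAddMonoidHom (α := V) d) y)) = ee (Q x)
    rw [e1, QuadraticMap.map_add Q, QuadraticMap.polar_smul_right, QuadraticMap.map_smul]
    have e2 : Q x + ((d : ℚ) * (d : ℚ)) • Q y + (d : ℚ) • QuadraticMap.polar Q x y
        = Q x + (((d : ℤ) * a + b : ℤ) : ℚ) := by
      rw [smul_eq_mul, smul_eq_mul, hb, mul_assoc, ha]
      push_cast
      ring
    rw [e2, ee_add, ee_int, mul_one]

end Pool.Agent.QD.N2
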