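import Pool.Agent.QD.N2.GtDiag
import Pool.Agent.QD.N2.PerQ

/-!
# QD-N2-Milgram: Milgram's formula for rational quadratic forms
-/

set_option autoImplicit false

namespace Pool.Agent.QD.N2

/-- integer vectors are finitely generated -/
private theorem ZZ_fg (n : ℕ) : (ZZ (Fin n)).FG := by
  classical
  refine ⟨Finset.univ.image (fun i : Fin n => (Pi.single i 1 : Fin n → ℚ)), ?_⟩
  apply le_antisymm
  · rw [AddSubgroup.closure_le]
    intro x hx
    simp only [Finset.coe_image, Finset.coe_univ, Set.image_univ, Set.mem_range] at hx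
    obtain ⟨i, rfl⟩ := hx
    intro j
    by_cases hj : j = i
    · subst hj
      exact ⟨1, by simp⟩
    · exact ⟨0, by simp [Pi.single_eq_of_ne hj]⟩
  · intro x hx
    choose c hc using hx
    have h1 : x = ∑ i, c i • (Pi.single i 1 : Fin n → ℚ) := by
      funext j
      rw [Finset.sum_apply, Finset.sum_eq_single j]
      · simp [hc j]
      · intro i _ hij
        simp [Pi.single_eq_of_ne (Ne.symm hij)]
      · intro h
        exact absurd (Finset.mem_univ j) h
    rw [h1]
    refine AddSubgroup.sum_mem _ fun i _ => AddSubgroup.zsmul_mem _ ?_ _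
    exact AddSubgroup.subset_closure (by simp)

/-- QD-N2-Milgram.  PLAN.  `Q.equivalent_weightedSumSquares` (needs `Invertible (2 : ℚ)`): isometry `e` of
`Q` with `weightedSumSquares ℚ w` on `Fin n → ℚ`.  All `w i ≠ 0` (else `e.symm (Pi.single i 1)` is in the
radical, against `hQ`).  Write `w i = c/d` (`Rat.num`, `Rat.den`), `m i = 2 |c| d`, `k i = |c| d³`,
`s i = sign c`: `w i / m i² = s i / (4 k i)`.  Let `σ : (Fin n → ℚ) ≃+ V`, `σ t = e.symm (fun i => t i / m i)`:
`Q (σ t) = qs k s t`.  `L0 = (ZZ _).map σ` is finitely generated (by the `σ (Pi.single i 1)`).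
For `L ≥ L0` finitely generated: `L = (L.comap σ).map σ`, `mean_map`, and `gt_diag` with
`L' = L.comap σ ≥ ZZ`; its period group is the `comap` of the one from `exists_per` (or apply
`exists_per` to the form `Q ∘ σ`).  The product `∏ i, if s i = 1 then zt else conj zt` is
`zt ^ #{i | 0 < w i} * (conj zt) ^ #{i | w i < 0}`, and these numbers are `sigPos Q`, `sigNeg Q`
(`QuadraticForm.sigPos_of_equiv_weightedSumSquares`, `sigNeg_...`). -/
theorem milgram {V : Type*} [AddCommGroup V] [Module ℚ V] [FiniteDimensional ℚ V]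
    (Q : QuadraticForm ℚ V) (hQ : ∀ x, (∀ y, QuadraticMap.polar Q x y = 0) → x = 0) :
    ∃ L0 : AddSubgroup V, L0.FG ∧ ∀ L : AddSubgroup V, L.FG → L0 ≤ L →
      SP (mean L (fun x => ee (Q x))) (zt ^ sigPos Q * (starRingEnd ℂ) zt ^ sigNeg Q) := by
  classical
  have : Invertible (2 : ℚ) := invertibleOfNonzero two_ne_zero
  obtain ⟨w, ⟨e⟩⟩ := Q.equivalent_weightedSumSquares
  have heq : ∀ x, Q x = ∑ i, w i * (e x i * e x i) := by
    intro x
    rw [← e.map_app x, QuadraticMap.weightedSumSquares_apply]
    rfl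
  have hadd : ∀ x y, e (x + y) = e x + e y := fun x y => map_add e.toLinearEquiv x y
  have hw : ∀ i, w i ≠ 0 := by
    intro i hi
    have hs : e (e.toLinearEquiv.symm (Pi.single i 1)) = Pi.single i 1 :=
      e.toLinearEquiv.apply_symm_apply _
    have h1 : e.toLinearEquiv.symm (Pi.single i 1) = 0 := by
      apply hQ
      intro y
      unfold QuadraticMap.polar
      rw [heq, heq, heq, hadd, hs]
      have h2 : ∑ j, w j * ((Pi.single i 1 : Fin _ → ℚ) j * (Pi.single i 1 : Fin _ → ℚ) j) = 0 := by
        refine Finset.sum_eq_zero fun j _ => ?_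
        by_cases hj : j = i
        · rw [hj, hi, zero_mul]
        · simp [Pi.single_eq_of_ne hj]
      have h3 : ∑ j, w j * ((Pi.single i 1 + e y : Fin _ → ℚ) j *
          (Pi.single i 1 + e y : Fin _ → ℚ) j) = ∑ j, w j * (e y j * e y j) := by
        refine Finset.sum_congr rfl fun j _ => ?_
        by_cases hj : j = i
        · rw [hj, hi, zero_mul, zero_mul]
        · rw [Pi.add_apply, Pi.single_eq_of_ne hj, zero_add]
      rw [h2, h3]
      ring
    rw [h1] at hs
    have h4 : e 0 = 0 := map_zero e.toLinearEquiv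
    rw [h4] at hs
    have h5 := congrFun hs i
    simp at h5
  set k : Fin (Module.finrank ℚ V) → ℕ := fun i => (w i).num.natAbs * (w i).den ^ 3 with hk
  set m : Fin (Module.finrank ℚ V) → ℚ := fun i => 2 * ((w i).num.natAbs : ℚ) * (w i).den with hm
  set s : Fin (Module.finrank ℚ V) → ℤ := fun i => if 0 < w i then 1 else -1 with hs
  have hnum : ∀ i, (w i).num.natAbs ≠ 0 := by
    intro i
    rw [Int.natAbs_ne_zero]
    exact Rat.num_ne_zero.2 (hw i)
  have hk0 : ∀ i, 0 < k i := by
    intro i
    exact Nat.mul_pos (Nat.pos_of_ne_zero (hnum i)) (pow_pos (w i).den_pos 3)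
  have hm0 : ∀ i, m i ≠ 0 := by
    intro i
    have h1 : ((w i).num.natAbs : ℚ) ≠ 0 := by exact_mod_cast hnum i
    have h2 : ((w i).den : ℚ) ≠ 0 := by exact_mod_cast (w i).den_ne_zero
    exact mul_ne_zero (mul_ne_zero two_ne_zero h1) h2
  have hs0 : ∀ i, s i = 1 ∨ s i = -1 := by
    intro i
    simp only [hs]
    split_ifs <;> simp
  have hwm : ∀ i, w i = (s i : ℚ) * m i ^ 2 / (4 * (k i : ℚ)) := by
    intro i
    have h1 : ((w i).num.natAbs : ℚ) ≠ 0 := by exact_mod_cast hnum i
    have h2 : ((w i).den : ℚ) ≠ 0 := by exact_mod_cast (w i).den_ne_zero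
    have h3 : (s i : ℚ) * ((w i).num.natAbs : ℚ) = ((w i).num : ℚ) := by
      have h6 : ((w i).num.natAbs : ℚ) = |((w i).num : ℚ)| := by
        rw [Nat.cast_natAbs, Int.cast_abs]
      simp only [hs]
      split_ifs with h
      · have h4 : (0 : ℚ) < ((w i).num : ℚ) := by exact_mod_cast Rat.num_pos.2 h
        rw [Int.cast_one, one_mul, h6, abs_of_pos h4]
      · have h4 : ((w i).num : ℚ) < 0 := by
          exact_mod_cast Rat.num_neg.2 (lt_of_le_of_ne (not_lt.1 h) (hw i))
        rw [h6, abs_of_neg h4]
        push_cast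
        ring
    have h7 : w i = ((w i).num : ℚ) / ((w i).den : ℚ) := (Rat.num_div_den (w i)).symm
    have h8 : (k i : ℚ) = ((w i).num.natAbs : ℚ) * ((w i).den : ℚ) ^ 3 := by
      simp only [hk]
      push_cast
      ring
    have h9 : m i = 2 * ((w i).num.natAbs : ℚ) * (w i).den := rfl
    rw [h8, h9, eq_div_iff (by positivity)]
    nth_rewrite 1 [h7]
    rw [← h3]
    field_simp
    ring
  let τ : (Fin (Module.finrank ℚ V) → ℚ) ≃+ (Fin (Module.finrank ℚ V) → ℚ) :=
    { toFun := fun t i => t i / m i
      invFun := fun t i => t i * m i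
      left_inv := fun t => funext fun i => div_mul_cancel₀ _ (hm0 i)
      right_inv := fun t => funext fun i => mul_div_cancel_right₀ _ (hm0 i)
      map_add' := fun a b => funext fun i => by
        simp only [Pi.add_apply]
        exact add_div _ _ _ }
  let σ : (Fin (Module.finrank ℚ V) → ℚ) ≃+ V := τ.trans e.toLinearEquiv.symm.toAddEquiv
  have hσ1 : ∀ t, e (σ t) = τ t := fun t => e.toLinearEquiv.apply_symm_apply _
  have hσ : ∀ t, Q (σ t) = qs k s t := by
    intro t
    rw [heq, hσ1]
    unfold qs
    refine Finset.sum_congr rfl fun i _ => ?_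
    have h1 : τ t i = t i / m i := rfl
    rw [h1, hwm i]
    have h2 := hm0 i
    have h3 : (k i : ℚ) ≠ 0 := by exact_mod_cast (hk0 i).ne'
    field_simp
  refine ⟨(ZZ _).map σ.toAddMonoidHom, ?_, ?_⟩
  · obtain ⟨t, ht⟩ := ZZ_fg (Module.finrank ℚ V)
    refine ⟨t.image σ.toAddMonoidHom, ?_⟩
    rw [← ht, Finset.coe_image, AddMonoidHom.map_closure]
  · intro L hL hle
    have hmap : (L.comap σ.toAddMonoidHom).map σ.toAddMonoidHom = L :=
      AddSubgroup.map_comap_eq_self_of_surjective σ.surjective L
    obtain ⟨H, hH⟩ := exists_per Q L hL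
    have hper : Per (L.comap σ.toAddMonoidHom) (H.comap σ.toAddMonoidHom)
        (fun x => ee (qs k s x)) := by
      refine ⟨AddSubgroup.comap_mono hH.le, ?_, ?_⟩
      · rw [AddSubgroup.relIndex_comap, hmap]
        exact hH.fin
      · intro x hx h hh
        have h1 := hH.per (σ x) hx (σ h) hh
        change ee (qs k s (x + h)) = ee (qs k s x)
        rw [← hσ, ← hσ, map_add]
        exact h1
    have hZ : ZZ _ ≤ L.comap σ.toAddMonoidHom := by
      rw [← AddSubgroup.map_le_iff_le_comap]
      exact hle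
    have h1 := gt_diag k hk0 s hs0 _ _ hZ hper
    have h2 : mean L (fun x => ee (Q x)) =
        mean (L.comap σ.toAddMonoidHom) (fun x => ee (qs k s x)) := by
      have h3 := mean_map σ (L.comap σ.toAddMonoidHom) (fun x => ee (Q x))
      rw [hmap] at h3
      rw [h3]
      congr 1
      funext x
      rw [hσ]
    have hcards : ∀ i, s i = 1 ↔ 0 < w i := by
      intro i
      simp only [hs]
      split_ifs with h
      · simp [h]
      · simp [h]
    have h4 : (∏ i, if s i = 1 then zt else (starRingEnd ℂ) zt) =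
        zt ^ sigPos Q * (starRingEnd ℂ) zt ^ sigNeg Q := by
      have hE : QuadraticMap.Equivalent Q (QuadraticMap.weightedSumSquares ℚ w) := ⟨e⟩
      rw [QuadraticForm.sigPos_of_equiv_weightedSumSquares hE,
        QuadraticForm.sigNeg_of_equiv_weightedSumSquares hE, Finset.prod_ite,
        Finset.prod_const, Finset.prod_const]
      congr 2
      · rw [Set.ncard_eq_toFinset_card']
        congr 1
        ext i
        simp [hcards]
      · rw [Set.ncard_eq_toFinset_card']
        congr 1
        ext i
        simp only [Finset.mem_filter, Finset.mem_univ, true_and, Set.mem_toFinset,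
          Set.mem_ofPred_eq, hcards]
        constructor
        · intro h
          exact lt_of_le_of_ne (not_lt.1 h) (hw i)
        · intro h
          exact not_lt.2 h.le
    rw [h2, ← h4]
    exact h1

end Pool.Agent.QD.N2
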