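import Mathlib

/-!
# QD-N2-NearOne: totally positive elements are nearly squares at infinity (Mathlib only)

PLAN.  For every infinite place `w` the image of `x` in the completion `w.Completion` is a nonzero square
`s_w²`: if `w` is complex, `w.Completion ≃ ℂ` (`InfinitePlace.Completion.extensionEmbedding`, bijective for
complex places: `bijective_extensionEmbedding_of_isComplex`, `ringEquivComplexOfIsComplex`); if `w` is real,
`w.Completion ≃ ℝ` (`ringEquivRealOfIsReal`) and the image of `x` in `ℝ` is `φ x > 0` with `φ = w.embedding` as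
a homomorphism to `ℝ` (`InfinitePlace.embedding_of_isReal`).  The image of `K` is dense in
`NumberField.InfiniteAdeleRing K = ∀ w, w.Completion` (`InfiniteAdeleRing.denseRange_algebraMap`), and
`t ↦ (x t_w² - 1)_w` is continuous and `0` at `t = (s_w⁻¹)`, so there is `r ∈ K` with
`‖x r² - 1‖_w < δ` for all `w`; finitely many places.  `r ≠ 0` if `δ ≤ 1` (replace `δ` by `min δ 1`):
`w (0 - 1) = 1`.
-/

set_option autoImplicit false

namespace Pool.Agent.QD.N2

open NumberField

private theorem exists_inv_sqrt {K : Type} [Field K] {x : K} (hx0 : x ≠ 0)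
    (hx : ∀ φ : K →+* ℝ, 0 < φ x) (w : InfinitePlace K) :
    ∃ s : w.Completion, algebraMap K w.Completion x * s ^ 2 = 1 := by
  rcases w.isReal_or_isComplex with hw | hw
  · set E := InfinitePlace.Completion.ringEquivRealOfIsReal hw with hE
    have hpos : 0 < E (algebraMap K w.Completion x) := hx (E.toRingHom.comp (algebraMap K w.Completion))
    refine ⟨E.symm (Real.sqrt (E (algebraMap K w.Completion x)))⁻¹, ?_⟩
    apply E.injective
    rw [map_mul, map_pow, E.apply_symm_apply, inv_pow, Real.sq_sqrt hpos.le, map_one,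
      mul_inv_cancel₀ hpos.ne']
  · set E := InfinitePlace.Completion.ringEquivComplexOfIsComplex hw with hE
    have hne : E (algebraMap K w.Completion x) ≠ 0 := by
      rw [Ne, EmbeddingLike.map_eq_zero_iff, map_eq_zero]
      exact hx0
    obtain ⟨t, ht⟩ := IsAlgClosed.exists_pow_nat_eq (E (algebraMap K w.Completion x))⁻¹
      (n := 2) (by norm_num)
    refine ⟨E.symm t, ?_⟩
    apply E.injective
    rw [map_mul, map_pow, E.apply_symm_apply, ht, map_one, mul_inv_cancel₀ hne]

theorem near_one {K : Type} [Field K] [NumberField K] {x : K} (hx0 : x ≠ 0)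
    (hx : ∀ φ : K →+* ℝ, 0 < φ x) {δ : ℝ} (hδ : 0 < δ) :
    ∃ r : K, r ≠ 0 ∧ ∀ w : InfinitePlace K, w (x * r ^ 2 - 1) < δ := by
  classical
  choose s hs using exists_inv_sqrt hx0 hx
  set δ' : ℝ := min δ 1 with hδ'
  have hδ'0 : 0 < δ' := lt_min hδ one_pos
  set U : Set (InfiniteAdeleRing K) :=
    {a | ∀ w : InfinitePlace K, ‖algebraMap K w.Completion x * (a w) ^ 2 - 1‖ < δ'} with hU
  have hUo : IsOpen U := by
    rw [hU]
    have : {a : InfiniteAdeleRing K | ∀ w : InfinitePlace K,
        ‖algebraMap K w.Completion x * (a w) ^ 2 - 1‖ < δ'} =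
        ⋂ w : InfinitePlace K, {a | ‖algebraMap K w.Completion x * (a w) ^ 2 - 1‖ < δ'} := by
      ext a
      simp
    rw [this]
    refine isOpen_iInter_of_finite fun w => isOpen_lt ?_ continuous_const
    have hc : Continuous fun a : InfiniteAdeleRing K => a w := continuous_apply w
    exact ((continuous_const.mul (hc.pow 2)).sub continuous_const).norm
  have hUn : U.Nonempty := ⟨fun w => s w, fun w => by rw [hs w, sub_self, norm_zero]; exact hδ'0⟩
  obtain ⟨r, hr⟩ := (InfiniteAdeleRing.denseRange_algebraMap K).exists_mem_open hUo hUn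
  have key : ∀ w : InfinitePlace K, w (x * r ^ 2 - 1) < δ' := by
    intro w
    have h1 : ‖algebraMap K w.Completion x * (algebraMap K w.Completion r) ^ 2 - 1‖ < δ' := hr w
    rw [← map_pow, ← map_mul, ← map_one (algebraMap K w.Completion), ← map_sub] at h1
    have h2 : ‖algebraMap K w.Completion (x * r ^ 2 - 1)‖ = w (x * r ^ 2 - 1) := by
      rw [InfinitePlace.Completion.algebraMap_apply]
      refine (InfinitePlace.Completion.norm_coe w _).trans ?_
      simp
    rw [h2] at h1
    exact h1
  refine ⟨r, ?_, fun w => (key w).trans_le (min_le_left _ _)⟩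
  rintro rfl
  obtain ⟨w⟩ : Nonempty (InfinitePlace K) := inferInstance
  have := (key w).trans_le (min_le_right _ _)
  rw [zero_pow (by norm_num), mul_zero, zero_sub] at this
  have h1 : w (-1 : K) = 1 := by
    have : w (-1 : K) = w (1 : K) := w.1.map_neg 1
    rw [this, map_one]
  rw [h1] at this
  exact lt_irrefl _ this

end Pool.Agent.QD.N2
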