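import Pool.Agent.QD.N2.SigConst
import Pool.Agent.QD.N2.NearOne

/-!
# QD-N2-SigTot: totally positive factors do not change the signature of the trace form

PLAN.  Let `δ` be from `sig_const` for `ω`.  Take (finitely many places) `δ' > 0` with `w ω * δ' ≤ δ` for all
infinite `w`, and `r` from `near_one` for `x, δ'`: `w (ω x r² - ω) = w ω * w (x r² - 1) < δ`.  So the signatures
of `trf (ω x r²)` and `trf ω` agree; and `trf (ω x r²)` is equivalent to `trf (ω x)` by `z ↦ r z` (a `ℚ`-linear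
automorphism of `K`): `trf (ω x r²) z = trf (ω x) (r z)`; `QuadraticMap.Equivalent.sigPos_eq`, `.sigNeg_eq`.
-/

set_option autoImplicit false

namespace Pool.Agent.QD.N2

open NumberField

variable {K : Type} [Field K] [NumberField K]

/-- multiplication by `r` as an isometry -/
private theorem trf_equiv (ω : K) {r : K} (hr : r ≠ 0) :
    (trf (ω * r ^ 2)).Equivalent (trf ω) := by
  refine ⟨⟨LinearEquiv.mk (LinearMap.mulLeft ℚ r) (fun z => r⁻¹ * z)
    (fun z => ?_) (fun z => ?_), fun z => ?_⟩⟩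
  · change r⁻¹ * (r * z) = z
    rw [inv_mul_cancel_left₀ hr]
  · change r * (r⁻¹ * z) = z
    rw [mul_inv_cancel_left₀ hr]
  · change trf ω (r * z) = trf (ω * r ^ 2) z
    rw [trf_apply, trf_apply]
    congr 1
    ring

theorem sig_tot {ω x : K} (hω : ω ≠ 0) (hx0 : x ≠ 0) (hx : ∀ φ : K →+* ℝ, 0 < φ x) :
    sigPos (trf (x * ω)) = sigPos (trf ω) ∧ sigNeg (trf (x * ω)) = sigNeg (trf ω) := by
  obtain ⟨δ, hδ, hc⟩ := sig_const hω
  set S : ℝ := ∑ w : InfinitePlace K, w ω with hS
  have hS0 : 0 ≤ S := Finset.sum_nonneg (fun w _ => apply_nonneg w ω)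
  have hwS : ∀ w : InfinitePlace K, w ω ≤ S := fun w =>
    Finset.single_le_sum (f := fun w : InfinitePlace K => w ω) (fun w _ => apply_nonneg w ω)
      (Finset.mem_univ w)
  have hδ' : 0 < δ / (S + 1) := div_pos hδ (by linarith)
  obtain ⟨r, hr0, hr⟩ := near_one hx0 hx hδ'
  have h1 := hc (x * ω * r ^ 2) (mul_ne_zero (mul_ne_zero hx0 hω) (pow_ne_zero 2 hr0))
    (fun w => by
      have h2 : x * ω * r ^ 2 - ω = ω * (x * r ^ 2 - 1) := by ring
      rw [h2, map_mul]
      have h3 : w ω * w (x * r ^ 2 - 1) ≤ S * (δ / (S + 1)) :=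
        mul_le_mul (hwS w) (hr w).le (apply_nonneg w _) hS0
      have h4 : S * (δ / (S + 1)) < δ := by
        rw [← mul_div_assoc, div_lt_iff₀ (by linarith)]
        nlinarith
      exact lt_of_le_of_lt h3 h4)
  have h5 := trf_equiv (x * ω) hr0
  rw [← h5.sigPos_eq, ← h5.sigNeg_eq]
  exact h1

end Pool.Agent.QD.N2
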