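import Pool.Agent.QD.N2.Brk
import Pool.Agent.QD.N2.LSqInv
import Pool.Agent.QD.N2.Milgram
import Pool.Agent.QD.N2.SigTot
import Pool.Agent.QD.N2.Cond

/-!
# QD-N2-FinA: auxiliary statements for the assembly
-/

set_option autoImplicit false

namespace Pool.Agent.QD.N2

open NumberField IsDedekindDomain Pool.Agent.HWR Pool.Agent.QD

variable {K : Type} [Field K] [NumberField K]

/-- Denominators of one element. -/
theorem exists_den1 (b : K) : ∃ n : ℕ, 0 < n ∧ (n : K) * b ∈ OK K := by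
  obtain ⟨x, y, hy, hb⟩ := IsFractionRing.div_surjective (A := 𝓞 K) b
  have hy0 : y ≠ 0 := nonZeroDivisors.ne_zero hy
  have hne : Ideal.span {y} ≠ ⊥ := by
    rw [Ne, Ideal.span_singleton_eq_bot]
    exact hy0
  obtain ⟨z, hz⟩ := Ideal.mem_span_singleton'.1 (Ideal.absNorm_mem (Ideal.span {y}))
  refine ⟨Ideal.absNorm (Ideal.span {y}), ?_, ?_⟩
  · rw [Nat.pos_iff_ne_zero, Ne, Ideal.absNorm_eq_zero_iff]
    exact hne
  · refine AddMonoidHom.mem_range.2 ⟨z * x, ?_⟩
    change algebraMap (𝓞 K) K (z * x) = _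
    have hyK : algebraMap (𝓞 K) K y ≠ 0 := by
      rw [Ne, FaithfulSMul.algebraMap_eq_zero_iff]
      exact hy0
    have h1 : ((Ideal.absNorm (Ideal.span {y}) : ℕ) : K) =
        algebraMap (𝓞 K) K z * algebraMap (𝓞 K) K y := by
      rw [← map_mul, hz, map_natCast]
    rw [h1, ← hb, map_mul]
    field_simp

/-- Denominators: finitely generated subgroups of `K` are contained in `m⁻¹ 𝓞 K`. -/
theorem exists_den (L : AddSubgroup K) (hL : L.FG) :
    ∃ m : ℕ, 0 < m ∧ ∀ a ∈ L, (m : K) * a ∈ OK K := by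
  classical
  obtain ⟨s, hs⟩ := hL
  subst hs
  choose n hn0 hn using exists_den1 (K := K)
  refine ⟨∏ b ∈ s, n b, Finset.prod_pos fun b _ => hn0 b, ?_⟩
  intro a ha
  have key : AddSubgroup.closure (s : Set K) ≤
      (OK K).comap (AddMonoidHom.mulLeft ((∏ b ∈ s, n b : ℕ) : K)) := by
    rw [AddSubgroup.closure_le]
    intro x hx
    change ((∏ b ∈ s, n b : ℕ) : K) * x ∈ OK K
    rw [← Finset.prod_erase_mul s _ (Finset.mem_coe.1 hx), Nat.cast_mul, mul_assoc,
      ← nsmul_eq_mul]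
    exact nsmul_mem (hn x) _
  exact key ha

/-- natural numbers of large order at finitely many places -/
theorem exists_deep (s : Finset (HeightOneSpectrum (𝓞 K))) (h : ℕ) :
    ∃ B : ℕ, 0 < B ∧ ∀ v ∈ s, ((B : ℕ) : K) ∈ Rv v (h : ℤ) := by
  classical
  refine ⟨(∏ v ∈ s, nrm v) ^ h, ?_, ?_⟩
  · refine Nat.pow_pos (Finset.prod_pos fun v _ => ?_)
    rw [nrm, Nat.pos_iff_ne_zero, Ne, Ideal.absNorm_eq_zero_iff]
    exact v.ne_bot
  · intro v hv
    have h1 : ((((∏ w ∈ s, nrm w) ^ h : ℕ) : 𝓞 K)) ∈ v.asIdeal ^ h := by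
      push_cast
      refine Ideal.pow_mem_pow ?_ h
      rw [← Finset.mul_prod_erase s _ hv]
      exact Ideal.mul_mem_right _ _ (Ideal.absNorm_mem _)
    have h2 := (int_mem_Rv_iff (v := v) _ h).2 h1
    have e : ((((∏ w ∈ s, nrm w) ^ h : ℕ) : 𝓞 K) : K) = (((∏ w ∈ s, nrm w) ^ h : ℕ) : K) := by
      push_cast
      rfl
    rwa [e] at h2

/-- the product of the symbols as a finite product -/
theorem BS_eq (S t : Finset (HeightOneSpectrum (𝓞 K)))
    [DecidablePred fun v : HeightOneSpectrum (𝓞 K) => v ∈ S] (x y : Kˣ)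
    (h : ∀ v, v ∉ t → v ∉ S → hs v x y = 1) :
    BS S x y = ∏ v ∈ t, if v ∈ S then 1 else hs v x y := by
  unfold BS
  have h1 : (∏ᶠ v : {v : HeightOneSpectrum (𝓞 K) // v ∉ S}, hs v.1 x y) =
      ∏ᶠ v : {v : HeightOneSpectrum (𝓞 K) // v ∉ S},
        (fun v : HeightOneSpectrum (𝓞 K) => if v ∈ S then 1 else hs v x y) v.1 := by
    refine finprod_congr fun v => ?_
    simp only
    rw [if_neg v.2]
  have h2 := finprod_subtype_eq_finprod_cond
    (f := fun v : HeightOneSpectrum (𝓞 K) => if v ∈ S then (1 : ℤ) else hs v x y) (fun v => v ∉ S)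
  have h3 : (∏ᶠ (v : HeightOneSpectrum (𝓞 K)) (_ : v ∉ S), if v ∈ S then (1 : ℤ) else hs v x y) =
      ∏ᶠ v : HeightOneSpectrum (𝓞 K), if v ∈ S then (1 : ℤ) else hs v x y := by
    refine finprod_congr fun v => ?_
    by_cases hv : v ∈ S
    · rw [if_pos hv, finprod_one]
    · rw [finprod_eq_if, if_pos hv]
  rw [h1]
  refine h2.trans (h3.trans ?_)
  refine finprod_eq_prod_of_mulSupport_subset _ ?_
  intro v hv
  rw [Function.mem_mulSupport] at hv
  by_contra hvt
  apply hv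
  by_cases hvS : v ∈ S
  · rw [if_pos hvS]
  · rw [if_neg hvS]
    exact h v (fun h' => hvt (Finset.mem_coe.2 h')) hvS

/-- The mean of the trace form over `M⁻¹ 𝓞 K`. -/
theorem mean_lattice (ω : K) (M : Kˣ) :
    mean ((OK K).map (AddMonoidHom.mulLeft ((M⁻¹ : Kˣ) : K))) (fun a => ee (trf ω a)) =
      mean (OK K) (fun a => ee (Algebra.trace ℚ K (ω * ((M ^ 2)⁻¹ : Kˣ) * a ^ 2))) := by
  let σ : K ≃+ K :=
    { toFun := fun a => ((M⁻¹ : Kˣ) : K) * a
      invFun := fun a => (M : K) * a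
      left_inv := fun a => by simp
      right_inv := fun a => by simp
      map_add' := fun a b => mul_add _ a b }
  have h1 : (OK K).map (AddMonoidHom.mulLeft ((M⁻¹ : Kˣ) : K)) = (OK K).map σ.toAddMonoidHom := by
    congr 1
  rw [h1, mean_map σ (OK K) (fun a => ee (trf ω a))]
  congr 1
  funext a
  rw [trf_apply]
  congr 2
  change ω * (((M⁻¹ : Kˣ) : K) * a) ^ 2 = _
  rw [mul_pow, mul_assoc]
  simp

theorem OK_fg : (OK K).FG := by
  have h1 : Module.Finite ℤ (𝓞 K) := inferInstance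
  have h2 : AddGroup.FG (𝓞 K) := Module.Finite.iff_addGroup_fg.1 h1
  exact (AddGroup.fg_iff_addSubgroup_fg _).1
    (AddGroup.fg_range (algebraMap (𝓞 K) K).toAddMonoidHom)

end Pool.Agent.QD.N2
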