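import Mathlib

/-!
# QD-N2-GaussOne: the quadratic Gauss sum (Mathlib only)

With `Θ(ε) = ∑' n : ℤ, exp(-π (ε - i/(2k)) n^2)` we compute the limit of `√ε Θ(ε)` as `ε → 0+` in
two ways: by splitting `n` modulo `2k` and Poisson summation in every class, and by applying
Poisson summation twice.
-/

set_option autoImplicit false

namespace Pool.Agent.QD.N2

open Complex Filter Topology

private theorem summable_gauss {a : ℂ} (ha : 0 < a.re) :
    Summable fun n : ℤ => cexp (-Real.pi * a * (n : ℂ) ^ 2) := by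
  have h := summable_pow_mul_jacobiTheta₂_term_bound 0 ha 0
  refine Summable.of_norm_bounded h fun n => ?_
  rw [Complex.norm_exp]
  have e1 : (-(Real.pi : ℂ) * a * (n : ℂ) ^ 2) = ((-Real.pi * (n : ℝ) ^ 2 : ℝ) : ℂ) * a := by
    push_cast
    ring
  rw [e1, Complex.re_ofReal_mul, pow_zero, one_mul]
  apply le_of_eq
  congr 1
  ring

private theorem tsum_lim {l : Filter ℝ} (s : ℝ → ℂ) (b : ℂ)
    (hs : Tendsto (fun ε => (s ε).re) l atTop) :
    Tendsto (fun ε => ∑' m : ℤ, cexp (-Real.pi * s ε * (m : ℂ) ^ 2 + 2 * Real.pi * b * m)) l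
      (𝓝 1) := by
  have hnorm : ∀ ε (m : ℤ), ‖cexp (-Real.pi * s ε * (m : ℂ) ^ 2 + 2 * Real.pi * b * m)‖ =
      Real.exp (-Real.pi * (s ε).re * (m : ℝ) ^ 2 + 2 * Real.pi * b.re * m) := by
    intro ε m
    rw [Complex.norm_exp]
    congr 1
    have e1 : (-Real.pi * s ε * (m : ℂ) ^ 2 + 2 * Real.pi * b * m) =
        ((-Real.pi * (m : ℝ) ^ 2 : ℝ) : ℂ) * s ε + ((2 * Real.pi * (m : ℝ) : ℝ) : ℂ) * b := by
      push_cast
      ring
    rw [e1, Complex.add_re, Complex.re_ofReal_mul, Complex.re_ofReal_mul]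
    ring
  have hg : ∑' m : ℤ, (if m = 0 then (1 : ℂ) else 0) = 1 := tsum_ite_eq 0 _
  rw [← hg]
  have hsum : Summable fun m : ℤ => Real.exp (-Real.pi * (m : ℝ) ^ 2) := by
    have h := (summable_gauss (a := 1) (by simp)).norm
    refine h.congr fun m => ?_
    rw [Complex.norm_exp]
    congr 1
    have : (-(Real.pi : ℂ) * 1 * (m : ℂ) ^ 2) = ((-Real.pi * (m : ℝ) ^ 2 : ℝ) : ℂ) := by
      push_cast
      ring
    rw [this, Complex.ofReal_re]
  apply tendsto_tsum_of_dominated_convergence hsum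
  · intro m
    by_cases hm : m = 0
    · subst hm
      simp
      exact tendsto_const_nhds
    · rw [if_neg hm, tendsto_zero_iff_norm_tendsto_zero]
      simp_rw [hnorm]
      apply Real.tendsto_exp_atBot.comp
      apply tendsto_atBot_add_const_right
      have hm2 : (0 : ℝ) < (m : ℝ) ^ 2 := by
        have : (m : ℝ) ≠ 0 := by exact_mod_cast hm
        positivity
      have h1 : Tendsto (fun ε => (-Real.pi * (m : ℝ) ^ 2) * (s ε).re) l atBot :=
        hs.const_mul_atTop_of_neg (by nlinarith [Real.pi_pos])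
      refine h1.congr fun ε => ?_
      ring
  · filter_upwards [hs.eventually_ge_atTop (1 + 2 * |b.re|)] with ε hε m
    rw [hnorm]
    apply Real.exp_le_exp.mpr
    have hm : |(m : ℝ)| ≤ (m : ℝ) ^ 2 := by
      rcases eq_or_ne m 0 with h0 | h0
      · subst h0; simp
      · have h1 : (1 : ℝ) ≤ |(m : ℝ)| := by
          have : 1 ≤ |m| := Int.one_le_abs h0
          exact_mod_cast this
        rw [← sq_abs]
        nlinarith
    have h2 : b.re * m ≤ |b.re| * (m : ℝ) ^ 2 := by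
      calc b.re * m ≤ |b.re * m| := le_abs_self _
        _ = |b.re| * |(m : ℝ)| := abs_mul _ _
        _ ≤ |b.re| * (m : ℝ) ^ 2 := mul_le_mul_of_nonneg_left hm (abs_nonneg _)
    have h3 : (1 + 2 * |b.re|) * (m : ℝ) ^ 2 ≤ (s ε).re * (m : ℝ) ^ 2 :=
      mul_le_mul_of_nonneg_right hε (by positivity)
    have h4 : -(s ε).re * (m : ℝ) ^ 2 + 2 * b.re * m ≤ -(m : ℝ) ^ 2 := by nlinarith
    nlinarith [mul_le_mul_of_nonneg_left h4 Real.pi_pos.le]

private noncomputable def Th (k : ℕ) (ε : ℝ) : ℂ :=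
  ∑' n : ℤ, cexp (-Real.pi * ((ε : ℂ) - Complex.I / (2 * k)) * (n : ℂ) ^ 2)

private theorem re_a (k : ℕ) (ε : ℝ) : ((ε : ℂ) - Complex.I / (2 * k)).re = ε := by
  have : Complex.I / (2 * k) = ((1 / (2 * k) : ℝ) : ℂ) * Complex.I := by
    push_cast
    ring
  rw [this, Complex.sub_re, Complex.ofReal_re, Complex.re_ofReal_mul]
  simp

/-- splitting modulo `2k` -/
private theorem Th_split (k : ℕ) (hk : 0 < k) {ε : ℝ} (hε : 0 < ε) :
    Th k ε = ∑ c ∈ Finset.range (2 * k), cexp (Real.pi * Complex.I * (c : ℂ) ^ 2 / (2 * k)) *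
      ∑' m : ℤ, cexp (-Real.pi * ε * ((c : ℂ) + 2 * k * m) ^ 2) := by
  have : NeZero (2 * k) := ⟨by omega⟩
  have hkC : (k : ℂ) ≠ 0 := by exact_mod_cast hk.ne'
  set F : ℤ → ℂ := fun n => cexp (-Real.pi * ((ε : ℂ) - Complex.I / (2 * k)) * (n : ℂ) ^ 2)
    with hF
  have hs : Summable F := summable_gauss (by rw [re_a]; exact hε)
  set e : Fin (2 * k) × ℤ ≃ ℤ := (Equiv.prodComm _ _).trans (Int.divModEquiv (2 * k)).symm with he
  have hs' : Summable (F ∘ e) := e.summable_iff.mpr hs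
  have h1 : Th k ε = ∑' p : Fin (2 * k) × ℤ, (F ∘ e) p := (e.tsum_eq F).symm
  rw [h1, Summable.tsum_prod hs', tsum_fintype, Finset.sum_range]
  apply Finset.sum_congr rfl
  intro c _
  rw [← tsum_mul_left]
  apply tsum_congr
  intro m
  have h2 : e (c, m) = (c : ℕ) + m * (2 * k : ℕ) := by
    simp [he, Int.divModEquiv]
    ring
  rw [Function.comp_apply, h2, hF]
  show cexp (-Real.pi * ((ε : ℂ) - Complex.I / (2 * k)) *
    (((c : ℕ) + m * (2 * k : ℕ) : ℤ) : ℂ) ^ 2) = _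
  rw [← Complex.exp_add]
  push_cast
  have h3 : -(Real.pi : ℂ) * ((ε : ℂ) - Complex.I / (2 * k)) * ((c : ℂ) + m * (2 * k)) ^ 2 =
      (Real.pi * Complex.I * (c : ℂ) ^ 2 / (2 * k) +
        -Real.pi * ε * ((c : ℂ) + 2 * k * m) ^ 2) +
      ((c * m + k * m ^ 2 : ℤ) : ℂ) * (2 * Real.pi * Complex.I) := by
    push_cast
    field_simp
    ring
  rw [h3, Complex.exp_add _ (((c * m + k * m ^ 2 : ℤ) : ℂ) * (2 * Real.pi * Complex.I)),
    Complex.exp_int_mul_two_pi_mul_I, mul_one]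

/-- Poisson summation in a class -/
private theorem class_eq (k : ℕ) (hk : 0 < k) {ε : ℝ} (hε : 0 < ε) (c : ℕ) :
    (Real.sqrt ε : ℂ) * ∑' m : ℤ, cexp (-Real.pi * ε * ((c : ℂ) + 2 * k * m) ^ 2) =
      1 / (2 * k) * ∑' m : ℤ, cexp (-Real.pi * ((1 / (4 * k ^ 2 * ε) : ℝ) : ℂ) * (m : ℂ) ^ 2 +
        2 * Real.pi * (Complex.I * c / (2 * k)) * m) := by
  have hkR : (0 : ℝ) < k := by exact_mod_cast hk
  have hkC : (k : ℂ) ≠ 0 := by exact_mod_cast hk.ne'
  have hεC : (ε : ℂ) ≠ 0 := by exact_mod_cast hε.ne'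
  set a : ℝ := 4 * k ^ 2 * ε with ha
  have ha0 : 0 < a := by positivity
  have haC : (a : ℂ) ≠ 0 := by exact_mod_cast ha0.ne'
  have hP := Complex.tsum_exp_neg_quadratic (a := (a : ℂ)) (by rwa [Complex.ofReal_re])
    (-2 * k * c * ε)
  have e1 : ∀ m : ℤ, cexp (-Real.pi * ε * ((c : ℂ) + 2 * k * m) ^ 2) =
      cexp (-Real.pi * ε * (c : ℂ) ^ 2) *
        cexp (-Real.pi * a * (m : ℂ) ^ 2 + 2 * Real.pi * (-2 * k * c * ε) * m) := by
    intro m
    rw [← Complex.exp_add]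
    congr 1
    rw [ha]
    push_cast
    ring
  have e2 : ∀ m : ℤ, cexp (-Real.pi / a * ((m : ℂ) + Complex.I * (-2 * k * c * ε)) ^ 2) =
      cexp (Real.pi * ε * (c : ℂ) ^ 2) *
        cexp (-Real.pi * ((1 / a : ℝ) : ℂ) * (m : ℂ) ^ 2 +
          2 * Real.pi * (Complex.I * c / (2 * k)) * m) := by
    intro m
    rw [← Complex.exp_add]
    congr 1
    rw [ha]
    push_cast
    field_simp
    linear_combination (-4 * (k : ℂ) ^ 2 * c ^ 2 * ε ^ 2) * Complex.I_sq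
  simp_rw [e1, tsum_mul_left]
  rw [hP]
  simp_rw [e2, tsum_mul_left]
  have e3 : (a : ℂ) ^ (1 / 2 : ℂ) = 2 * k * (Real.sqrt ε : ℂ) := by
    have h1 : (a : ℂ) ^ (1 / 2 : ℂ) = ((a ^ (1 / 2 : ℝ) : ℝ) : ℂ) := by
      rw [Complex.ofReal_cpow ha0.le]
      push_cast
      rfl
    rw [h1, ← Real.sqrt_eq_rpow, ha]
    rw [Real.sqrt_mul (by positivity), show (4 * (k : ℝ) ^ 2) = (2 * k) ^ 2 by ring,
      Real.sqrt_sq (by positivity)]
    push_cast
    ring
  have hsq : (Real.sqrt ε : ℂ) ≠ 0 := by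
    exact_mod_cast (Real.sqrt_pos.mpr hε).ne'
  have e4 : cexp (-Real.pi * ε * (c : ℂ) ^ 2) * cexp (Real.pi * ε * (c : ℂ) ^ 2) = 1 := by
    rw [← Complex.exp_add]
    simp
  rw [e3]
  calc _ = (cexp (-Real.pi * ε * (c : ℂ) ^ 2) * cexp (Real.pi * ε * (c : ℂ) ^ 2)) *
      ((Real.sqrt ε : ℂ) * (1 / (2 * k * (Real.sqrt ε : ℂ)))) *
      ∑' m : ℤ, cexp (-Real.pi * ((1 / a : ℝ) : ℂ) * (m : ℂ) ^ 2 +
          2 * Real.pi * (Complex.I * c / (2 * k)) * m) := by ring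
    _ = _ := by
      rw [e4]
      congr 1
      field_simp

private theorem lim_re (k : ℕ) (hk : 0 < k) :
    Tendsto (fun ε : ℝ => 1 / (4 * (k : ℝ) ^ 2 * ε)) (𝓝[>] 0) atTop := by
  have hkR : (0 : ℝ) < k := by exact_mod_cast hk
  have h1 : Tendsto (fun ε : ℝ => (1 / (4 * (k : ℝ) ^ 2)) * ε⁻¹) (𝓝[>] 0) atTop :=
    tendsto_inv_nhdsGT_zero.const_mul_atTop (by positivity)
  refine h1.congr fun ε => ?_
  ring

private theorem limA (k : ℕ) (hk : 0 < k) :
    Tendsto (fun ε : ℝ => (Real.sqrt ε : ℂ) * Th k ε) (𝓝[>] 0)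
      (𝓝 (1 / (2 * k) * ∑ c ∈ Finset.range (2 * k),
        cexp (Real.pi * Complex.I * (c : ℂ) ^ 2 / (2 * k)))) := by
  have h1 : Tendsto (fun ε : ℝ => ∑ c ∈ Finset.range (2 * k),
      cexp (Real.pi * Complex.I * (c : ℂ) ^ 2 / (2 * k)) * (1 / (2 * k) *
        ∑' m : ℤ, cexp (-Real.pi * ((1 / (4 * k ^ 2 * ε) : ℝ) : ℂ) * (m : ℂ) ^ 2 +
        2 * Real.pi * (Complex.I * c / (2 * k)) * m))) (𝓝[>] 0)
      (𝓝 (∑ c ∈ Finset.range (2 * k),
        cexp (Real.pi * Complex.I * (c : ℂ) ^ 2 / (2 * k)) * (1 / (2 * k) * 1))) := by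
    apply tendsto_finsetSum
    intro c _
    apply Tendsto.const_mul
    apply Tendsto.const_mul
    exact tsum_lim (fun ε => ((1 / (4 * k ^ 2 * ε) : ℝ) : ℂ)) _ (by
      simp only [Complex.ofReal_re]
      exact lim_re k hk)
  have h2 : ∑ c ∈ Finset.range (2 * k),
        cexp (Real.pi * Complex.I * (c : ℂ) ^ 2 / (2 * k)) * (1 / (2 * k) * 1) =
      1 / (2 * k) * ∑ c ∈ Finset.range (2 * k),
        cexp (Real.pi * Complex.I * (c : ℂ) ^ 2 / (2 * k)) := by
    rw [Finset.mul_sum]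
    apply Finset.sum_congr rfl
    intro c _
    ring
  rw [← h2]
  refine h1.congr' ?_
  filter_upwards [self_mem_nhdsWithin] with ε hε
  rw [Th_split k hk hε, Finset.mul_sum]
  apply Finset.sum_congr rfl
  intro c _
  rw [← class_eq k hk hε c]
  ring

private theorem Th_two (k : ℕ) (hk : 0 < k) {ε : ℝ} (hε : 0 < ε) :
    (Real.sqrt ε : ℂ) * Th k ε = 1 / ((ε : ℂ) - Complex.I / (2 * k)) ^ (1 / 2 : ℂ) *
      (1 / ((-2 * k * Complex.I) / ((ε : ℂ) - Complex.I / (2 * k))) ^ (1 / 2 : ℂ)) *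
      ∑' m : ℤ, cexp (-Real.pi * (Complex.I / (2 * k) + ((1 / (4 * k ^ 2 * ε) : ℝ) : ℂ)) *
        (m : ℂ) ^ 2 + 2 * Real.pi * 0 * m) := by
  have hkR : (0 : ℝ) < k := by exact_mod_cast hk
  have hkC : (k : ℂ) ≠ 0 := by exact_mod_cast hk.ne'
  have hεC : (ε : ℂ) ≠ 0 := by exact_mod_cast hε.ne'
  set a : ℂ := (ε : ℂ) - Complex.I / (2 * k) with ha
  have hre : a.re = ε := re_a k ε
  have ha0 : a ≠ 0 := by
    intro h
    rw [h] at hre
    simp at hre
    exact hε.ne hre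
  have hP := Complex.tsum_exp_neg_quadratic (a := a) (by rw [hre]; exact hε) 0
  set z : ℂ := (-2 * k * Complex.I) / a with hz
  have hz0 : z ≠ 0 := by
    rw [hz]
    apply div_ne_zero _ ha0
    simp [hkC]
  -- `b' = ε z = 1/a - 2 k i`
  have hb : (ε : ℂ) * z = 1 / a - 2 * k * Complex.I := by
    have h1 : (2 * k * Complex.I) * a = 2 * k * Complex.I * ε + 1 := by
      rw [ha, mul_sub]
      have h2 : (2 * k * Complex.I) * (Complex.I / (2 * k)) = -1 := by
        rw [← Complex.I_mul_I]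
        field_simp
      rw [h2]
      ring
    have h3 : 1 / a - 2 * k * Complex.I = (1 - (2 * k * Complex.I) * a) / a := by
      rw [sub_div, mul_div_assoc, div_self ha0, mul_one]
    rw [h3, h1, hz]
    ring
  have hbinv : 1 / ((ε : ℂ) * z) = Complex.I / (2 * k) + ((1 / (4 * k ^ 2 * ε) : ℝ) : ℂ) := by
    have h1 : ((ε : ℂ) * z) * (Complex.I / (2 * k) + ((1 / (4 * k ^ 2 * ε) : ℝ) : ℂ)) = 1 := by
      rw [hz]
      have h2 : a = (Complex.I / (2 * k) + ((1 / (4 * k ^ 2 * ε) : ℝ) : ℂ)) *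
          ((ε : ℂ) * (-2 * k * Complex.I)) := by
        rw [ha]
        push_cast
        field_simp
        linear_combination (8 * (k : ℂ) * ε) * Complex.I_sq
      have h3 : (ε : ℂ) * ((-2 * k * Complex.I) / a) *
          (Complex.I / (2 * k) + ((1 / (4 * k ^ 2 * ε) : ℝ) : ℂ)) =
          ((Complex.I / (2 * k) + ((1 / (4 * k ^ 2 * ε) : ℝ) : ℂ)) *
          ((ε : ℂ) * (-2 * k * Complex.I))) / a := by ring
      rw [h3, ← h2, div_self ha0]
    exact (eq_div_of_mul_eq (mul_ne_zero hεC hz0) (by rw [mul_comm]; exact h1)).symm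
  have hbre : 0 < ((ε : ℂ) * z).re := by
    have h1 : 0 < (1 / ((ε : ℂ) * z)).re := by
      rw [hbinv]
      have : (Complex.I / (2 * k) + ((1 / (4 * k ^ 2 * ε) : ℝ) : ℂ)).re = 1 / (4 * k ^ 2 * ε) := by
        have e : Complex.I / (2 * k) = ((1 / (2 * k) : ℝ) : ℂ) * Complex.I := by
          push_cast
          ring
        rw [e, Complex.add_re, Complex.ofReal_re, Complex.re_ofReal_mul]
        simp
      rw [this]
      positivity
    rw [one_div, Complex.inv_re] at h1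
    have hn : 0 < Complex.normSq ((ε : ℂ) * z) :=
      Complex.normSq_pos.mpr (mul_ne_zero hεC hz0)
    by_contra hc
    push Not at hc
    have := div_nonpos_of_nonpos_of_nonneg hc hn.le
    linarith
  have hP2 := Complex.tsum_exp_neg_quadratic (a := (ε : ℂ) * z) hbre 0
  have e1 : ∀ n : ℤ, cexp (-Real.pi / a * ((n : ℂ) + Complex.I * 0) ^ 2) =
      cexp (-Real.pi * ((ε : ℂ) * z) * (n : ℂ) ^ 2 + 2 * Real.pi * 0 * n) := by
    intro n
    rw [hb]
    have h1 : -(Real.pi : ℂ) / a * ((n : ℂ) + Complex.I * 0) ^ 2 =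
        (-Real.pi * (1 / a - 2 * k * Complex.I) * (n : ℂ) ^ 2 + 2 * Real.pi * 0 * n) +
        ((-(k * n ^ 2) : ℤ) : ℂ) * (2 * Real.pi * Complex.I) := by
      push_cast
      ring
    rw [h1, Complex.exp_add _ (((-(k * n ^ 2) : ℤ) : ℂ) * (2 * Real.pi * Complex.I)),
      Complex.exp_int_mul_two_pi_mul_I, mul_one]
  have e2 : ∀ n : ℤ, cexp (-Real.pi / ((ε : ℂ) * z) * ((n : ℂ) + Complex.I * 0) ^ 2) =
      cexp (-Real.pi * (Complex.I / (2 * k) + ((1 / (4 * k ^ 2 * ε) : ℝ) : ℂ)) *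
        (n : ℂ) ^ 2 + 2 * Real.pi * 0 * n) := by
    intro n
    rw [← hbinv]
    congr 1
    ring
  have hTh : Th k ε = ∑' n : ℤ, cexp (-Real.pi * a * (n : ℂ) ^ 2 + 2 * Real.pi * 0 * n) := by
    unfold Th
    apply tsum_congr
    intro n
    rw [← ha]
    congr 1
    ring
  rw [hTh, hP]
  simp_rw [e1]
  rw [hP2]
  simp_rw [e2]
  have e3 : ((ε : ℂ) * z) ^ (1 / 2 : ℂ) = (Real.sqrt ε : ℂ) * z ^ (1 / 2 : ℂ) := by
    rw [Complex.cpow_def_of_ne_zero (mul_ne_zero hεC hz0), Complex.cpow_def_of_ne_zero hz0,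
      Complex.log_ofReal_mul hε hz0, add_mul, Complex.exp_add]
    congr 1
    rw [Real.sqrt_eq_rpow, Real.rpow_def_of_pos hε]
    push_cast
    rfl
  rw [e3]
  have hsq : (Real.sqrt ε : ℂ) ≠ 0 := by
    exact_mod_cast (Real.sqrt_pos.mpr hε).ne'
  have hz1 : z ^ (1 / 2 : ℂ) ≠ 0 := by
    rw [Complex.cpow_def_of_ne_zero hz0]
    exact Complex.exp_ne_zero _
  have ha1 : a ^ (1 / 2 : ℂ) ≠ 0 := by
    rw [Complex.cpow_def_of_ne_zero ha0]
    exact Complex.exp_ne_zero _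
  field_simp

private theorem limB (k : ℕ) (hk : 0 < k) :
    Tendsto (fun ε : ℝ => (Real.sqrt ε : ℂ) * Th k ε) (𝓝[>] 0)
      (𝓝 (1 / (-Complex.I / (2 * k)) ^ (1 / 2 : ℂ) *
        (1 / ((4 * (k : ℝ) ^ 2 : ℝ) : ℂ) ^ (1 / 2 : ℂ)) * 1)) := by
  have hkR : (0 : ℝ) < k := by exact_mod_cast hk
  have hkC : (k : ℂ) ≠ 0 := by exact_mod_cast hk.ne'
  have hlim : Tendsto (fun ε : ℝ => (ε : ℂ) - Complex.I / (2 * k)) (𝓝[>] 0)
      (𝓝 (-Complex.I / (2 * k))) := by
    have h1 : Tendsto (fun ε : ℝ => (ε : ℂ) - Complex.I / (2 * k)) (𝓝 0)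
        (𝓝 (((0 : ℝ) : ℂ) - Complex.I / (2 * k))) :=
      (Complex.continuous_ofReal.tendsto 0).sub_const _
    rw [Complex.ofReal_zero, zero_sub, ← neg_div] at h1
    exact h1.mono_left nhdsWithin_le_nhds
  have ha0 : -Complex.I / (2 * k) ≠ 0 := by
    apply div_ne_zero
    · simp
    · simp [hkC]
  have him : (-Complex.I / (2 * k)).im ≠ 0 := by
    have : -Complex.I / (2 * k) = ((-(1 / (2 * k)) : ℝ) : ℂ) * Complex.I := by
      push_cast
      ring
    rw [this, Complex.im_ofReal_mul]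
    simp only [Complex.I_im, mul_one]
    have : (0 : ℝ) < 1 / (2 * k) := by positivity
    linarith
  have hz : (-2 * k * Complex.I) / (-Complex.I / (2 * k)) = ((4 * (k : ℝ) ^ 2 : ℝ) : ℂ) := by
    push_cast
    have := Complex.I_ne_zero
    field_simp
    ring
  refine Tendsto.congr' (f₁ := fun ε : ℝ =>
    1 / ((ε : ℂ) - Complex.I / (2 * k)) ^ (1 / 2 : ℂ) *
      (1 / ((-2 * k * Complex.I) / ((ε : ℂ) - Complex.I / (2 * k))) ^ (1 / 2 : ℂ)) *
      ∑' m : ℤ, cexp (-Real.pi * (Complex.I / (2 * k) + ((1 / (4 * k ^ 2 * ε) : ℝ) : ℂ)) *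
        (m : ℂ) ^ 2 + 2 * Real.pi * 0 * m)) ?_ ?_
  · filter_upwards [self_mem_nhdsWithin] with ε hε
    exact (Th_two k hk hε).symm
  · apply Tendsto.mul
    · apply Tendsto.mul
      · apply Tendsto.div tendsto_const_nhds
        · exact hlim.cpow tendsto_const_nhds (Complex.mem_slitPlane_iff.mpr (Or.inr him))
        · rw [Complex.cpow_def_of_ne_zero ha0]
          exact Complex.exp_ne_zero _
      · apply Tendsto.div tendsto_const_nhds
        · rw [← hz]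
          have h1 := Tendsto.div (tendsto_const_nhds (x := (-2 * k * Complex.I : ℂ))) hlim ha0
          apply h1.cpow tendsto_const_nhds
          rw [hz, Complex.mem_slitPlane_iff]
          left
          rw [Complex.ofReal_re]
          positivity
        · rw [Complex.cpow_def_of_ne_zero]
          · exact Complex.exp_ne_zero _
          · have : (4 * (k : ℝ) ^ 2 : ℝ) ≠ 0 := by positivity
            exact_mod_cast this
    · apply tsum_lim (fun ε => (Complex.I / (2 * k) + ((1 / (4 * k ^ 2 * ε) : ℝ) : ℂ))) 0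
      have e : ∀ ε : ℝ, (Complex.I / (2 * k) + ((1 / (4 * k ^ 2 * ε) : ℝ) : ℂ)).re =
          1 / (4 * (k : ℝ) ^ 2 * ε) := by
        intro ε
        have e : Complex.I / (2 * k) = ((1 / (2 * k) : ℝ) : ℂ) * Complex.I := by
          push_cast
          ring
        rw [e, Complex.add_re, Complex.ofReal_re, Complex.re_ofReal_mul]
        simp
      simp_rw [e]
      exact lim_re k hk

theorem gauss_one (k : ℕ) (hk : 0 < k) :
    ∑ n ∈ Finset.range (2 * k), Complex.exp (Real.pi * Complex.I * (n : ℂ) ^ 2 / (2 * k)) =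
      (Real.sqrt (2 * k) : ℂ) * Complex.exp (Real.pi * Complex.I / 4) := by
  have hkR : (0 : ℝ) < k := by exact_mod_cast hk
  have hkC : (k : ℂ) ≠ 0 := by exact_mod_cast hk.ne'
  have h := tendsto_nhds_unique (limA k hk) (limB k hk)
  have e1 : ((4 * (k : ℝ) ^ 2 : ℝ) : ℂ) ^ (1 / 2 : ℂ) = 2 * k := by
    have h0 : (0 : ℝ) ≤ 4 * (k : ℝ) ^ 2 := by positivity
    have h1 : ((4 * (k : ℝ) ^ 2 : ℝ) : ℂ) ^ (1 / 2 : ℂ) =
        (((4 * (k : ℝ) ^ 2) ^ (1 / 2 : ℝ) : ℝ) : ℂ) := by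
      rw [Complex.ofReal_cpow h0]
      push_cast
      rfl
    rw [h1, ← Real.sqrt_eq_rpow, show (4 * (k : ℝ) ^ 2) = (2 * k) ^ 2 by ring,
      Real.sqrt_sq (by positivity)]
    push_cast
    ring
  have e2 : (-Complex.I / (2 * k)) ^ (1 / 2 : ℂ) =
      1 / ((Real.sqrt (2 * k) : ℂ) * Complex.exp (Real.pi * Complex.I / 4)) := by
    have hr : (0 : ℝ) < 1 / (2 * k) := by positivity
    have h1 : -Complex.I / (2 * k) = ((1 / (2 * k) : ℝ) : ℂ) * (-Complex.I) := by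
      push_cast
      ring
    have hI : -Complex.I ≠ 0 := by simp
    have hne : ((1 / (2 * k) : ℝ) : ℂ) * (-Complex.I) ≠ 0 :=
      mul_ne_zero (by exact_mod_cast hr.ne') hI
    rw [h1, Complex.cpow_def_of_ne_zero hne, Complex.log_ofReal_mul hr hI, Complex.log_neg_I,
      add_mul, Complex.exp_add, one_div ((Real.sqrt (2 * k) : ℂ) * _), mul_inv]
    congr 1
    · rw [Real.sqrt_eq_rpow, Real.rpow_def_of_pos (by positivity : (0 : ℝ) < 2 * k)]
      rw [one_div (2 * (k : ℝ)), Real.log_inv]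
      push_cast
      rw [← Complex.exp_neg]
      congr 1
      ring
    · rw [← Complex.exp_neg]
      congr 1
      ring
  rw [e1, e2] at h
  have hne : (2 * k : ℂ) ≠ 0 := by simp [hkC]
  have h2 : ∑ c ∈ Finset.range (2 * k), cexp (Real.pi * Complex.I * (c : ℂ) ^ 2 / (2 * k)) =
      (2 * k) * (1 / (2 * k) * ∑ c ∈ Finset.range (2 * k),
        cexp (Real.pi * Complex.I * (c : ℂ) ^ 2 / (2 * k))) := by
    field_simp
  rw [h2, h]
  rw [one_div_one_div]
  field_simp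

end Pool.Agent.QD.N2
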