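import Pool.Agent.QD.N2.Stab
import Pool.Agent.QD.N2.GaussOne

/-!
# QD-N2-Gt: Milgram's formula for rational quadratic forms (interfaces)
-/

set_option autoImplicit false

namespace Pool.Agent.QD.N2

/-- integer vectors -/
def ZZ (ι : Type) : AddSubgroup (ι → ℚ) where
  carrier := {x | ∀ i, ∃ n : ℤ, x i = n}
  add_mem' := by
    intro a b ha hb i
    obtain ⟨m, hm⟩ := ha i
    obtain ⟨n, hn⟩ := hb i
    exact ⟨m + n, by simp [hm, hn]⟩
  zero_mem' := fun i => ⟨0, by simp⟩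
  neg_mem' := by
    intro a ha i
    obtain ⟨m, hm⟩ := ha i
    exact ⟨-m, by simp [hm]⟩

/-- the standard form `∑ s_i x_i² / (4 k_i)` -/
def qs {ι : Type} [Fintype ι] (k : ι → ℕ) (s : ι → ℤ) (x : ι → ℚ) : ℚ :=
  ∑ i, (s i : ℚ) * x i ^ 2 / (4 * (k i : ℚ))

private theorem gauss_s (k : ℕ) (hk : 0 < k) (s : ℤ) (hs : s = 1 ∨ s = -1) :
    ∑ n ∈ Finset.range (2 * k), ee ((s : ℚ) * (n : ℚ) ^ 2 / (4 * (k : ℚ))) =
      (Real.sqrt (2 * k) : ℂ) * (if s = 1 then zt else (starRingEnd ℂ) zt) := by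
  have h1 : ∑ n ∈ Finset.range (2 * k), ee ((n : ℚ) ^ 2 / (4 * (k : ℚ))) =
      (Real.sqrt (2 * k) : ℂ) * zt := by
    unfold zt
    rw [← gauss_one k hk]
    refine Finset.sum_congr rfl fun n _ => ?_
    unfold ee
    congr 1
    push_cast
    have hk' : (k : ℂ) ≠ 0 := by exact_mod_cast hk.ne'
    field_simp
    ring
  rcases hs with rfl | rfl
  · rw [if_pos rfl, ← h1]
    refine Finset.sum_congr rfl fun n _ => ?_
    rw [Int.cast_one, one_mul]
  · rw [if_neg (by norm_num)]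
    have h2 : ∀ n : ℕ, ee (((-1 : ℤ) : ℚ) * (n : ℚ) ^ 2 / (4 * (k : ℚ))) =
        (starRingEnd ℂ) (ee ((n : ℚ) ^ 2 / (4 * (k : ℚ)))) := by
      intro n
      rw [← ee_neg]
      congr 1
      push_cast
      ring
    rw [Finset.sum_congr rfl (fun n _ => h2 n), ← map_sum, h1, map_mul, Complex.conj_ofReal]

/-- the period group -/
private def PH {ι : Type} (k : ι → ℕ) : AddSubgroup (ι → ℚ) where
  carrier := {x | ∀ i, ∃ n : ℤ, x i = 2 * (k i : ℚ) * n}
  add_mem' := by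
    intro a b ha hb i
    obtain ⟨m, hm⟩ := ha i
    obtain ⟨n, hn⟩ := hb i
    exact ⟨m + n, by rw [Pi.add_apply, hm, hn]; push_cast; ring⟩
  zero_mem' := fun i => ⟨0, by simp⟩
  neg_mem' := by
    intro a ha i
    obtain ⟨m, hm⟩ := ha i
    exact ⟨-m, by rw [Pi.neg_apply, hm]; push_cast; ring⟩

private theorem reps_fin {V : Type*} [AddCommGroup V] {ι : Type*} [Finite ι] {L H : AddSubgroup V}
    {g : ι → V} (h : Reps L H g) : H.relIndex L ≠ 0 := by
  have hs : Function.Surjective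
      (fun i : ι => (QuotientAddGroup.mk (⟨g i, h.mem i⟩ : L) : L ⧸ H.addSubgroupOf L)) := by
    intro q
    obtain ⟨x, rfl⟩ := QuotientAddGroup.mk_surjective q
    obtain ⟨i, hi⟩ := h.ex x.1 x.2
    refine ⟨i, ?_⟩
    rw [QuotientAddGroup.eq]
    change -(g i) + x.1 ∈ H
    rw [neg_add_eq_sub]
    exact hi
  haveI : Finite (L ⧸ H.addSubgroupOf L) := Finite.of_surjective _ hs
  exact AddSubgroup.index_ne_zero_of_finite

private theorem reps_int {ι : Type} [Fintype ι] (k : ι → ℕ) (hk : ∀ i, 0 < k i) :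
    Reps (ZZ ι) (PH k) (fun (c : ∀ i, Fin (2 * k i)) (i : ι) => ((c i : ℕ) : ℚ)) := by
  refine ⟨?_, ?_, ?_⟩
  · intro c i
    exact ⟨((c i : ℕ) : ℤ), by simp⟩
  · intro x hx
    choose n hn using hx
    have hpos : ∀ i, (0 : ℤ) < 2 * (k i : ℤ) := fun i => by
      have := hk i
      omega
    have hlt : ∀ i, (n i % (2 * (k i : ℤ))).toNat < 2 * k i := by
      intro i
      have h1 := Int.emod_nonneg (n i) (hpos i).ne'
      have h2 := Int.emod_lt_of_pos (n i) (hpos i)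
      omega
    refine ⟨fun i => ⟨(n i % (2 * (k i : ℤ))).toNat, hlt i⟩, fun i => ⟨n i / (2 * (k i : ℤ)), ?_⟩⟩
    have h1 := Int.emod_nonneg (n i) (hpos i).ne'
    have h3 : (((n i % (2 * (k i : ℤ))).toNat : ℕ) : ℚ) = ((n i % (2 * (k i : ℤ)) : ℤ) : ℚ) := by
      rw [← Int.cast_natCast, Int.toNat_of_nonneg h1]
    have h4 := Int.emod_add_mul_ediv (n i) (2 * (k i : ℤ))
    have h5 : ((n i % (2 * (k i : ℤ)) : ℤ) : ℚ) + (2 * (k i : ℚ)) * ((n i / (2 * (k i : ℤ)) : ℤ) : ℚ)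
        = (n i : ℚ) := by
      exact_mod_cast h4
    change x i - (((n i % (2 * (k i : ℤ))).toNat : ℕ) : ℚ) = _
    rw [h3, hn i, ← h5]
    ring
  · intro c c' h
    funext i
    obtain ⟨m, hm⟩ := h i
    have h1 : (((c i : ℕ) : ℤ) : ℚ) - (((c' i : ℕ) : ℤ) : ℚ) = 2 * ((k i : ℤ) : ℚ) * (m : ℚ) := by
      simpa using hm
    have h2 : ((c i : ℕ) : ℤ) - ((c' i : ℕ) : ℤ) = 2 * (k i : ℤ) * m := by exact_mod_cast h1
    have h3 := (c i).2
    have h4 := (c' i).2
    have h5 : m = 0 := by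
      by_contra hm0
      rcases lt_or_gt_of_ne hm0 with hneg | hpos
      · have : 2 * (k i : ℤ) * m ≤ 2 * (k i : ℤ) * (-1) :=
          mul_le_mul_of_nonneg_left (by omega) (by positivity)
        omega
      · have : 2 * (k i : ℤ) * 1 ≤ 2 * (k i : ℤ) * m :=
          mul_le_mul_of_nonneg_left (by omega) (by positivity)
        omega
    rw [h5, mul_zero] at h2
    apply Fin.ext
    omega

private theorem per_int {ι : Type} [Fintype ι] (k : ι → ℕ) (hk : ∀ i, 0 < k i) (s : ι → ℤ) :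
    Per (ZZ ι) (PH k) (fun x => ee (qs k s x)) := by
  refine ⟨?_, reps_fin (reps_int k hk), ?_⟩
  · intro x hx i
    obtain ⟨m, hm⟩ := hx i
    exact ⟨2 * (k i : ℤ) * m, by rw [hm]; push_cast; ring⟩
  · intro x hx h hh
    choose n hn using hx
    choose m hm using hh
    have h1 : qs k s (x + h) = qs k s x + ((∑ i, s i * (n i * m i + (k i : ℤ) * m i ^ 2) : ℤ) : ℚ) := by
      unfold qs
      push_cast
      rw [← Finset.sum_add_distrib]
      refine Finset.sum_congr rfl fun i _ => ?_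
      rw [Pi.add_apply, hm i, hn i]
      have hk' : (k i : ℚ) ≠ 0 := by exact_mod_cast (hk i).ne'
      field_simp
      ring
    change ee (qs k s (x + h)) = ee (qs k s x)
    rw [h1, ee_add, ee_int, mul_one]

/-- QD-N2-MeanInt.  PLAN.  Period group `H = {x | ∀ i, ∃ m : ℤ, x i = 2 k_i m}`:
`(x + 2km)²/(4k) - x²/(4k) = x m + k m² ∈ ℤ` for integer `x`, and `ee` is trivial on integers.
Representatives: `∀ i, Fin (2 k_i)` (a `Fintype`), `r c i = (c i : ℚ)`.  Then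
`mean = (∑_c ∏_i ee(s_i c_i²/(4k_i))) / card = ∏_i ((∑_{n < 2k_i} ee(s_i n²/(4k_i))) / (2k_i))`
(`Finset.prod_univ_sum` / `Fintype.piFinset`, `ee (a+b) = ee a * ee b`), and the one dimensional sums
are `gauss_one` for `s_i = 1` and its complex conjugate for `s_i = -1`; the positive factor is
`∏ √(2k_i)/(2k_i)`. -/
theorem mean_int {ι : Type} [Fintype ι] (k : ι → ℕ) (hk : ∀ i, 0 < k i) (s : ι → ℤ)
    (hs : ∀ i, s i = 1 ∨ s i = -1) :
    SP (mean (ZZ ι) (fun x => ee (qs k s x)))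
      (∏ i, if s i = 1 then zt else (starRingEnd ℂ) zt) := by
  classical
  have h1 : mean (ZZ ι) (fun x => ee (qs k s x)) = ∏ i,
      ((∑ n ∈ Finset.range (2 * k i), ee ((s i : ℚ) * (n : ℚ) ^ 2 / (4 * (k i : ℚ)))) /
        ((2 * k i : ℕ) : ℂ)) := by
    rw [mean_eq (per_int k hk s) (reps_int k hk), Finset.prod_div_distrib, Fintype.card_pi,
      Nat.cast_prod]
    congr 1
    · have h2 : ∀ i, ∑ n ∈ Finset.range (2 * k i), ee ((s i : ℚ) * (n : ℚ) ^ 2 / (4 * (k i : ℚ))) =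
          ∑ n : Fin (2 * k i), ee ((s i : ℚ) * ((n : ℕ) : ℚ) ^ 2 / (4 * (k i : ℚ))) := fun i =>
        (Fin.sum_univ_eq_sum_range
          (fun n => ee ((s i : ℚ) * (n : ℚ) ^ 2 / (4 * (k i : ℚ)))) (2 * k i)).symm
      rw [Finset.prod_congr rfl (fun i _ => h2 i), Finset.prod_univ_sum, Fintype.piFinset_univ]
      refine Finset.sum_congr rfl fun c _ => ?_
      unfold qs
      rw [ee_sum]
    · refine Finset.prod_congr rfl fun i _ => ?_
      rw [Fintype.card_fin]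
  rw [h1]
  refine SP.prod _ fun i _ => ?_
  rw [gauss_s (k i) (hk i) (s i) (hs i)]
  have hki : (0 : ℝ) < 2 * (k i : ℝ) := by
    have := hk i
    positivity
  refine ⟨Real.sqrt (2 * k i) / (2 * k i), div_pos (Real.sqrt_pos.mpr hki) hki, ?_⟩
  push_cast
  ring

end Pool.Agent.QD.N2
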