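import Pool.Agent.QD.N2.Gt

/-!
# QD-N2-GtDiag: stabilization for the standard form

PLAN.  Apply `mean_stab` with `L = ZZ ι`, `φ x = ee (qs k s x)`,
`β x y = ee (∑ i, s_i * 2 * x_i * y_i / (4 k_i))`, `I = {x | ∀ i, ∃ m : ℤ, x i = 2 k_i m}`
(`I ≤ ZZ ι ≤ L'`).  `QC L' φ β`: `ee 0 = 1`, `ee ≠ 0`, `ee (a + b) = ee a * ee b`.  `φ = 1` on `I`:
`(2km)²/(4k) = k m²`.  `hL`: for `i = (2 k_i m_i)`: `β x i = ee (∑ s_i x_i m_i)`; if all `x_i` are integers
this is `1`; conversely take `m = Pi.single i 1`: `ee (s_i x_i) = 1` implies `s_i x_i ∈ ℤ`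
(`Complex.exp_eq_one_iff`), so `x_i ∈ ℤ`.  Then combine with `mean_int` (`SP` is an equivalence relation).
-/

set_option autoImplicit false

namespace Pool.Agent.QD.N2

theorem gt_diag {ι : Type} [Fintype ι] (k : ι → ℕ) (hk : ∀ i, 0 < k i) (s : ι → ℤ)
    (hs : ∀ i, s i = 1 ∨ s i = -1) (L' H : AddSubgroup (ι → ℚ)) (hL : ZZ ι ≤ L')
    (hp : Per L' H (fun x => ee (qs k s x))) :
    SP (mean L' (fun x => ee (qs k s x)))
      (∏ i, if s i = 1 then zt else (starRingEnd ℂ) zt) := by
  classical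
  have hk0 : ∀ i, (k i : ℚ) ≠ 0 := fun i => Nat.cast_ne_zero.2 (hk i).ne'
  let β : (ι → ℚ) → (ι → ℚ) → ℂ := fun x y => ee (∑ i, (s i : ℚ) * 2 * x i * y i / (4 * (k i : ℚ)))
  let I : AddSubgroup (ι → ℚ) :=
    { carrier := {x | ∀ i, ∃ m : ℤ, x i = 2 * (k i : ℚ) * m}
      add_mem' := by
        intro a b ha hb i
        obtain ⟨m, hm⟩ := ha i
        obtain ⟨n, hn⟩ := hb i
        exact ⟨m + n, by rw [Pi.add_apply, hm, hn]; push_cast; ring⟩
      zero_mem' := fun i => ⟨0, by simp⟩
      neg_mem' := by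
        intro a ha i
        obtain ⟨m, hm⟩ := ha i
        exact ⟨-m, by rw [Pi.neg_apply, hm]; push_cast; ring⟩ }
  have hmemI : ∀ x, x ∈ I ↔ ∀ i, ∃ m : ℤ, x i = 2 * (k i : ℚ) * m := fun x => Iff.rfl
  have hIZ : I ≤ ZZ ι := by
    intro x hx i
    obtain ⟨m, hm⟩ := (hmemI x).1 hx i
    exact ⟨2 * k i * m, by rw [hm]; push_cast; ring⟩
  have hq : QC L' (fun x => ee (qs k s x)) β := by
    refine ⟨?_, fun x _ => ee_ne_zero _, ?_, ?_, ?_⟩
    · have : qs k s 0 = 0 := by
        unfold qs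
        refine Finset.sum_eq_zero fun i _ => ?_
        rw [Pi.zero_apply]
        ring
      change ee (qs k s 0) = 1
      rw [this, ee_zero]
    · intro x _ y _
      change ee (qs k s (x + y)) = ee (qs k s x) * ee (qs k s y) * ee _
      rw [← ee_add, ← ee_add]
      congr 1
      unfold qs
      rw [← Finset.sum_add_distrib, ← Finset.sum_add_distrib]
      refine Finset.sum_congr rfl fun i _ => ?_
      rw [Pi.add_apply]
      ring
    · intro x _ y _ z _
      change ee _ = ee _ * ee _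
      rw [← ee_add]
      congr 1
      rw [← Finset.sum_add_distrib]
      refine Finset.sum_congr rfl fun i _ => ?_
      rw [Pi.add_apply]
      ring
    · intro x _ y _
      change ee _ = ee _
      congr 1
      refine Finset.sum_congr rfl fun i _ => ?_
      ring
  have hI1 : ∀ i ∈ I, ee (qs k s i) = 1 := by
    intro x hx
    choose m hm using (hmemI x).1 hx
    rw [ee_eq_one_iff]
    refine ⟨∑ i, s i * k i * m i ^ 2, ?_⟩
    unfold qs
    push_cast
    refine Finset.sum_congr rfl fun i _ => ?_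
    rw [hm i]
    have := hk0 i
    field_simp
    ring
  have hL2 : ∀ x, x ∈ ZZ ι ↔ x ∈ L' ∧ ∀ i ∈ I, β x i = 1 := by
    intro x
    constructor
    · intro hx
      refine ⟨hL hx, fun y hy => ?_⟩
      choose m hm using (hmemI y).1 hy
      have hx' : ∀ i, ∃ n : ℤ, x i = n := hx
      choose n hn using hx'
      change ee _ = 1
      rw [ee_eq_one_iff]
      refine ⟨∑ i, s i * n i * m i, ?_⟩
      push_cast
      refine Finset.sum_congr rfl fun i _ => ?_
      rw [hm i, hn i]
      have := hk0 i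
      field_simp
      ring
    · rintro ⟨-, hx⟩ j
      have hy : (Pi.single j (2 * (k j : ℚ)) : ι → ℚ) ∈ I := by
        rw [hmemI]
        intro i
        by_cases h : i = j
        · subst h
          exact ⟨1, by rw [Pi.single_eq_same]; push_cast; ring⟩
        · exact ⟨0, by rw [Pi.single_eq_of_ne h]; push_cast; ring⟩
      have h1 : ee (∑ i, (s i : ℚ) * 2 * x i * (Pi.single j (2 * (k j : ℚ)) : ι → ℚ) i /
          (4 * (k i : ℚ))) = 1 := hx _ hy
      rw [Finset.sum_eq_single_of_mem j (Finset.mem_univ j) (fun i _ hij => by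
        rw [Pi.single_eq_of_ne hij, mul_zero, zero_div]), Pi.single_eq_same,
        ee_eq_one_iff] at h1
      obtain ⟨n, hn⟩ := h1
      have h2 : (s j : ℚ) * 2 * x j * (2 * (k j : ℚ)) / (4 * (k j : ℚ)) = s j * x j := by
        have := hk0 j
        field_simp
        ring
      rw [h2] at hn
      rcases hs j with h3 | h3
      · refine ⟨n, ?_⟩
        rw [h3] at hn
        push_cast at hn
        linarith
      · refine ⟨-n, ?_⟩
        rw [h3] at hn
        push_cast at hn ⊢
        linarith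
  have h1 := mean_stab hq hp (hIZ.trans hL) hI1 hL2
  exact h1.symm.trans (mean_int k hk s hs)

end Pool.Agent.QD.N2
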