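import Pool.Agent.QD.N2.LocDef

/-!
# QD-N2-LocChar: the local characters

PLAN.  (1) `exists_pp`: `z = 0`: `y = 0`.  Else let `s` be the finite set of places `w` with `z ∉ Rv w 0`,
together with `v`, and `k` a natural number with `z ∈ Rv w (-k)` for all `w ∈ s` (`exists_mem_Rv`, maximum over
`s`; `Rv_anti`).  By `approx` there is `t ∈ 𝓞 K` with `t - 1 ∈ Rv v k`, `t ∈ Rv w k` for `w ∈ s`, `w ≠ v`.
`y = z * t` works (`Rv_mul`).
(2) uniqueness: for two principal parts `y, y'` of `z` at `v`, `y - y' ∈ Rv w 0` for all `w`, so `y - y'` is an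
algebraic integer (`exists_int_of_forall`) and its trace is an integer (`Algebra.isIntegral_trace`,
`IsIntegrallyClosed.isIntegral_iff` over `ℤ`), so `ee (Tr y) = ee (Tr y')` (`ee_add`, `ee_int`).
(3) `psi_of_pp`, then `psi_add` (sum of principal parts), `psi_of_mem` (`y = 0`), `psi_neg`, norm one.
(4) `ee_trace`: let `y w` be principal parts of `z` at the places of `s`; `z - ∑ w ∈ s, y w ∈ Rv v 0` for
every `v` (for `v ∈ s`: `z - y v ∈ Rv v 0` and the others are in `Rv v 0`; for `v ∉ s`: `z ∈ Rv v 0`), so it is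
an algebraic integer, with integer trace.
(5) `psi_trivial`: all `z` with `z ∈ Rv w 0` for `w ≠ v` have principal part `z`.
-/

set_option autoImplicit false

namespace Pool.Agent.QD.N2

open NumberField IsDedekindDomain Pool.Agent.HWR Pool.Agent.QD

variable {K : Type} [Field K] [NumberField K]

theorem exists_pp (v : HeightOneSpectrum (𝓞 K)) (z : K) : ∃ y, IsPP v z y := by
  classical
  choose n hn using fun w => exists_mem_Rv (K := K) w z
  set s : Finset (HeightOneSpectrum (𝓞 K)) := insert v (finite_not_mem z).toFinset with hs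
  set k : ℕ := s.sup n with hk
  have hz : ∀ w ∈ s, z ∈ Rv w (-(k : ℤ)) := by
    intro w hw
    have h1 : n w ≤ k := Finset.le_sup hw
    exact Rv_anti (by omega) (hn w)
  obtain ⟨b, hb⟩ := approx s (fun w => if w = v then 1 else 0) (by
    intro w _
    by_cases h : w = v
    · simp only [h, if_true]
      have h2 := int_mem_Rv (v := v) (1 : 𝓞 K)
      simpa using h2
    · simp only [h, if_false]
      exact zero_mem _) k
  refine ⟨z * b, ?_, ?_⟩
  · have h1 := hb v (Finset.mem_insert_self _ _)
    simp only [if_true] at h1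
    have h2 := Rv_mul (hz v (Finset.mem_insert_self _ _)) h1
    have h3 : z - z * (b : K) = -(z * ((b : K) - 1)) := by ring
    rw [h3]
    refine neg_mem ?_
    rwa [neg_add_cancel] at h2
  · intro w hw
    by_cases hws : w ∈ s
    · have h1 := hb w hws
      simp only [hw, if_false, sub_zero] at h1
      have h2 := Rv_mul (hz w hws) h1
      rwa [neg_add_cancel] at h2
    · have h1 : z ∈ Rv w 0 := by
        by_contra h
        apply hws
        rw [hs, Finset.mem_insert]
        right
        rw [Set.Finite.mem_toFinset]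
        exact h
      have h2 := Rv_mul h1 (int_mem_Rv b)
      rwa [add_zero] at h2

theorem ee_trace_int (a : 𝓞 K) : ee (Algebra.trace ℚ K (a : K)) = 1 := by
  rw [← Algebra.coe_trace_int]
  exact ee_int _

private theorem ee_trace_of_int {z y : K} (h : ∀ w : HeightOneSpectrum (𝓞 K), z - y ∈ Rv w 0) :
    ee (Algebra.trace ℚ K z) = ee (Algebra.trace ℚ K y) := by
  obtain ⟨a, ha⟩ := exists_int_of_forall h
  have h1 : z = y + (a : K) := by rw [ha]; ring
  rw [h1, map_add, ee_add, ee_trace_int, mul_one]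

theorem psi_of_pp {v : HeightOneSpectrum (𝓞 K)} {z y : K} (h : IsPP v z y) :
    psi v z = ee (Algebra.trace ℚ K y) := by
  classical
  have hex : ∃ y, IsPP v z y := ⟨y, h⟩
  unfold psi
  rw [dif_pos hex]
  have h2 := hex.choose_spec
  refine ee_trace_of_int fun w => ?_
  by_cases hw : w = v
  · subst hw
    have h3 := sub_mem h.1 h2.1
    have h4 : hex.choose - y = z - y - (z - hex.choose) := by ring
    rw [h4]
    exact h3
  · exact sub_mem (h2.2 w hw) (h.2 w hw)

theorem psi_add (v : HeightOneSpectrum (𝓞 K)) (z z' : K) : psi v (z + z') = psi v z * psi v z' := by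
  obtain ⟨y, hy⟩ := exists_pp v z
  obtain ⟨y', hy'⟩ := exists_pp v z'
  have h : IsPP v (z + z') (y + y') := by
    refine ⟨?_, fun w hw => add_mem (hy.2 w hw) (hy'.2 w hw)⟩
    have h1 := add_mem hy.1 hy'.1
    have h2 : z + z' - (y + y') = z - y + (z' - y') := by ring
    rw [h2]
    exact h1
  rw [psi_of_pp h, psi_of_pp hy, psi_of_pp hy', map_add, ee_add]

theorem psi_of_mem {v : HeightOneSpectrum (𝓞 K)} {z : K} (h : z ∈ Rv v 0) : psi v z = 1 := by
  have h1 : IsPP v z 0 := ⟨by rwa [sub_zero], fun w _ => zero_mem _⟩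
  rw [psi_of_pp h1, map_zero, ee_zero]

theorem norm_psi (v : HeightOneSpectrum (𝓞 K)) (z : K) : ‖psi v z‖ = 1 := by
  obtain ⟨y, hy⟩ := exists_pp v z
  rw [psi_of_pp hy, norm_ee]

theorem psi_ne_zero (v : HeightOneSpectrum (𝓞 K)) (z : K) : psi v z ≠ 0 := by
  obtain ⟨y, hy⟩ := exists_pp v z
  rw [psi_of_pp hy]
  exact ee_ne_zero _

/-- product formula -/
theorem ee_trace (s : Finset (HeightOneSpectrum (𝓞 K))) {z : K} (h : ∀ v, v ∉ s → z ∈ Rv v 0) :
    ee (Algebra.trace ℚ K z) = ∏ v ∈ s, psi v z := by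
  classical
  choose y hy using fun v : HeightOneSpectrum (𝓞 K) => exists_pp v z
  have h1 : ∀ v ∈ s, psi v z = ee (Algebra.trace ℚ K (y v)) := fun v _ => psi_of_pp (hy v)
  rw [Finset.prod_congr rfl h1, ← ee_sum, ← map_sum]
  refine ee_trace_of_int fun w => ?_
  by_cases hw : w ∈ s
  · rw [← Finset.add_sum_erase s y hw]
    have h2 : z - (y w + ∑ x ∈ s.erase w, y x) = z - y w - ∑ x ∈ s.erase w, y x := by ring
    rw [h2]
    refine sub_mem (hy w).1 (sum_mem fun x hx => (hy x).2 w ?_)
    exact (Finset.ne_of_mem_erase hx).symm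
  · refine sub_mem (h w hw) (sum_mem fun x hx => (hy x).2 w ?_)
    rintro rfl
    exact hw hx

end Pool.Agent.QD.N2
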