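import Pool.Agent.QD.N2.Ord

/-!
# QD-N2: local characters and local means (definitions)
-/

set_option autoImplicit false

namespace Pool.Agent.QD.N2

open NumberField IsDedekindDomain Pool.Agent.HWR Pool.Agent.QD

variable {K : Type} [Field K] [NumberField K]

variable (K) in
/-- `𝓞 K` as a subgroup of `K` -/
noncomputable def OK : AddSubgroup K := (algebraMap (𝓞 K) K).toAddMonoidHom.range

/-- `y` is the principal part of `z` at `v`. -/
def IsPP (v : HeightOneSpectrum (𝓞 K)) (z y : K) : Prop :=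
  z - y ∈ Rv v 0 ∧ ∀ w, w ≠ v → y ∈ Rv w 0

open Classical in
/-- The local character at `v`: `exp (2 π i Tr y)`, `y` the principal part of `z` at `v`. -/
noncomputable def psi (v : HeightOneSpectrum (𝓞 K)) (z : K) : ℂ :=
  if h : ∃ y, IsPP v z y then ee (Algebra.trace ℚ K h.choose) else 0

/-- `psi v` is trivial on `Rv v (-d)` and not on `Rv v (-d-1)`. -/
def IsCond (v : HeightOneSpectrum (𝓞 K)) (d : ℤ) : Prop :=
  (∀ z ∈ Rv v (-d), psi v z = 1) ∧ ∃ z ∈ Rv v (-d - 1), psi v z ≠ 1

/-- local Gauss sum -/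
noncomputable def mu (v : HeightOneSpectrum (𝓞 K)) (θ : K) : ℂ :=
  mean (Rv v 0) (fun a => psi v (θ * a ^ 2))

/-- The quadratic form `Tr (ω a²)`. -/
noncomputable def trf (ω : K) : QuadraticForm ℚ K :=
  LinearMap.BilinMap.toQuadraticMap
    ((Algebra.traceForm ℚ K).comp (LinearMap.mulLeft ℚ ω) LinearMap.id)

theorem trf_apply (ω a : K) : trf ω a = Algebra.trace ℚ K (ω * a ^ 2) := by
  simp only [trf, LinearMap.BilinMap.toQuadraticMap_apply, LinearMap.BilinForm.comp_apply,
    LinearMap.mulLeft_apply, LinearMap.id_coe, id_eq, Algebra.traceForm_apply]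
  congr 1
  ring

theorem polar_trf (ω a b : K) :
    QuadraticMap.polar (trf ω) a b = Algebra.trace ℚ K (2 * ω * a * b) := by
  simp only [QuadraticMap.polar, trf_apply, ← map_sub]
  congr 1
  ring

/-- The trace form is nondegenerate. -/
theorem trf_nondeg {ω : K} (hω : ω ≠ 0) (x : K)
    (h : ∀ y, QuadraticMap.polar (trf ω) x y = 0) : x = 0 := by
  by_contra hx
  have h1 := h ((2 * ω * x)⁻¹)
  rw [polar_trf, mul_inv_cancel₀ (mul_ne_zero (mul_ne_zero two_ne_zero hω) hx)] at h1
  have h2 : Algebra.trace ℚ K (1 : K) = Module.finrank ℚ K := by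
    have := Algebra.trace_algebraMap (S := K) (1 : ℚ)
    rw [map_one, nsmul_eq_mul, mul_one] at this
    exact this
  rw [h2] at h1
  have : 0 < Module.finrank ℚ K := Module.finrank_pos
  exact this.ne' (by exact_mod_cast h1)

end Pool.Agent.QD.N2
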