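import Pool.Agent.QD.N2.Ee

/-!
# QD-N2-MeanA: the mean is the average over any system of representatives

-/

set_option autoImplicit false

namespace Pool.Agent.QD.N2

variable {V : Type*} [AddCommGroup V] {L H : AddSubgroup V} {f g : V → ℂ}

private noncomputable def mAv (L : AddSubgroup V) (f : V → ℂ) (H : AddSubgroup V) : ℂ :=
  (∑ᶠ c : L ⧸ (H.addSubgroupOf L), f ((Quotient.out c : L) : V)) / (H.relIndex L : ℂ)

private theorem m_out (hp : Per L H f) (x : L) :
    f ((Quotient.out (x : L ⧸ H.addSubgroupOf L) : L) : V) = f x := by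
  obtain ⟨y, hy⟩ : ∃ y : L, y = Quotient.out (x : L ⧸ H.addSubgroupOf L) := ⟨_, rfl⟩
  have h1 : (y : L ⧸ H.addSubgroupOf L) = x := by
    rw [hy]
    exact QuotientAddGroup.out_eq' _
  rw [← hy]
  rw [QuotientAddGroup.eq] at h1
  have h2 : -(y : V) + x ∈ H := AddSubgroup.mem_addSubgroupOf.1 h1
  have h3 := hp.per _ y.2 _ h2
  rw [add_neg_cancel_left] at h3
  exact h3.symm

private theorem m_fin (hp : Per L H f) : Finite (L ⧸ H.addSubgroupOf L) :=
  Nat.finite_of_card_ne_zero hp.fin

private theorem mAv_le {H1 : AddSubgroup V} (hle : H1 ≤ H) (h1 : Per L H1 f) (h : Per L H f) :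
    mAv L f H1 = mAv L f H := by
  classical
  have hAB : H1.addSubgroupOf L ≤ H.addSubgroupOf L := fun x hx =>
    AddSubgroup.mem_addSubgroupOf.2 (hle (AddSubgroup.mem_addSubgroupOf.1 hx))
  have := m_fin h
  have := m_fin h1
  let e := AddSubgroup.quotientEquivProdOfLE hAB
  have hfin2 : Finite ((L ⧸ H.addSubgroupOf L) ×
      (H.addSubgroupOf L ⧸ (H1.addSubgroupOf L).addSubgroupOf (H.addSubgroupOf L))) :=
    Finite.of_equiv _ e
  have hfin3 : Finite (H.addSubgroupOf L ⧸ (H1.addSubgroupOf L).addSubgroupOf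
      (H.addSubgroupOf L)) :=
    Finite.of_injective (fun y => ((0 : L ⧸ H.addSubgroupOf L), y))
      fun a b hab => (Prod.ext_iff.1 hab).2
  have := Fintype.ofFinite (L ⧸ H.addSubgroupOf L)
  have := Fintype.ofFinite (L ⧸ H1.addSubgroupOf L)
  have := Fintype.ofFinite (H.addSubgroupOf L ⧸ (H1.addSubgroupOf L).addSubgroupOf
      (H.addSubgroupOf L))
  have hidx := AddSubgroup.relIndex_mul_index hAB
  have e1 : ∑ c : L ⧸ H1.addSubgroupOf L, f ((Quotient.out c : L) : V) =
      ((H1.addSubgroupOf L).relIndex (H.addSubgroupOf L) : ℂ) *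
        ∑ c : L ⧸ H.addSubgroupOf L, f ((Quotient.out c : L) : V) := by
    have e2 : ∑ c : L ⧸ H1.addSubgroupOf L, f ((Quotient.out c : L) : V) =
        ∑ p : (L ⧸ H.addSubgroupOf L) × (H.addSubgroupOf L ⧸
          (H1.addSubgroupOf L).addSubgroupOf (H.addSubgroupOf L)),
          f ((Quotient.out p.1 : L) : V) := by
      refine Fintype.sum_equiv e _ _ fun c => ?_
      induction c using QuotientAddGroup.induction_on with
      | H x =>
        have e3 : (e (x : L ⧸ H1.addSubgroupOf L)).1 = (x : L ⧸ H.addSubgroupOf L) := rfl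
        rw [e3, m_out h1, m_out h]
    rw [e2, Fintype.sum_prod_type]
    simp only [Finset.sum_const, Finset.card_univ, nsmul_eq_mul]
    rw [← Finset.mul_sum]
    congr 2
    rw [← Nat.card_eq_fintype_card]
    rfl
  unfold mAv
  rw [finsum_eq_sum_of_fintype, finsum_eq_sum_of_fintype, e1]
  have h3 : H1.relIndex L = (H1.addSubgroupOf L).relIndex (H.addSubgroupOf L) * H.relIndex L :=
    hidx.symm
  have h4 : (H.relIndex L : ℂ) ≠ 0 := Nat.cast_ne_zero.2 h.fin
  have h5 : ((H1.addSubgroupOf L).relIndex (H.addSubgroupOf L) : ℂ) ≠ 0 := by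
    refine Nat.cast_ne_zero.2 fun h0 => ?_
    rw [h0, zero_mul] at h3
    exact h1.fin h3
  rw [h3]
  push_cast
  rw [mul_div_mul_left _ _ h5]

private theorem mAv_eq {H' : AddSubgroup V} (h' : Per L H' f) (h : Per L H f) :
    mAv L f H' = mAv L f H := by
  have h1 : Per L (H' ⊓ H) f :=
    ⟨inf_le_left.trans h'.le, AddSubgroup.relIndex_inf_ne_zero h'.fin h.fin,
      fun x hx y hy => h'.per x hx y hy.1⟩
  rw [← mAv_le inf_le_left h1 h', ← mAv_le inf_le_right h1 h]

/-- PLAN.  Let `H0` be the subgroup chosen in the definition of `mean`, `Per L H0 f`.  Put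
`H1 = H ⊓ H0` (finite index in `L`: `AddSubgroup.relIndex_inf_ne_zero`).  For every `H'` with
`H1 ≤ H'`, `Per L H' f`, the sum of `f (out c)` over `L ⧸ H1` equals
`[H' : H1] * ∑ over L ⧸ H'` (the map `L ⧸ H1 → L ⧸ H'` is surjective, its fibres have
`H1.relIndex H'` elements, and `f (out c)` only depends on the image as `f` is `H'`-periodic), so
the averages agree (`AddSubgroup.relIndex_mul_relIndex`).  Apply this to `H' = H0` and `H' = H`.
Finally `i ↦ class of g i` is a bijection from `ι` to `L ⧸ H` (`Reps`), and `f (g i) =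
f (out (class))` by periodicity; so `card ι = H.relIndex L` and the sums agree. -/
theorem mean_eq {ι : Type*} [Fintype ι] (hp : Per L H f) {r : ι → V} (hr : Reps L H r) :
    mean L f = (∑ i, f (r i)) / (Fintype.card ι : ℂ) := by
  classical
  have h : ∃ H : AddSubgroup V, Per L H f := ⟨H, hp⟩
  have h1 : mean L f = mAv L f h.choose := by
    unfold mean
    rw [dif_pos h]
    rfl
  rw [h1, mAv_eq h.choose_spec hp]
  unfold mAv
  have := m_fin hp
  have := Fintype.ofFinite (L ⧸ H.addSubgroupOf L)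
  have hb : Function.Bijective (fun i : ι => ((⟨r i, hr.mem i⟩ : L) : L ⧸ H.addSubgroupOf L)) := by
    constructor
    · intro i j hij
      have h2 := QuotientAddGroup.eq.1 hij
      have h3 : -r i + r j ∈ H := AddSubgroup.mem_addSubgroupOf.1 h2
      apply hr.uniq
      have h4 := H.neg_mem h3
      rw [neg_add, neg_neg, ← sub_eq_add_neg] at h4
      exact h4
    · intro c
      induction c using QuotientAddGroup.induction_on with
      | H x =>
        obtain ⟨i, hi⟩ := hr.ex x x.2
        refine ⟨i, QuotientAddGroup.eq.2 (AddSubgroup.mem_addSubgroupOf.2 ?_)⟩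
        change -r i + (x : V) ∈ H
        rw [neg_add_eq_sub]
        exact hi
  have hcard : Fintype.card ι = H.relIndex L := by
    rw [Fintype.card_of_bijective hb, ← Nat.card_eq_fintype_card]
    rfl
  rw [finsum_eq_sum_of_fintype, hcard]
  congr 1
  refine (Fintype.sum_bijective _ hb _ _ fun i => ?_).symm
  exact (m_out hp ⟨r i, hr.mem i⟩).symm

/-- Representatives exist: `Quotient.out`. -/
theorem exists_reps (hH : H ≤ L) (hf : H.relIndex L ≠ 0) :
    ∃ (ι : Type) (_ : Fintype ι) (_ : Nonempty ι) (r : ι → V), Reps L H r := by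
  have hfin : Finite (L ⧸ H.addSubgroupOf L) := Nat.finite_of_card_ne_zero hf
  let e := Finite.equivFin (L ⧸ H.addSubgroupOf L)
  refine ⟨Fin (Nat.card (L ⧸ H.addSubgroupOf L)), inferInstance, ⟨e 0⟩,
    fun i => ((Quotient.out (e.symm i) : L) : V), fun i => (Quotient.out (e.symm i) : L).2, ?_, ?_⟩
  · intro x hx
    refine ⟨e ((⟨x, hx⟩ : L) : L ⧸ H.addSubgroupOf L), ?_⟩
    rw [Equiv.symm_apply_apply]
    obtain ⟨y, hy⟩ : ∃ y : L, y = Quotient.out ((⟨x, hx⟩ : L) : L ⧸ H.addSubgroupOf L) := ⟨_, rfl⟩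
    have h1 : (y : L ⧸ H.addSubgroupOf L) = ((⟨x, hx⟩ : L) : L ⧸ H.addSubgroupOf L) := by
      rw [hy]
      exact QuotientAddGroup.out_eq' _
    rw [← hy]
    have h2 : -(y : V) + x ∈ H := AddSubgroup.mem_addSubgroupOf.1 (QuotientAddGroup.eq.1 h1)
    rw [neg_add_eq_sub] at h2
    exact h2
  · intro i j hij
    apply e.symm.injective
    have h1 : ((Quotient.out (e.symm j) : L) : L ⧸ H.addSubgroupOf L) =
        ((Quotient.out (e.symm i) : L) : L ⧸ H.addSubgroupOf L) := by
      refine QuotientAddGroup.eq.2 (AddSubgroup.mem_addSubgroupOf.2 ?_)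
      change -((Quotient.out (e.symm j) : L) : V) + ((Quotient.out (e.symm i) : L) : V) ∈ H
      rw [neg_add_eq_sub]
      exact hij
    have h2 : ((Quotient.out (e.symm j) : L) : L ⧸ H.addSubgroupOf L) = e.symm j :=
      QuotientAddGroup.out_eq' _
    have h3 : ((Quotient.out (e.symm i) : L) : L ⧸ H.addSubgroupOf L) = e.symm i :=
      QuotientAddGroup.out_eq' _
    rw [h2, h3] at h1
    exact h1.symm

end Pool.Agent.QD.N2
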