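import Pool.Agent.QD.N2.MeanA

/-!
# QD-N2-MeanB: elementary properties of means

PLAN.  Everything follows from `mean_eq` and `exists_reps`.
* `mean_congr`: `Per L H f ↔ Per L H g` (for `x ∈ L`, `h ∈ H ≤ L`: `x + h ∈ L`).  If there is a period group use
  `mean_eq` with the same representatives, else both means are `0` (`dif_neg`).
* `mean_const`: `H = L`, one representative `0`.
* `Per.mono`: immediate.  `Per.mul`: `AddSubgroup.relIndex_inf_ne_zero`.
* `mean_add_right`: `Per L H (fun x => f (x + y))`; if `r` is a system of representatives then so is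
  `i ↦ r i + y`.
* `mean_const_mul`, `mean_add`: common representatives modulo `H ⊓ H'`.
* `mean_map`: `Per L H (f ∘ σ) ↔ Per (L.map σ) (H.map σ) f` and every subgroup of `W` is `H.map σ`
  (`AddSubgroup.map_comap_eq_self_of_surjective`); representatives `σ (r i)`; if there is no period group both
  sides are `0`.
-/

set_option autoImplicit false

namespace Pool.Agent.QD.N2

variable {V : Type*} [AddCommGroup V] {L H : AddSubgroup V} {f g : V → ℂ}

theorem mean_congr (h : ∀ x ∈ L, f x = g x) : mean L f = mean L g := by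
  by_cases hex : ∃ H, Per L H f
  · obtain ⟨H, hp⟩ := hex
    have hq : Per L H g := ⟨hp.le, hp.fin, fun x hx k hk => by
      rw [← h _ (L.add_mem hx (hp.le hk)), ← h x hx, hp.per x hx k hk]⟩
    obtain ⟨ι, _, _, r, hr⟩ := exists_reps hp.le hp.fin
    rw [mean_eq hp hr, mean_eq hq hr, Finset.sum_congr rfl (fun i _ => h (r i) (hr.mem i))]
  · have h' : ¬ ∃ H, Per L H g := by
      rintro ⟨H, hp⟩
      exact hex ⟨H, ⟨hp.le, hp.fin, fun x hx k hk => by
        rw [h _ (L.add_mem hx (hp.le hk)), h x hx, hp.per x hx k hk]⟩⟩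
    unfold mean
    rw [dif_neg hex, dif_neg h']

theorem mean_const (c : ℂ) : mean L (fun _ => c) = c := by
  have hp : Per L L (fun _ : V => c) :=
    ⟨le_rfl, by rw [AddSubgroup.relIndex_self]; exact one_ne_zero, fun _ _ _ _ => rfl⟩
  have hr : Reps L L (fun _ : Unit => (0 : V)) :=
    ⟨fun _ => L.zero_mem, fun x hx => ⟨(), by rw [sub_zero]; exact hx⟩, fun _ _ _ => rfl⟩
  rw [mean_eq hp hr]
  simp

/-- Smaller periods: `Per` passes to subgroups of finite index. -/
theorem Per.mono {H' : AddSubgroup V} (hp : Per L H f) (hle : H' ≤ H) (hf : H'.relIndex L ≠ 0) :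
    Per L H' f := by
  exact ⟨hle.trans hp.le, hf, fun x hx k hk => hp.per x hx k (hle hk)⟩

theorem Per.mul {H' : AddSubgroup V} (hp : Per L H f) (hp' : Per L H' g) :
    Per L (H ⊓ H') (fun x => f x * g x) := by
  refine ⟨inf_le_left.trans hp.le, AddSubgroup.relIndex_inf_ne_zero hp.fin hp'.fin,
    fun x hx k hk => ?_⟩
  change f (x + k) * g (x + k) = f x * g x
  rw [hp.per x hx k hk.1, hp'.per x hx k hk.2]

/-- Translation invariance. -/
theorem mean_add_right (hp : Per L H f) {y : V} (hy : y ∈ L) :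
    mean L (fun x => f (x + y)) = mean L f := by
  have hq : Per L H (fun x => f (x + y)) := ⟨hp.le, hp.fin, fun x hx k hk => by
    change f (x + k + y) = f (x + y)
    rw [add_right_comm, hp.per (x + y) (L.add_mem hx hy) k hk]⟩
  obtain ⟨ι, _, _, r, hr⟩ := exists_reps hp.le hp.fin
  have hr' : Reps L H (fun i => r i + y) := by
    refine ⟨fun i => L.add_mem (hr.mem i) hy, fun x hx => ?_, fun i j hij => hr.uniq i j ?_⟩
    · obtain ⟨i, hi⟩ := hr.ex (x - y) (L.sub_mem hx hy)
      refine ⟨i, ?_⟩
      have h1 : x - (r i + y) = x - y - r i := by abel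
      rw [h1]
      exact hi
    · have h1 : r i - r j = r i + y - (r j + y) := by abel
      rw [h1]
      exact hij
  rw [mean_eq hq hr, mean_eq hp hr']

theorem mean_const_mul (hp : Per L H f) (c : ℂ) : mean L (fun x => c * f x) = c * mean L f := by
  have hq : Per L H (fun x => c * f x) := ⟨hp.le, hp.fin, fun x hx k hk => by
    change c * f (x + k) = c * f x
    rw [hp.per x hx k hk]⟩
  obtain ⟨ι, _, _, r, hr⟩ := exists_reps hp.le hp.fin
  rw [mean_eq hq hr, mean_eq hp hr, ← Finset.mul_sum, mul_div_assoc]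

theorem mean_add (hp : Per L H f) {H' : AddSubgroup V} (hp' : Per L H' g) :
    mean L (fun x => f x + g x) = mean L f + mean L g := by
  have hfin := AddSubgroup.relIndex_inf_ne_zero hp.fin hp'.fin
  have h1 : Per L (H ⊓ H') f := hp.mono inf_le_left hfin
  have h2 : Per L (H ⊓ H') g := hp'.mono inf_le_right hfin
  have h3 : Per L (H ⊓ H') (fun x => f x + g x) := ⟨h1.le, h1.fin, fun x hx k hk => by
    change f (x + k) + g (x + k) = f x + g x
    rw [h1.per x hx k hk, h2.per x hx k hk]⟩
  obtain ⟨ι, _, _, r, hr⟩ := exists_reps h1.le h1.fin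
  rw [mean_eq h3 hr, mean_eq h1 hr, mean_eq h2 hr, Finset.sum_add_distrib, add_div]

/-- Transport by an additive equivalence. -/
theorem mean_map {W : Type*} [AddCommGroup W] (σ : V ≃+ W) (L : AddSubgroup V) (f : W → ℂ) :
    mean (L.map σ.toAddMonoidHom) f = mean L (fun x => f (σ x)) := by
  by_cases hex : ∃ H, Per L H (fun x => f (σ x))
  · obtain ⟨H, hp⟩ := hex
    obtain ⟨ι, _, _, r, hr⟩ := exists_reps hp.le hp.fin
    have hc : (H.map σ.toAddMonoidHom).comap σ.toAddMonoidHom = H :=
      AddSubgroup.comap_map_eq_self_of_injective σ.injective H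
    have hq : Per (L.map σ.toAddMonoidHom) (H.map σ.toAddMonoidHom) f := by
      refine ⟨AddSubgroup.map_mono hp.le, ?_, ?_⟩
      · rw [← AddSubgroup.relIndex_comap, hc]
        exact hp.fin
      · rintro _ ⟨a, ha, rfl⟩ _ ⟨b, hb, rfl⟩
        have h1 := hp.per a ha b hb
        change f (σ a + σ b) = f (σ a)
        rw [← map_add]
        exact h1
    have hr' : Reps (L.map σ.toAddMonoidHom) (H.map σ.toAddMonoidHom) (fun i => σ (r i)) := by
      refine ⟨fun i => ⟨r i, hr.mem i, rfl⟩, ?_, fun i j hij => hr.uniq i j ?_⟩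
      · rintro _ ⟨a, ha, rfl⟩
        obtain ⟨i, hi⟩ := hr.ex a ha
        exact ⟨i, a - r i, hi, map_sub σ _ _⟩
      · obtain ⟨c, hc1, hc2⟩ := hij
        have h1 : σ c = σ (r i - r j) := by rw [map_sub]; exact hc2
        rw [← σ.injective h1]
        exact hc1
    rw [mean_eq hq hr', mean_eq hp hr]
  · have h' : ¬ ∃ H, Per (L.map σ.toAddMonoidHom) H f := by
      rintro ⟨H, hp⟩
      refine hex ⟨H.comap σ.toAddMonoidHom, ?_, ?_, ?_⟩
      · intro x hx
        obtain ⟨a, ha, hax⟩ := hp.le hx
        rw [← σ.injective hax]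
        exact ha
      · rw [AddSubgroup.relIndex_comap]
        exact hp.fin
      · intro x hx k hk
        have h1 := hp.per (σ x) ⟨x, hx, rfl⟩ (σ k) hk
        change f (σ (x + k)) = f (σ x)
        rw [map_add]
        exact h1
    unfold mean
    rw [dif_neg hex, dif_neg h']

end Pool.Agent.QD.N2
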