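import Pool.Agent.QD.N2.MeanB

/-!
# QD-N2-MeanC: subgroups, extension by zero, independence

PLAN.
* `mean_sub`: `Per L1 (H ⊓ L1) f`; take representatives `r` of `L1` modulo `H ⊓ L1`; they are representatives of
  `L` modulo `H` (`x = x1 + h`).  `mean_eq` twice.
* `mean_zero_ext`: `Per L H g` (for `x ∈ L1`, `h ∈ H ≤ L1` also `x + h ∈ L1`, and if `x ∉ L1` then `x + h ∉ L1`).
  Let `r` (index type `ι`) be representatives of `L1` modulo `H` and `t` (index type `κ`) representatives of `L`
  modulo `L1` (`exists_reps`); then `(k, i) ↦ t k + r i` are representatives of `L` modulo `H`, `card κ =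
  L1.relIndex L`, and `g (t k + r i) = 0` unless `t k ∈ L1` (exactly one `k0`).  Then the sum over `i` of
  `g (t k0 + r i)` is `card ι * mean L1 f` (`mean_eq` with the representatives `t k0 + r i` of `L1` mod `H`).
* `mean_mul`: let `r` be representatives of `L` modulo `H ⊓ H'` (index type `ι`), `a` of `L` modulo `H` (`α`), `b`
  of `L` modulo `H'` (`β`).  The map `ι → α × β`, `i ↦` (index of the class of `r i` mod `H`, mod `H'`) is a bijection
  (injective: clear; surjective: `x ∈ L`, `y ∈ L`, `y - x = h + h'`, `z = x + h = y - h'`).  So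
  `∑_i f (r i) g (r i) = ∑_{α × β} f (a k) g (b l)`.
-/

set_option autoImplicit false

namespace Pool.Agent.QD.N2

variable {V : Type*} [AddCommGroup V] {L H : AddSubgroup V} {f g : V → ℂ}

/-- The number of representatives. -/
theorem Reps.card_eq {ι : Type*} [Fintype ι] {r : ι → V} (hr : Reps L H r) :
    Fintype.card ι = H.relIndex L := by
  have hb : Function.Bijective
      (fun k => (QuotientAddGroup.mk (⟨r k, hr.mem k⟩ : L) : L ⧸ H.addSubgroupOf L)) := by
    constructor
    · intro i j hij
      have h := QuotientAddGroup.eq.1 hij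
      rw [AddSubgroup.mem_addSubgroupOf] at h
      have h' : r j - r i ∈ H := by
        have e : r j - r i = -r i + r j := by abel
        rw [e]
        exact h
      exact (hr.uniq j i h').symm
    · intro c
      obtain ⟨x, rfl⟩ := QuotientAddGroup.mk_surjective c
      obtain ⟨i, hi⟩ := hr.ex x x.2
      refine ⟨i, QuotientAddGroup.eq.2 ?_⟩
      rw [AddSubgroup.mem_addSubgroupOf]
      have e : ((-(⟨r i, hr.mem i⟩ : L) + x : L) : V) = (x : V) - r i := by
        push_cast
        abel
      rw [e]
      exact hi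
  rw [← Nat.card_eq_fintype_card, Nat.card_eq_of_bijective _ hb]
  rfl

/-- A subgroup which represents all classes has the same mean. -/
theorem mean_sub {L1 : AddSubgroup V} (hp : Per L H f) (hle : L1 ≤ L) (hsup : L1 ⊔ H = L) :
    mean L1 f = mean L f := by
  have hfin : (H ⊓ L1).relIndex L1 ≠ 0 := by
    rw [AddSubgroup.inf_relIndex_right]
    have h := AddSubgroup.relIndex_sup_right (H := L1) (K := H)
    rw [hsup] at h
    rw [← h]
    exact hp.fin
  have hp1 : Per L1 (H ⊓ L1) f :=
    ⟨inf_le_right, hfin, fun x hx h hh => hp.per x (hle hx) h hh.1⟩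
  obtain ⟨ι, _, _, r, hr⟩ := exists_reps (L := L1) (H := H ⊓ L1) inf_le_right hfin
  have hr' : Reps L H r := by
    refine ⟨fun i => hle (hr.mem i), ?_, ?_⟩
    · intro x hx
      rw [← hsup] at hx
      obtain ⟨y, hy, z, hz, rfl⟩ := AddSubgroup.mem_sup.1 hx
      obtain ⟨i, hi⟩ := hr.ex y hy
      refine ⟨i, ?_⟩
      have e : y + z - r i = (y - r i) + z := by abel
      rw [e]
      exact H.add_mem hi.1 hz
    · intro i j hij
      exact hr.uniq i j ⟨hij, L1.sub_mem (hr.mem i) (hr.mem j)⟩
  rw [mean_eq hp1 hr, mean_eq hp hr']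

/-- Extension by zero from a subgroup of finite index. -/
theorem mean_zero_ext {L1 : AddSubgroup V} (hle : L1 ≤ L) (hH : H ≤ L1) (hp : Per L1 H f)
    (hf : H.relIndex L ≠ 0) (h0 : ∀ x ∈ L, x ∉ L1 → g x = 0) (h1 : ∀ x ∈ L1, g x = f x) :
    mean L g * (L1.relIndex L : ℂ) = mean L1 f := by
  classical
  have hmul : H.relIndex L1 * L1.relIndex L = H.relIndex L :=
    AddSubgroup.relIndex_mul_relIndex H L1 L hH hle
  have hne2 : L1.relIndex L ≠ 0 := by
    intro h
    rw [h, mul_zero] at hmul
    exact hf hmul.symm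
  obtain ⟨ι, _, _, r, hr⟩ := exists_reps hH hp.fin
  obtain ⟨κ, _, _, t, ht⟩ := exists_reps hle hne2
  have hpg : Per L H g := by
    refine ⟨hH.trans hle, hf, ?_⟩
    intro x hx h hh
    by_cases hx1 : x ∈ L1
    · rw [h1 x hx1, h1 _ (L1.add_mem hx1 (hH hh)), hp.per x hx1 h hh]
    · rw [h0 x hx hx1, h0 _ (L.add_mem hx (hle (hH hh)))]
      intro hc
      apply hx1
      have := L1.sub_mem hc (hH hh)
      rwa [add_sub_cancel_right] at this
  have hrt : Reps L H (fun p : κ × ι => t p.1 + r p.2) := by
    refine ⟨fun p => L.add_mem (ht.mem _) (hle (hr.mem _)), ?_, ?_⟩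
    · intro x hx
      obtain ⟨k, hk⟩ := ht.ex x hx
      obtain ⟨i, hi⟩ := hr.ex _ hk
      refine ⟨(k, i), ?_⟩
      have e : x - (t k + r i) = x - t k - r i := by abel
      show x - (t k + r i) ∈ H
      rw [e]
      exact hi
    · rintro ⟨k, i⟩ ⟨l, j⟩ hij
      change t k + r i - (t l + r j) ∈ H at hij
      have hkl : k = l := by
        apply ht.uniq
        have e : t k - t l = (t k + r i - (t l + r j)) - (r i - r j) := by abel
        rw [e]
        exact L1.sub_mem (hH hij) (L1.sub_mem (hr.mem i) (hr.mem j))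
      subst hkl
      have e : t k + r i - (t k + r j) = r i - r j := by abel
      rw [e] at hij
      rw [hr.uniq i j hij]
  obtain ⟨k0, hk0⟩ := ht.ex 0 L.zero_mem
  have hk0' : t k0 ∈ L1 := by
    have e : t k0 = -(0 - t k0) := by abel
    rw [e]
    exact L1.neg_mem hk0
  have hr0 : Reps L1 H (fun i => t k0 + r i) := by
    refine ⟨fun i => L1.add_mem hk0' (hr.mem i), ?_, ?_⟩
    · intro x hx
      obtain ⟨i, hi⟩ := hr.ex (x - t k0) (L1.sub_mem hx hk0')
      refine ⟨i, ?_⟩
      have e : x - (t k0 + r i) = x - t k0 - r i := by abel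
      show x - (t k0 + r i) ∈ H
      rw [e]
      exact hi
    · intro i j hij
      apply hr.uniq
      have e : t k0 + r i - (t k0 + r j) = r i - r j := by abel
      change t k0 + r i - (t k0 + r j) ∈ H at hij
      rwa [e] at hij
  have hsum : ∑ p : κ × ι, g (t p.1 + r p.2) = ∑ i, f (t k0 + r i) := by
    rw [Fintype.sum_prod_type, Finset.sum_eq_single k0]
    · refine Finset.sum_congr rfl fun i _ => ?_
      exact h1 _ (L1.add_mem hk0' (hr.mem i))
    · intro k _ hk
      refine Finset.sum_eq_zero fun i _ => ?_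
      apply h0 _ (L.add_mem (ht.mem k) (hle (hr.mem i)))
      intro hc
      apply hk
      apply ht.uniq
      have e : t k - t k0 = (t k + r i) - r i - t k0 := by abel
      rw [e]
      exact L1.sub_mem (L1.sub_mem hc (hr.mem i)) hk0'
    · intro h
      exact absurd (Finset.mem_univ k0) h
  rw [mean_eq hpg hrt, mean_eq hp hr0, hsum, Fintype.card_prod, ← ht.card_eq]
  have hκ : (Fintype.card κ : ℂ) ≠ 0 := by
    exact_mod_cast Fintype.card_ne_zero
  have hι : (Fintype.card ι : ℂ) ≠ 0 := by
    exact_mod_cast Fintype.card_ne_zero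
  push_cast
  field_simp

/-- Independence: two functions whose period groups span `L`. -/
theorem mean_mul {H' : AddSubgroup V} (hp : Per L H f) (hp' : Per L H' g) (hsup : H ⊔ H' = L) :
    mean L (fun x => f x * g x) = mean L f * mean L g := by
  classical
  have hpm : Per L (H ⊓ H') (fun x => f x * g x) := hp.mul hp'
  obtain ⟨ι, _, _, r, hr⟩ := exists_reps hpm.le hpm.fin
  obtain ⟨α, _, _, a, ha⟩ := exists_reps hp.le hp.fin
  obtain ⟨β, _, _, b, hb⟩ := exists_reps hp'.le hp'.fin
  choose u hu using fun i => ha.ex (r i) (hr.mem i)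
  choose v hv using fun i => hb.ex (r i) (hr.mem i)
  have hbij : Function.Bijective (fun i => (u i, v i)) := by
    constructor
    · intro i j hij
      have h1 : u i = u j := congrArg Prod.fst hij
      have h2 : v i = v j := congrArg Prod.snd hij
      apply hr.uniq
      constructor
      · have e : r i - r j = (r i - a (u i)) - (r j - a (u j)) := by
          rw [h1]
          abel
        rw [e]
        exact H.sub_mem (hu i) (hu j)
      · have e : r i - r j = (r i - b (v i)) - (r j - b (v j)) := by
          rw [h2]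
          abel
        rw [e]
        exact H'.sub_mem (hv i) (hv j)
    · rintro ⟨k, l⟩
      have hd : b l - a k ∈ H ⊔ H' := by
        rw [hsup]
        exact L.sub_mem (hb.mem l) (ha.mem k)
      obtain ⟨h, hh, h', hh', e⟩ := AddSubgroup.mem_sup.1 hd
      have hz : a k + h = b l - h' := by
        have : b l = (h + h') + a k := by
          rw [e]
          abel
        rw [this]
        abel
      have hzL : a k + h ∈ L := L.add_mem (ha.mem k) (hp.le hh)
      obtain ⟨i, hi⟩ := hr.ex _ hzL
      refine ⟨i, ?_⟩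
      have h1 : u i = k := by
        apply ha.uniq
        have e1 : a (u i) - a k = -(r i - a (u i)) - (a k + h - r i) + h := by abel
        rw [e1]
        exact H.add_mem (H.sub_mem (H.neg_mem (hu i)) hi.1) hh
      have h2 : v i = l := by
        apply hb.uniq
        have e1 : b (v i) - b l = -(r i - b (v i)) - (b l - h' - r i) - h' := by abel
        rw [e1, ← hz]
        exact H'.sub_mem (H'.sub_mem (H'.neg_mem (hv i)) hi.2) hh'
      rw [← h1, ← h2]
  have hf : ∀ i, f (r i) = f (a (u i)) := by
    intro i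
    have := hp.per (a (u i)) (ha.mem _) _ (hu i)
    rwa [add_sub_cancel] at this
  have hg : ∀ i, g (r i) = g (b (v i)) := by
    intro i
    have := hp'.per (b (v i)) (hb.mem _) _ (hv i)
    rwa [add_sub_cancel] at this
  have hsum : ∑ i, f (r i) * g (r i) = (∑ k, f (a k)) * (∑ l, g (b l)) := by
    rw [Finset.sum_mul_sum, ← Fintype.sum_prod_type']
    exact Fintype.sum_bijective _ hbij _ _ fun i => by rw [hf i, hg i]
  have hcard : Fintype.card ι = Fintype.card α * Fintype.card β := by
    rw [← Fintype.card_prod]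
    exact Fintype.card_of_bijective hbij
  rw [mean_eq hpm hr, mean_eq hp ha, mean_eq hp' hb, hsum, hcard]
  have hα : (Fintype.card α : ℂ) ≠ 0 := by
    exact_mod_cast Fintype.card_ne_zero
  have hβ : (Fintype.card β : ℂ) ≠ 0 := by
    exact_mod_cast Fintype.card_ne_zero
  push_cast
  field_simp

end Pool.Agent.QD.N2
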