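import Mathlib

/-!
# QD-N2: means of periodic functions, quadratic characters (definitions)
-/

set_option autoImplicit false

namespace Pool.Agent.QD.N2

/-- `exp (2 π i r)` -/
noncomputable def ee (r : ℚ) : ℂ := Complex.exp (2 * Real.pi * Complex.I * (r : ℂ))

/-- `exp (π i / 4)` -/
noncomputable def zt : ℂ := Complex.exp (Real.pi * Complex.I / 4)

/-- equality up to a positive real factor -/
def SP (a b : ℂ) : Prop := ∃ r : ℝ, 0 < r ∧ a = (r : ℂ) * b

section Mean

variable {V : Type*} [AddCommGroup V]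

/-- `f` is periodic on `L` with respect to the subgroup `H` of finite index. -/
structure Per (L H : AddSubgroup V) (f : V → ℂ) : Prop where
  le : H ≤ L
  fin : H.relIndex L ≠ 0
  per : ∀ x ∈ L, ∀ h ∈ H, f (x + h) = f x

/-- `g` is a system of representatives of `L` modulo `H`. -/
structure Reps {ι : Type*} (L H : AddSubgroup V) (g : ι → V) : Prop where
  mem : ∀ i, g i ∈ L
  ex : ∀ x ∈ L, ∃ i, x - g i ∈ H
  uniq : ∀ i j, g i - g j ∈ H → i = j

open Classical in
/-- The mean value of a periodic function `f` on `L`. -/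
noncomputable def mean (L : AddSubgroup V) (f : V → ℂ) : ℂ :=
  if h : ∃ H : AddSubgroup V, Per L H f then
    (∑ᶠ c : L ⧸ (h.choose.addSubgroupOf L), f ((Quotient.out c : L) : V)) /
      (h.choose.relIndex L : ℂ)
  else 0

/-- Quadratic characters on `L`. -/
structure QC (L : AddSubgroup V) (φ : V → ℂ) (β : V → V → ℂ) : Prop where
  zero : φ 0 = 1
  ne : ∀ x ∈ L, φ x ≠ 0
  add : ∀ x ∈ L, ∀ y ∈ L, φ (x + y) = φ x * φ y * β x y
  bil : ∀ x ∈ L, ∀ y ∈ L, ∀ z ∈ L, β x (y + z) = β x y * β x z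
  symm : ∀ x ∈ L, ∀ y ∈ L, β x y = β y x

end Mean

end Pool.Agent.QD.N2
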