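import Pool.Agent.QD.N2.LocChar
import Pool.Agent.QD.N2.Mean

/-!
# QD-N2-MuProd: the global Gauss sum is the product of the local ones

PLAN.  For `θ : K` and a place `v`, `f_v a = psi v (θ a²)`.  Let `n_v : ℕ` with `θ ∈ Rv v (-n_v)`.
(1) `Per (Rv v 0) (Rv v n_v) f_v`: `θ ((a+h)² - a²) = θ (2 a h + h²) ∈ Rv v 0` for `a ∈ Rv v 0`,
`h ∈ Rv v n_v`; `relIndex_Rv_ne_zero`.
(2) `OK K ≤ Rv v 0` and `OK K ⊔ Rv v n_v = Rv v 0` (`approx` with one place), so `mean_sub` gives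
`mean (OK K) f_v = mu v θ`, and `Per (OK K) (Rv v n_v ⊓ OK K) f_v`.
(3) For a finite set `s` of places: `mean (OK K) (∏ v ∈ s, f_v) = ∏ v ∈ s, mean (OK K) f_v` by
`Finset.induction_on`, together with the statement that `∏ v ∈ s, f_v` is periodic with respect to
`(⨅ v ∈ s, Rv v n_v) ⊓ OK K`: for `w ∉ s` use `mean_mul`; the sum of `(⨅ v ∈ s, Rv v n_v) ⊓ OK K` and
`Rv w n_w ⊓ OK K` is `OK K`: for `c ∈ 𝓞 K` take (by `approx`) `t ∈ 𝓞 K` with `t - c ∈ Rv w k`,
`t ∈ Rv v k` for `v ∈ s`, `k` = maximum of the `n`'s; `c = t + (c - t)`.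
(4) `ee (Tr (θ a²)) = ∏ v ∈ s, psi v (θ a²)` for `a ∈ 𝓞 K` (`ee_trace`, `θ a² ∈ Rv v 0` for `v ∉ s`);
`mean_congr`.
-/

set_option autoImplicit false

namespace Pool.Agent.QD.N2

open NumberField IsDedekindDomain Pool.Agent.HWR Pool.Agent.QD

variable {K : Type} [Field K] [NumberField K]

/-- period groups of the local functions -/
theorem per_psi (v : HeightOneSpectrum (𝓞 K)) {θ : K} {n : ℕ} (h : θ ∈ Rv v (-(n : ℤ))) :
    Per (Rv v 0) (Rv v n) (fun a => psi v (θ * a ^ 2)) := by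
  refine ⟨Rv_anti (Int.natCast_nonneg n), relIndex_Rv_ne_zero (Int.natCast_nonneg n), ?_⟩
  intro x hx t ht
  have h1 : θ * (x + t) ^ 2 = θ * x ^ 2 + θ * (t * (x + x + t)) := by ring
  have h2 : x + x + t ∈ Rv v 0 :=
    add_mem (add_mem hx hx) (Rv_anti (Int.natCast_nonneg n) ht)
  have h3 : θ * (t * (x + x + t)) ∈ Rv v 0 := by
    have h4 := Rv_mul h (Rv_mul ht h2)
    have h5 : -(n : ℤ) + ((n : ℤ) + 0) = 0 := by ring
    rwa [h5] at h4
  change psi v (θ * (x + t) ^ 2) = psi v (θ * x ^ 2)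
  rw [h1, psi_add, psi_of_mem h3, mul_one]

private theorem OK_le (v : HeightOneSpectrum (𝓞 K)) : OK K ≤ Rv v 0 := by
  rintro _ ⟨a, rfl⟩
  exact int_mem_Rv a

private theorem OK_mem (b : 𝓞 K) : (b : K) ∈ OK K := ⟨b, rfl⟩

private theorem OK_sup (v : HeightOneSpectrum (𝓞 K)) (m : ℕ) : OK K ⊔ Rv v m = Rv v 0 := by
  apply le_antisymm
  · exact sup_le (OK_le v) (Rv_anti (Int.natCast_nonneg m))
  · intro x hx
    obtain ⟨b, hb⟩ := approx {v} (fun _ => x) (by
      intro w hw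
      rw [Finset.mem_singleton.mp hw]
      exact hx) m
    have h1 := hb v (Finset.mem_singleton_self v)
    have h2 : x = (b : K) + (x - b) := by ring
    rw [h2]
    refine AddSubgroup.add_mem_sup (OK_mem b) ?_
    rw [← neg_sub]
    exact neg_mem h1

private theorem mean_one (v : HeightOneSpectrum (𝓞 K)) {θ : K} {n : ℕ}
    (h : θ ∈ Rv v (-(n : ℤ))) :
    mean (OK K) (fun a => psi v (θ * a ^ 2)) = mu v θ :=
  mean_sub (per_psi v h) (OK_le v) (OK_sup v n)

private theorem per_OK (v : HeightOneSpectrum (𝓞 K)) {θ : K} {n : ℕ}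
    (h : θ ∈ Rv v (-(n : ℤ))) :
    Per (OK K) (Rv v n ⊓ OK K) (fun a => psi v (θ * a ^ 2)) := by
  have hp := per_psi v h
  refine ⟨inf_le_right, ?_, ?_⟩
  · rw [AddSubgroup.inf_relIndex_right]
    intro h0
    exact hp.fin (AddSubgroup.relIndex_eq_zero_of_le_right (OK_le v) h0)
  · intro x hx t ht
    exact hp.per x (OK_le v hx) t ht.1

private theorem span_aux (n : HeightOneSpectrum (𝓞 K) → ℕ) (s : Finset (HeightOneSpectrum (𝓞 K)))
    (w : HeightOneSpectrum (𝓞 K)) (hw : w ∉ s) {H : AddSubgroup K} (hH : H ≤ OK K)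
    (hc : ∀ c ∈ OK K, (∀ v ∈ s, c ∈ Rv v (n v)) → c ∈ H) :
    (Rv w (n w) ⊓ OK K) ⊔ H = OK K := by
  classical
  apply le_antisymm
  · exact sup_le inf_le_right hH
  · intro c hcm
    obtain ⟨t, ht⟩ := approx (insert w s) (fun v => if v = w then c else 0) (by
      intro v _
      split_ifs with h1
      · exact OK_le v hcm
      · exact zero_mem _) ((insert w s).sup n)
    have hle : ∀ v ∈ insert w s, (n v : ℤ) ≤ (((insert w s).sup n : ℕ) : ℤ) := by
      intro v hv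
      exact_mod_cast Finset.le_sup (f := n) hv
    have h2 : c = (c - t) + t := by ring
    rw [h2]
    refine AddSubgroup.add_mem_sup (AddSubgroup.mem_inf.mpr ⟨?_, sub_mem hcm (OK_mem t)⟩)
      (hc _ (OK_mem t) ?_)
    · have h3 := ht w (Finset.mem_insert_self w s)
      rw [if_pos rfl] at h3
      have h4 := Rv_anti (hle w (Finset.mem_insert_self w s)) h3
      rw [← neg_sub]
      exact neg_mem h4
    · intro v hv
      have h3 := ht v (Finset.mem_insert_of_mem hv)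
      have hne : v ≠ w := by
        rintro rfl
        exact hw hv
      rw [if_neg hne, sub_zero] at h3
      exact Rv_anti (hle v (Finset.mem_insert_of_mem hv)) h3

private theorem prod_aux {θ : K} (n : HeightOneSpectrum (𝓞 K) → ℕ)
    (hn : ∀ v, θ ∈ Rv v (-(n v : ℤ))) (s : Finset (HeightOneSpectrum (𝓞 K))) :
    ∃ H : AddSubgroup K, Per (OK K) H (fun a => ∏ v ∈ s, psi v (θ * a ^ 2)) ∧
      (∀ c ∈ OK K, (∀ v ∈ s, c ∈ Rv v (n v)) → c ∈ H) ∧
      mean (OK K) (fun a => ∏ v ∈ s, psi v (θ * a ^ 2)) = ∏ v ∈ s, mu v θ := by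
  classical
  induction s using Finset.induction_on with
  | empty =>
    refine ⟨OK K, ⟨le_rfl, ?_, ?_⟩, fun c hc _ => hc, ?_⟩
    · rw [AddSubgroup.relIndex_self]
      exact one_ne_zero
    · intro x _ t _
      simp only [Finset.prod_empty]
    · simp only [Finset.prod_empty]
      exact mean_const 1
  | insert w s hw ih =>
    obtain ⟨H, hp, hc, hm⟩ := ih
    have hw' := per_OK w (hn w)
    have hsup := span_aux n s w hw hp.le hc
    refine ⟨(Rv w (n w) ⊓ OK K) ⊓ H, ?_, ?_, ?_⟩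
    · simp only [Finset.prod_insert hw]
      exact hw'.mul hp
    · intro c hc1 hc2
      refine ⟨⟨hc2 w (Finset.mem_insert_self w s), hc1⟩, hc c hc1 ?_⟩
      intro v hv
      exact hc2 v (Finset.mem_insert_of_mem hv)
    · simp only [Finset.prod_insert hw]
      rw [mean_mul hw' hp hsup, hm, mean_one w (hn w)]

theorem mean_OK (s : Finset (HeightOneSpectrum (𝓞 K))) {θ : K} (h : ∀ v, v ∉ s → θ ∈ Rv v 0) :
    mean (OK K) (fun a => ee (Algebra.trace ℚ K (θ * a ^ 2))) = ∏ v ∈ s, mu v θ := by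
  choose n hn using fun v : HeightOneSpectrum (𝓞 K) => exists_mem_Rv v θ
  obtain ⟨_, _, _, hm⟩ := prod_aux n hn s
  rw [← hm]
  refine mean_congr fun a ha => ee_trace s fun v hv => ?_
  have h1 := OK_le v ha
  have h2 := Rv_mul (h v hv) (Rv_mul h1 h1)
  have h3 : (0 : ℤ) + (0 + 0) = 0 := by ring
  rw [h3] at h2
  rwa [pow_two]

end Pool.Agent.QD.N2
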