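import Pool.Agent.QD.N2.Mean

/-!
# QD-N2-Stab: the stabilization lemma for Gauss sums

PLAN.  `φ` is a quadratic character on `L'`, `I ≤ L'` a subgroup on which `φ = 1`, and
`L = {x ∈ L' : β(x,i) = 1 for all i ∈ I}`.  Let `Per L' H φ`.
(1) for `h ∈ H`, `x ∈ L'`: `φ (x + h) = φ x` gives with `x = 0` (`φ 0 = 1`): `φ h = 1` (use
    `φ (0 + h) = φ 0`), and then `β x h = 1` (`φ x ≠ 0`).  Also `β x h = 1` gives (symmetry) `β h i = 1`
    for `i ∈ I`, so `H ≤ L`.
(2) for `i ∈ I`: `mean L' φ = mean L' (fun x => φ (x + i)) = mean L' (fun x => φ x * β x i)`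
    (`mean_add_right`, `φ i = 1`).
(3) Let `s : κ → V` be representatives of `I` modulo `I ⊓ H` (finite).  Average (2) over them:
    `mean L' φ = mean L' (fun x => φ x * ((card κ)⁻¹ * ∑ k, β x (s k)))`.
    For `x ∈ L` the inner average is `1`.  For `x ∈ L'`, `x ∉ L` it is `0`: `i ↦ β x i` is a
    nontrivial character of `I`, trivial on `I ⊓ H`; pick `i0` with `β x i0 ≠ 1`; translation by `i0`
    permutes the representatives modulo `I ⊓ H` and so multiplies the sum by `β x i0`, so the sum is `0`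
    (apply `mean_add_right` to `mean I (fun i => β x i)`).
(4) So `mean L' φ = mean L' (g)`, `g = φ` on `L` and `0` on `L' \ L`; use `mean_zero_ext`.
-/

set_option autoImplicit false

namespace Pool.Agent.QD.N2

variable {V : Type*} [AddCommGroup V]

theorem mean_stab {L' L I H : AddSubgroup V} {φ : V → ℂ} {β : V → V → ℂ} (hq : QC L' φ β)
    (hp : Per L' H φ) (hI : I ≤ L') (hI1 : ∀ i ∈ I, φ i = 1)
    (hL : ∀ x, x ∈ L ↔ x ∈ L' ∧ ∀ i ∈ I, β x i = 1) : SP (mean L φ) (mean L' φ) := by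
  classical
  have hφH : ∀ h ∈ H, φ h = 1 := by
    intro h hh
    have h1 := hp.per 0 L'.zero_mem h hh
    rw [zero_add, hq.zero] at h1
    exact h1
  have hβH : ∀ x ∈ L', ∀ h ∈ H, β x h = 1 := by
    intro x hx h hh
    have h1 := hp.per x hx h hh
    rw [hq.add x hx h (hp.le hh), hφH h hh, mul_one] at h1
    exact mul_left_cancel₀ (hq.ne x hx) (by rw [h1, mul_one])
  have hHL : H ≤ L := by
    intro h hh
    rw [hL]
    refine ⟨hp.le hh, fun i hi => ?_⟩
    rw [hq.symm h (hp.le hh) i (hI hi)]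
    exact hβH i (hI hi) h hh
  have hLL : L ≤ L' := fun x hx => ((hL x).mp hx).1
  have hmemadd : ∀ x, ∀ h ∈ H, (x + h ∈ L ↔ x ∈ L) := by
    intro x h hh
    exact L.add_mem_cancel_right (hHL hh)
  -- the extension by zero
  set g : V → ℂ := fun x => if x ∈ L then φ x else 0 with hg
  have hPg : Per L' H g := by
    refine ⟨hp.le, hp.fin, fun x hx h hh => ?_⟩
    simp only [hg]
    by_cases hxL : x ∈ L
    · rw [if_pos hxL, if_pos ((hmemadd x h hh).mpr hxL), hp.per x hx h hh]
    · rw [if_neg hxL, if_neg (fun hc => hxL ((hmemadd x h hh).mp hc))]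
  have hPL : Per L H φ := by
    refine ⟨hHL, ?_, fun x hx h hh => hp.per x (hLL hx) h hh⟩
    exact mt (AddSubgroup.relIndex_eq_zero_of_le_right hLL) hp.fin
  have hz := mean_zero_ext (g := g) hLL hHL hPL hp.fin
    (fun x _ hx => by simp only [hg]; rw [if_neg hx]) (fun x hx => by simp only [hg]; rw [if_pos hx])
  -- finite index of `I ⊓ H` in `I`
  have hfinI : (I ⊓ H).relIndex I ≠ 0 := by
    rw [AddSubgroup.inf_relIndex_left]
    exact mt (AddSubgroup.relIndex_eq_zero_of_le_right hI) hp.fin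
  obtain ⟨κ, hκ, hκn, s, hs⟩ := exists_reps (V := V) (L := I) (H := I ⊓ H) inf_le_left hfinI
  obtain ⟨ι, hι, hιn, r, hr⟩ := exists_reps (V := V) (L := L') (H := H) hp.le hp.fin
  have hcκ : (Fintype.card κ : ℂ) ≠ 0 := by
    exact_mod_cast Fintype.card_ne_zero
  have hcι : (Fintype.card ι : ℂ) ≠ 0 := by
    exact_mod_cast Fintype.card_ne_zero
  -- inner sums
  have hin1 : ∀ x ∈ L, ∑ k, β x (s k) = (Fintype.card κ : ℂ) := by
    intro x hx
    have h1 : ∀ k, β x (s k) = 1 := fun k => ((hL x).mp hx).2 (s k) (hs.mem k)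
    simp [h1]
  have hin0 : ∀ x ∈ L', x ∉ L → ∑ k, β x (s k) = 0 := by
    intro x hx hxL
    obtain ⟨i0, hi0, hne⟩ : ∃ i ∈ I, β x i ≠ 1 := by
      by_contra hcon
      push Not at hcon
      exact hxL ((hL x).mpr ⟨hx, hcon⟩)
    have hPI : Per I (I ⊓ H) (fun y => β x y) := by
      refine ⟨inf_le_left, hfinI, fun y hy h hh => ?_⟩
      rw [hq.bil x hx y (hI hy) h (hp.le hh.2), hβH x hx h hh.2, mul_one]
    have hPI' : Per I (I ⊓ H) (fun y => β x (y + i0)) := by
      refine ⟨inf_le_left, hfinI, fun y hy h hh => ?_⟩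
      have h1 : y + h + i0 = (y + i0) + h := by abel
      rw [h1]
      exact hPI.per (y + i0) (I.add_mem hy hi0) h hh
    have h2 := mean_add_right hPI hi0
    rw [mean_eq hPI' hs, mean_eq hPI hs] at h2
    have h3 : ∑ k, β x (s k + i0) = (∑ k, β x (s k)) * β x i0 := by
      rw [Finset.sum_mul]
      refine Finset.sum_congr rfl fun k _ => ?_
      exact hq.bil x hx (s k) (hI (hs.mem k)) i0 (hI hi0)
    rw [h3, div_left_inj' hcκ] at h2
    have h4 : (∑ k, β x (s k)) * (β x i0 - 1) = 0 := by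
      rw [mul_sub, h2, mul_one, sub_self]
    rcases mul_eq_zero.mp h4 with h5 | h5
    · exact h5
    · exact absurd (sub_eq_zero.mp h5) hne
  -- translation by elements of `I`
  have htr : ∀ i ∈ I, ∑ j, φ (r j) = ∑ j, φ (r j) * β (r j) i := by
    intro i hi
    have hP' : Per L' H (fun x => φ (x + i)) := by
      refine ⟨hp.le, hp.fin, fun x hx h hh => ?_⟩
      have h1 : x + h + i = (x + i) + h := by abel
      rw [h1]
      exact hp.per (x + i) (L'.add_mem hx (hI hi)) h hh
    have h2 := mean_add_right hp (hI hi)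
    rw [mean_eq hP' hr, mean_eq hp hr, div_left_inj' hcι] at h2
    rw [← h2]
    refine Finset.sum_congr rfl fun j _ => ?_
    rw [hq.add (r j) (hr.mem j) i (hI hi), hI1 i hi, mul_one]
  have hsum : (Fintype.card κ : ℂ) * ∑ j, φ (r j) = (Fintype.card κ : ℂ) * ∑ j, g (r j) := by
    calc (Fintype.card κ : ℂ) * ∑ j, φ (r j) = ∑ _k : κ, ∑ j, φ (r j) := by
          rw [Finset.sum_const, Finset.card_univ, nsmul_eq_mul]
      _ = ∑ k : κ, ∑ j, φ (r j) * β (r j) (s k) :=
          Finset.sum_congr rfl fun k _ => htr (s k) (hs.mem k)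
      _ = ∑ j, φ (r j) * ∑ k : κ, β (r j) (s k) := by
          rw [Finset.sum_comm]
          refine Finset.sum_congr rfl fun j _ => ?_
          rw [Finset.mul_sum]
      _ = ∑ j, (Fintype.card κ : ℂ) * g (r j) := by
          refine Finset.sum_congr rfl fun j _ => ?_
          by_cases hj : r j ∈ L
          · rw [hin1 (r j) hj]
            simp only [hg]
            rw [if_pos hj, mul_comm]
          · rw [hin0 (r j) (hr.mem j) hj]
            simp only [hg]
            rw [if_neg hj, mul_zero, mul_zero]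
      _ = (Fintype.card κ : ℂ) * ∑ j, g (r j) := by rw [Finset.mul_sum]
  have hmean : mean L' φ = mean L' g := by
    rw [mean_eq hp hr, mean_eq hPg hr, mul_left_cancel₀ hcκ hsum]
  have hidx : L.relIndex L' ≠ 0 := by
    have h1 := AddSubgroup.relIndex_dvd_of_le_left L' hHL
    intro h0
    rw [h0] at h1
    exact hp.fin (Nat.eq_zero_of_zero_dvd h1)
  refine ⟨(L.relIndex L' : ℝ), by exact_mod_cast Nat.pos_of_ne_zero hidx, ?_⟩
  rw [← hz, hmean, mul_comm]
  push_cast
  rfl

end Pool.Agent.QD.N2
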