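import Pool.Agent.QD.N2.MuProd
import Pool.Agent.QD.N2.Stab

/-!
# QD-N2-MuStab: stabilization of the local Gauss sums

PLAN of `mu_stab`.  `j = ordK v z ≥ 0`.  First `mu v (θ z²) = mean (Rv v j) (fun a => psi v (θ a²))`:
`mean_map` for the additive equivalence `a ↦ z a` of `K`, which maps `Rv v 0` onto `Rv v j`
(`mul_mem_Rv`), as `θ z² a² = θ (z a)²`.  Then `mean_stab` with `L' = Rv v 0`, `L = Rv v j`,
`φ a = psi v (θ a²)`, `β a b = psi v (2 θ a b)`, `I = Rv v m`, `m = -d - ordK v 2 - ordK v θ - j`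
(`ordK v 2` means the order of the unit `2`; note `m ≥ 0` and `ordK v θ + 2 m ≥ -d` by the hypothesis `hdeep` and
`0 ≤ ordK v 2`).
* `φ = 1` on `I`: `θ i² ∈ Rv v (ordK v θ + 2m) ≤ Rv v (-d)`.
* `hL`: for `x ∈ Rv v j`, `i ∈ I`: `2 θ x i ∈ Rv v (-d)`: `β = 1`.  Conversely let `x ∈ Rv v 0` with
  `β x i = 1` for all `i ∈ I` and suppose `x ∉ Rv v j`, so `x ≠ 0` has order `j' < j`; then for every
  `y ∈ Rv v (-d-1)` the element `i = y (2 θ x)⁻¹` has order `≥ -d-1-ordK v 2-ordK v θ-j' ≥ m`, so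
  `psi v y = β x i = 1`, against the second part of `IsCond v d`.
* `Per`: `per_psi`.
`mu_congr`: for `a ∈ Rv v 0`: `θ' a² = θ a² + (θ' - θ) a²`, the last term is in `Rv v 0`; `psi_add`,
`psi_of_mem`, `mean_congr`.
`mu_one`: `θ a² ∈ Rv v (-d)` for `a ∈ Rv v 0`.
-/

set_option autoImplicit false

namespace Pool.Agent.QD.N2

open NumberField IsDedekindDomain Pool.Agent.HWR Pool.Agent.QD

variable {K : Type} [Field K] [NumberField K]

/-- the unit `2` of `K` -/
noncomputable def two' (K : Type) [Field K] [NumberField K] : Kˣ := Units.mk0 2 two_ne_zero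

private theorem ord_two_nonneg (v : HeightOneSpectrum (𝓞 K)) : 0 ≤ ordK v (two' K) := by
  rw [← mem_Rv]
  have h := int_mem_Rv (v := v) (2 : 𝓞 K)
  have h2 : ((two' K : Kˣ) : K) = ((2 : 𝓞 K) : K) := by
    rw [two', Units.val_mk0]
    exact (map_ofNat (algebraMap (𝓞 K) K) 2).symm
  rw [h2]
  exact h

private theorem map_Rv (v : HeightOneSpectrum (𝓞 K)) (z : Kˣ) :
    (Rv v 0 : AddSubgroup K).map (AddAut.mulLeft z : K ≃+ K).toAddMonoidHom =
      Rv v (ordK v z) := by
  ext y
  rw [AddSubgroup.mem_map]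
  constructor
  · rintro ⟨x, hx, rfl⟩
    have h := (mul_mem_Rv (v := v) (x := z) (a := x) (j := 0)).2 hx
    rw [add_zero] at h
    exact h
  · intro hy
    refine ⟨((z⁻¹ : Kˣ) : K) * y, ?_, ?_⟩
    · have h := (mul_mem_Rv (v := v) (x := z⁻¹) (a := y) (j := ordK v z)).2 hy
      rw [ordK_inv, neg_add_cancel] at h
      exact h
    · change (z : K) * (((z⁻¹ : Kˣ) : K) * y) = y
      rw [← mul_assoc, Units.mul_inv, one_mul]

theorem mu_stab (v : HeightOneSpectrum (𝓞 K)) {d : ℤ} (hd : IsCond v d) (θ z : Kˣ)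
    (hz : 0 ≤ ordK v z)
    (hdeep : ordK v θ + d + 2 * ordK v (two' K) + 2 * ordK v z ≤ 0) :
    SP (mu v ((θ : K) * (z : K) ^ 2)) (mu v (θ : K)) := by
  have h2 := ord_two_nonneg (K := K) v
  have h1 : mu v ((θ : K) * (z : K) ^ 2) =
      mean (Rv v (ordK v z)) (fun a => psi v ((θ : K) * a ^ 2)) := by
    rw [← map_Rv, mean_map]
    unfold mu
    congr 1
    funext a
    change psi v ((θ : K) * (z : K) ^ 2 * a ^ 2) = psi v ((θ : K) * ((z : K) * a) ^ 2)
    congr 1
    ring
  rw [h1]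
  obtain ⟨n, hn⟩ := exists_mem_Rv v (θ : K)
  have hθ : (θ : K) ∈ Rv v (ordK v θ) := mem_Rv.2 le_rfl
  have htwo : (2 : K) ∈ Rv v (ordK v (two' K)) := by
    have h := (mem_Rv (v := v) (x := two' K) (j := ordK v (two' K))).2 le_rfl
    rwa [two', Units.val_mk0] at h
  set m : ℤ := -d - ordK v (two' K) - ordK v θ - ordK v z with hm
  have hQC : QC (Rv v 0) (fun a => psi v ((θ : K) * a ^ 2))
      (fun a b => psi v (2 * (θ : K) * a * b)) := by
    refine ⟨?_, ?_, ?_, ?_, ?_⟩
    · apply psi_of_mem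
      have : (θ : K) * 0 ^ 2 = 0 := by ring
      rw [this]
      exact zero_mem _
    · intro x _
      exact psi_ne_zero v _
    · intro x _ y _
      rw [← psi_add, ← psi_add]
      congr 1
      ring
    · intro x _ y _ w _
      rw [← psi_add]
      congr 1
      ring
    · intro x _ y _
      congr 1
      ring
  refine mean_stab (I := Rv v m) hQC (per_psi v hn) (Rv_anti (by linarith)) ?_ ?_
  · intro i hi
    apply hd.1
    have h3 : (θ : K) * i ^ 2 ∈ Rv v (ordK v θ + (m + m)) := by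
      rw [pow_two]
      exact Rv_mul hθ (Rv_mul hi hi)
    exact Rv_anti (by linarith) h3
  · intro x
    constructor
    · intro hx
      refine ⟨Rv_anti hz hx, fun i hi => ?_⟩
      apply hd.1
      have h3 : 2 * (θ : K) * x * i ∈ Rv v (ordK v (two' K) + ordK v θ + ordK v z + m) :=
        Rv_mul (Rv_mul (Rv_mul htwo hθ) hx) hi
      have h4 : ordK v (two' K) + ordK v θ + ordK v z + m = -d := by rw [hm]; ring
      rwa [h4] at h3
    · rintro ⟨_, hx⟩
      by_contra hcon
      have hx0 : x ≠ 0 := by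
        rintro rfl
        exact hcon (zero_mem _)
      set X : Kˣ := Units.mk0 x hx0 with hX
      have hj : ordK v X < ordK v z := by
        by_contra h3
        rw [not_lt] at h3
        exact hcon ((mem_Rv (x := X)).2 h3)
      obtain ⟨y, hy, hy1⟩ := hd.2
      apply hy1
      set U : Kˣ := (two' K * θ * X)⁻¹ with hU
      have hUo : ordK v U = -(ordK v (two' K) + ordK v θ + ordK v X) := by
        rw [hU, ordK_inv, ordK_mul, ordK_mul]
      have h3 : (U : K) * y ∈ Rv v m := by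
        have h4 := (mul_mem_Rv (v := v) (x := U) (a := y) (j := -d - 1)).2 hy
        rw [hUo] at h4
        refine Rv_anti ?_ h4
        rw [hm]
        omega
      have h5 := hx _ h3
      have h6 : 2 * (θ : K) * x * ((U : K) * y) = y := by
        have h7 : 2 * (θ : K) * x = ((two' K * θ * X : Kˣ) : K) := by
          push_cast
          rw [two', Units.val_mk0, hX, Units.val_mk0]
        rw [h7, ← mul_assoc, hU, Units.mul_inv, one_mul]
      change psi v (2 * (θ : K) * x * ((U : K) * y)) = 1 at h5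
      rwa [h6] at h5

theorem mu_congr (v : HeightOneSpectrum (𝓞 K)) {θ θ' : K} (h : θ' - θ ∈ Rv v 0) :
    mu v θ' = mu v θ := by
  unfold mu
  apply mean_congr
  intro a ha
  have h1 : θ' * a ^ 2 = θ * a ^ 2 + (θ' - θ) * (a * a) := by ring
  have h2 : (θ' - θ) * (a * a) ∈ Rv v 0 := by
    have h3 := Rv_mul h (Rv_mul ha ha)
    simpa using h3
  rw [h1, psi_add, psi_of_mem h2, mul_one]

theorem mu_one (v : HeightOneSpectrum (𝓞 K)) {d : ℤ} (hd : IsCond v d) {θ : K}
    (h : θ ∈ Rv v (-d)) : mu v θ = 1 := by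
  unfold mu
  have h1 : mean (Rv v 0) (fun a => psi v (θ * a ^ 2)) = mean (Rv v 0) (fun _ : K => (1 : ℂ)) := by
    apply mean_congr
    intro a ha
    apply hd.1
    have h3 := Rv_mul h (Rv_mul ha ha)
    rw [pow_two]
    simpa using h3
  rw [h1, mean_const]

end Pool.Agent.QD.N2
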