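import Pool.Agent.QD.N2.Res

/-!
# QD-N2-OddPl: local Gauss sums at the places not over 2

Write `κ(θ) = -(ordK v θ + d)`.  As `2 ∉ v`, `ordK v (two' K) = 0`, and `mu_stab` says
`SP (mu v (θ z²)) (mu v θ)` if `0 ≤ ordK v z`, `2 ordK v z ≤ κ(θ)`.
PLAN.
* `red`: for `κ(θ) ≥ 0` and `j` with `0 ≤ 2 j ≤ κ(θ)` choose `p` with `ordK v p = j` (`exists_ordK`):
  `mu v (θ p²) ~ mu v θ`, and `κ(θ p²) = κ(θ) - 2j`.
* `mu_even`: `κ = 2j`: `θ p² ∈ Rv v (-d)`, `mu_one`.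
* `mu_oddsq`: `κ = 2j + 1`: `res_sq` for `θ p²`.
* `mu_oddmul`: `κ(θ) = 2j+1`, `κ(θ z) = 2i+1`, `p` of order `j`, `q` of order `i`: `mu v (θ z) ~ mu v (θ z q²)
  = mu v ((θ p²) (z q² p⁻²))` with `z q² p⁻²` of order `0`; `= uK v (z q² p⁻²) * mu v (θ p²)` (`res_mul`)
  `~ uK v z * mu v θ` (`uK_mul_sq`).
-/

set_option autoImplicit false

namespace Pool.Agent.QD.N2

open NumberField IsDedekindDomain Pool.Agent.HWR Pool.Agent.QD

variable {K : Type} [Field K] [NumberField K]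

theorem ordK_two (v : HeightOneSpectrum (𝓞 K)) (h2 : (2 : 𝓞 K) ∉ v.asIdeal) :
    ordK v (two' K) = 0 := by
  have h3 : (two' K : K) = ((2 : 𝓞 K) : K) := by
    show (2 : K) = ((2 : 𝓞 K) : K)
    exact (map_ofNat (algebraMap (𝓞 K) K) 2).symm
  have h4 : 0 ≤ ordK v (two' K) := by
    rw [← mem_Rv, h3]
    exact int_mem_Rv 2
  have h5 : ¬ ((1 : ℕ) : ℤ) ≤ ordK v (two' K) := by
    rw [← mem_Rv, h3, int_mem_Rv_iff, pow_one]
    exact h2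
  push_cast at h5
  omega

private theorem op_red (v : HeightOneSpectrum (𝓞 K)) (h2 : (2 : 𝓞 K) ∉ v.asIdeal) {d : ℤ}
    (hd : IsCond v d) (θ p : Kˣ) (hp : 0 ≤ ordK v p) (h : ordK v θ + d + 2 * ordK v p ≤ 0) :
    SP (mu v ((θ * p ^ 2 : Kˣ) : K)) (mu v (θ : K)) := by
  have h1 := mu_stab v hd θ p hp (by rw [ordK_two v h2]; linarith)
  rwa [Units.val_mul, Units.val_pow_eq_pow_val]

private theorem op_ord (v : HeightOneSpectrum (𝓞 K)) (θ p : Kˣ) :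
    ordK v (θ * p ^ 2) = ordK v θ + 2 * ordK v p := by
  rw [ordK_mul, ordK_pow]
  push_cast
  ring

theorem mu_even (v : HeightOneSpectrum (𝓞 K)) (h2 : (2 : 𝓞 K) ∉ v.asIdeal) {d : ℤ}
    (hd : IsCond v d) (θ : Kˣ) (hθ : ordK v θ + d ≤ 0) (he : Even (ordK v θ + d)) :
    SP (mu v (θ : K)) 1 := by
  obtain ⟨j, hj⟩ := he
  obtain ⟨p, hp⟩ := exists_ordK v (-j)
  have h1 := op_red v h2 hd θ p (by omega) (by omega)
  have h3 : mu v ((θ * p ^ 2 : Kˣ) : K) = 1 := by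
    refine mu_one v hd ?_
    rw [mem_Rv, op_ord]
    omega
  rw [h3] at h1
  exact h1.symm

theorem mu_oddsq (v : HeightOneSpectrum (𝓞 K)) (h2 : (2 : 𝓞 K) ∉ v.asIdeal) {d : ℤ}
    (hd : IsCond v d) (θ : Kˣ) (hθ : ordK v θ + d ≤ 0) (ho : Odd (ordK v θ + d)) :
    SP (mu v (θ : K) ^ 2) ((uK v (-1 : Kˣ) : ℤ) : ℂ) := by
  obtain ⟨j, hj⟩ := ho
  obtain ⟨p, hp⟩ := exists_ordK v (-j - 1)
  have h1 := op_red v h2 hd θ p (by omega) (by omega)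
  have h3 := res_sq v h2 hd (θ * p ^ 2) (by rw [op_ord]; omega)
  have h4 := (h1.symm.mul h1.symm)
  rw [← sq, ← sq] at h4
  exact h4.trans h3

theorem mu_oddmul (v : HeightOneSpectrum (𝓞 K)) (h2 : (2 : 𝓞 K) ∉ v.asIdeal) {d : ℤ}
    (hd : IsCond v d) (θ z : Kˣ) (hθ : ordK v θ + d ≤ 0) (ho : Odd (ordK v θ + d))
    (hz : Even (ordK v z)) (hθz : ordK v θ + ordK v z + d ≤ 0) :
    SP (mu v ((θ * z : Kˣ) : K)) (((uK v z : ℤ) : ℂ) * mu v (θ : K)) := by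
  obtain ⟨j, hj⟩ := ho
  obtain ⟨i, hi⟩ := hz
  obtain ⟨p, hp⟩ := exists_ordK v (-j - 1)
  obtain ⟨q, hq⟩ := exists_ordK v (-j - i - 1)
  have hoz : ordK v (θ * z) = ordK v θ + ordK v z := ordK_mul θ z
  have h1 := op_red v h2 hd θ p (by omega) (by omega)
  have h3 := op_red v h2 hd (θ * z) q (by omega) (by omega)
  have hz' : ordK v (z * (q * p⁻¹) ^ 2) = 0 := by
    rw [op_ord, ordK_mul, ordK_inv]
    omega
  have h4 := res_mul v h2 hd (θ * p ^ 2) (z * (q * p⁻¹) ^ 2) (by rw [op_ord]; omega) hz'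
  rw [← Units.val_mul, uK_mul_sq] at h4
  have e : θ * p ^ 2 * (z * (q * p⁻¹) ^ 2) = θ * z * q ^ 2 := by
    rw [mul_pow, inv_pow]
    calc θ * p ^ 2 * (z * (q ^ 2 * (p ^ 2)⁻¹)) = θ * z * q ^ 2 * (p ^ 2 * (p ^ 2)⁻¹) := by
          simp only [mul_assoc, mul_comm, mul_left_comm]
      _ = θ * z * q ^ 2 := by rw [mul_inv_cancel, mul_one]
  rw [e] at h4
  rw [h4] at h3
  exact h3.symm.trans ((SP.refl _).mul h1)

end Pool.Agent.QD.N2
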