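import Pool.Agent.QD.KDefs
import Pool.Agent.QD.N3.Basic
import Pool.Agent.QD.N2.Ee

/-!
# QD-N2-OrdA: orders at finite places

`ordK v x = - log (v.valuation K x)`.  All proofs are short, from the API of
`HeightOneSpectrum.valuation` (`Mathlib/RingTheory/DedekindDomain/AdicValuation.lean`) and of
`WithZero.log`, `WithZero.exp` (`WithZero.exp_log`, `WithZero.log_le_iff_le_exp`, ...).
-/

set_option autoImplicit false

namespace Pool.Agent.QD.N2

open NumberField IsDedekindDomain Pool.Agent.HWR Pool.Agent.QD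

variable {K : Type} [Field K] [NumberField K] (v : HeightOneSpectrum (𝓞 K))

/-- elements of order at least `j` at `v` -/
noncomputable def Rv (j : ℤ) : AddSubgroup K where
  carrier := {a | v.valuation K a ≤ WithZero.exp (-j)}
  add_mem' := by
    intro a b ha hb
    exact (v.valuation K).map_add_le ha hb
  zero_mem' := by
    change v.valuation K 0 ≤ _
    rw [map_zero]
    exact zero_le
  neg_mem' := by
    intro a ha
    change v.valuation K (-a) ≤ _
    rw [Valuation.map_neg]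
    exact ha

variable {v}

theorem ordK_mul (x y : Kˣ) : ordK v (x * y) = ordK v x + ordK v y :=
  Pool.Agent.QD.ordK_mul v x y

theorem ordK_one : ordK v (1 : Kˣ) = 0 := Pool.Agent.QD.ordK_one v

theorem ordK_inv (x : Kˣ) : ordK v x⁻¹ = -ordK v x := Pool.Agent.QD.ordK_inv v x

theorem ordK_neg_one : ordK v (-1 : Kˣ) = 0 := Pool.Agent.QD.ordK_neg_one v

theorem ordK_pow (x : Kˣ) (n : ℕ) : ordK v (x ^ n) = n * ordK v x := Pool.Agent.QD.ordK_pow v x n

theorem ordK_zpow (x : Kˣ) (n : ℤ) : ordK v (x ^ n) = n * ordK v x := Pool.Agent.QD.ordK_zpow v x n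

private theorem oa_mem {a : K} {j : ℤ} : a ∈ Rv v j ↔ v.valuation K a ≤ WithZero.exp (-j) := Iff.rfl

theorem mem_Rv {x : Kˣ} {j : ℤ} : (x : K) ∈ Rv v j ↔ j ≤ ordK v x := by
  rw [oa_mem, val_eq_exp, WithZero.exp_le_exp]
  omega

theorem Rv_mul {a b : K} {i j : ℤ} (ha : a ∈ Rv v i) (hb : b ∈ Rv v j) : a * b ∈ Rv v (i + j) := by
  rw [oa_mem] at *
  rw [map_mul, show -(i + j) = -i + -j by ring, WithZero.exp_add]
  exact mul_le_mul' ha hb

theorem Rv_anti {i j : ℤ} (h : i ≤ j) : (Rv v j : AddSubgroup K) ≤ Rv v i := by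
  intro a ha
  rw [oa_mem] at *
  refine ha.trans ?_
  rw [WithZero.exp_le_exp]
  omega

/-- multiplication by a unit of order `i` maps `Rv j` onto `Rv (i + j)` -/
theorem mul_mem_Rv {x : Kˣ} {a : K} {j : ℤ} :
    (x : K) * a ∈ Rv v (ordK v x + j) ↔ a ∈ Rv v j := by
  constructor
  · intro h
    have h1 : ((x⁻¹ : Kˣ) : K) ∈ Rv v (-ordK v x) := by
      rw [mem_Rv, ordK_inv]
    have h2 := Rv_mul h1 h
    rw [← mul_assoc, Units.inv_mul, one_mul, neg_add_cancel_left] at h2
    exact h2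
  · intro h
    exact Rv_mul (mem_Rv.2 le_rfl) h

theorem int_mem_Rv (a : 𝓞 K) : (a : K) ∈ Rv v 0 := by
  rw [oa_mem, neg_zero, WithZero.exp_zero]
  exact v.valuation_le_one a

theorem int_mem_Rv_iff (a : 𝓞 K) (n : ℕ) : (a : K) ∈ Rv v n ↔ a ∈ v.asIdeal ^ n := by
  by_cases ha : a = 0
  · subst ha
    constructor
    · intro _
      exact Submodule.zero_mem _
    · intro _
      have h0 : ((0 : 𝓞 K) : K) = 0 := map_zero _
      rw [h0]
      exact (Rv v (n : ℤ)).zero_mem
  · have ha' : (a : K) ≠ 0 := by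
      intro h
      exact ha (RingOfIntegers.ext h)
    have h1 := le_ordK_iff_of_int v (Units.mk0 (a : K) ha') a rfl n
    rw [← h1, ← mem_Rv]
    rfl

/-- `closeOne` in terms of `Rv` -/
theorem closeOne_iff {x : K} {k : ℕ} : closeOne v k x ↔ x - 1 ∈ Rv v k := Iff.rfl

theorem exists_ordK (v : HeightOneSpectrum (𝓞 K)) (n : ℤ) : ∃ x : Kˣ, ordK v x = n := by
  obtain ⟨π, hπ⟩ := v.valuation_exists_uniformizer K
  have hπ0 : π ≠ 0 := by
    rintro rfl
    rw [map_zero] at hπ
    exact (WithZero.exp_ne_zero hπ.symm)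
  have h1 : ordK v (Units.mk0 π hπ0) = 1 := by
    rw [ordK_eq_iff]
    exact hπ
  exact ⟨Units.mk0 π hπ0 ^ n, by rw [ordK_zpow, h1, mul_one]⟩

/-- if `y - x` has larger order than `x` then `x`, `y` have the same order -/
theorem ordK_eq_of_close {x y : Kˣ} (h : (y : K) - x ∈ Rv v (ordK v x + 1)) :
    ordK v y = ordK v x := by
  have h1 : v.valuation K ((y : K) - x) < v.valuation K (x : K) := by
    refine lt_of_le_of_lt (oa_mem.1 h) ?_
    rw [val_eq_exp, WithZero.exp_lt_exp]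
    omega
  have h2 : v.valuation K (y : K) = v.valuation K (x : K) := by
    have h3 := Valuation.map_add_eq_of_lt_left (v.valuation K) h1
    rwa [add_sub_cancel] at h3
  unfold ordK
  rw [h2]

/-- every nonzero element of `K` is in some `Rv`, `0` is in all -/
theorem exists_mem_Rv (v : HeightOneSpectrum (𝓞 K)) (a : K) : ∃ n : ℕ, a ∈ Rv v (-(n : ℤ)) := by
  by_cases ha : a = 0
  · exact ⟨0, ha ▸ (Rv v _).zero_mem⟩
  · refine ⟨(-ordK v (Units.mk0 a ha)).toNat, ?_⟩
    have h1 : ((Units.mk0 a ha : Kˣ) : K) ∈ Rv v (-((-ordK v (Units.mk0 a ha)).toNat : ℤ)) := by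
      rw [mem_Rv]
      omega
    exact h1

theorem exists_int_of_forall {a : K} (h : ∀ v : HeightOneSpectrum (𝓞 K), a ∈ Rv v 0) :
    ∃ b : 𝓞 K, (b : K) = a := by
  obtain ⟨b, hb⟩ := HeightOneSpectrum.mem_integers_of_valuation_le_one K a fun v => by
    have h1 := oa_mem.1 (h v)
    rwa [neg_zero, WithZero.exp_zero] at h1
  exact ⟨b, hb⟩

theorem finite_not_mem (a : K) : {v : HeightOneSpectrum (𝓞 K) | a ∉ Rv v 0}.Finite := by
  by_cases ha : a = 0
  · refine Set.Finite.subset Set.finite_empty ?_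
    intro v hv
    exact hv (ha ▸ (Rv v 0).zero_mem)
  · refine (ordK_finite (Units.mk0 a ha)).subset ?_
    intro v hv h0
    apply hv
    have h1 : ((Units.mk0 a ha : Kˣ) : K) ∈ Rv v 0 := by
      rw [mem_Rv, h0]
    exact h1

theorem finite_ord (x : Kˣ) : {v : HeightOneSpectrum (𝓞 K) | ordK v x ≠ 0}.Finite :=
  ordK_finite x

end Pool.Agent.QD.N2
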