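import Pool.Agent.QD.N2.OrdA

/-!
# QD-N2-OrdB: approximation, finite index
-/

set_option autoImplicit false

namespace Pool.Agent.QD.N2

open NumberField IsDedekindDomain Pool.Agent.HWR Pool.Agent.QD

variable {K : Type} [Field K] [NumberField K] {v : HeightOneSpectrum (𝓞 K)}

/-- Strong approximation: local integers at finitely many places are approximated by global
integers.  PLAN: first approximate each `a v` by a global integer at `v`
(`HeightOneSpectrum.exists_valuation_sub_lt_of_integer`), then the Chinese remainder theorem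
`IsDedekindDomain.exists_forall_sub_mem_ideal` (exponents `k`). -/
theorem approx (s : Finset (HeightOneSpectrum (𝓞 K))) (a : HeightOneSpectrum (𝓞 K) → K)
    (ha : ∀ v ∈ s, a v ∈ Rv v 0) (k : ℕ) : ∃ b : 𝓞 K, ∀ v ∈ s, (b : K) - a v ∈ Rv v k := by
  classical
  have h1 : ∀ v : s, ∃ c : 𝓞 K, (c : K) - a v.1 ∈ Rv v.1 k := by
    rintro ⟨v, hv⟩
    have h2 : v.valuation K (a v) ≤ 1 := by
      have h3 : v.valuation K (a v) ≤ WithZero.exp (-(0 : ℤ)) := ha v hv
      rwa [neg_zero, WithZero.exp_zero] at h3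
    obtain ⟨c, hc⟩ := v.exists_valuation_sub_lt_of_integer (K := K) h2
      (Units.mk0 (WithZero.exp (-(k : ℤ))) WithZero.exp_ne_zero)
    exact ⟨c, hc.le⟩
  choose c hc using h1
  obtain ⟨b, hb⟩ := IsDedekindDomain.exists_forall_sub_mem_ideal (s := s)
    (fun v : HeightOneSpectrum (𝓞 K) => v.asIdeal) (fun _ => k) (fun v _ => v.prime)
    (fun v _ w _ hvw h => hvw (HeightOneSpectrum.ext h)) c
  refine ⟨b, fun v hv => ?_⟩
  have h4 : ((b - c ⟨v, hv⟩ : 𝓞 K) : K) ∈ Rv v k := (int_mem_Rv_iff _ _).2 (hb v hv)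
  have h5 := (Rv v (k : ℤ)).add_mem h4 (hc ⟨v, hv⟩)
  have h6 : ((b - c ⟨v, hv⟩ : 𝓞 K) : K) = (b : K) - (c ⟨v, hv⟩ : K) := map_sub (algebraMap (𝓞 K) K) _ _
  rw [h6, sub_add_sub_cancel] at h5
  exact h5

/-- quotients are finite: `Rv v j` has finite index in `Rv v i` for `i ≤ j`.  PLAN: multiply by an
element of order `-i` to reduce to `i = 0`; `𝓞 K → Rv v 0 ⧸ Rv v n` is surjective (`approx`) with
kernel `v ^ n`, and `𝓞 K ⧸ v ^ n` is finite. -/
theorem relIndex_Rv_ne_zero {i j : ℤ} (h : i ≤ j) :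
    (Rv v j : AddSubgroup K).relIndex (Rv v i) ≠ 0 := by
  classical
  obtain ⟨n, hn⟩ : ∃ n : ℕ, j = i + n := ⟨(j - i).toNat, by omega⟩
  obtain ⟨x, hx⟩ := exists_ordK v i
  have hfin : Finite (𝓞 K ⧸ v.asIdeal ^ n) :=
    Ideal.finiteQuotientOfFreeOfNeBot _ (pow_ne_zero n v.ne_bot)
  have hmem : ∀ a : 𝓞 K, (x : K) * (a : K) ∈ Rv v i := by
    intro a
    have h1 := (mul_mem_Rv (v := v) (x := x) (a := (a : K)) (j := 0)).2 (int_mem_Rv a)
    rwa [hx, add_zero] at h1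
  obtain ⟨F, hF⟩ : ∃ F : (𝓞 K ⧸ v.asIdeal ^ n) → (Rv v i) ⧸ (Rv v j).addSubgroupOf (Rv v i),
      ∀ c, F c = QuotientAddGroup.mk ⟨(x : K) * ((Quotient.out c : 𝓞 K) : K), hmem _⟩ :=
    ⟨_, fun _ => rfl⟩
  have hsurj : Function.Surjective F := by
    intro q
    obtain ⟨⟨y, hy⟩, rfl⟩ := QuotientAddGroup.mk_surjective q
    have h2 : ((x⁻¹ : Kˣ) : K) * y ∈ Rv v 0 := by
      have h3 := (mul_mem_Rv (v := v) (x := x⁻¹) (a := y) (j := i)).2 hy
      rwa [ordK_inv, hx, neg_add_cancel] at h3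
    obtain ⟨b, hb⟩ := approx {v} (fun _ => ((x⁻¹ : Kˣ) : K) * y)
      (fun w hw => by rw [Finset.mem_singleton] at hw; subst hw; exact h2) n
    have hb' := hb v (Finset.mem_singleton_self v)
    refine ⟨Ideal.Quotient.mk _ b, ?_⟩
    rw [hF, QuotientAddGroup.eq, AddSubgroup.mem_addSubgroupOf]
    have h4 : Ideal.Quotient.mk (v.asIdeal ^ n) (Quotient.out (Ideal.Quotient.mk (v.asIdeal ^ n) b) : 𝓞 K)
        = Ideal.Quotient.mk (v.asIdeal ^ n) b := Quotient.out_eq _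
    obtain ⟨o, ho⟩ : ∃ o, o = (Quotient.out (Ideal.Quotient.mk (v.asIdeal ^ n) b) : 𝓞 K) := ⟨_, rfl⟩
    rw [← ho] at h4 ⊢
    rw [Ideal.Quotient.eq, ← int_mem_Rv_iff] at h4
    have h5 : ((o - b : 𝓞 K) : K) = (o : K) - (b : K) := map_sub (algebraMap (𝓞 K) K) _ _
    rw [h5] at h4
    have h6 := (Rv v (n : ℤ)).add_mem h4 hb'
    rw [sub_add_sub_cancel] at h6
    have h7 := (mul_mem_Rv (v := v) (x := x)).2 h6
    rw [hx, ← hn, mul_sub, ← mul_assoc, Units.mul_inv, one_mul] at h7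
    have h8 := (Rv v j).neg_mem h7
    rw [neg_sub] at h8
    change -((x : K) * (o : K)) + y ∈ Rv v j
    rwa [neg_add_eq_sub]
  have hQ : Finite ((Rv v i) ⧸ (Rv v j).addSubgroupOf (Rv v i)) := Finite.of_surjective F hsurj
  exact AddSubgroup.index_ne_zero_of_finite (H := (Rv v j).addSubgroupOf (Rv v i))

end Pool.Agent.QD.N2
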