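import Pool.Agent.QD.N2.UK
import Pool.Agent.QD.N2.MuStab
import Pool.Agent.QD.N2.MeanA

/-!
# QD-N2-Res: Gauss sums over the residue field

PLAN.  `k = 𝓞 K ⧸ v.asIdeal` is a finite field of odd characteristic (`2 ∉ v`), with `N` elements.
(1) `mu v θ = (1/N) ∑_{c ∈ k} Ψ(c²)`, where `Ψ : AddChar k ℂ`, `Ψ (mk c) = psi v (θ c)` (well defined:
`c ∈ v` gives `θ c ∈ Rv v (-d)`, `psi = 1`): the function `a ↦ psi v (θ a²)` on `Rv v 0` has the period group
`Rv v 1` (`θ (2 a h + h²) ∈ Rv v (-d)`), and `c ↦ (Quotient.out c : 𝓞 K)` is a system of representatives of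
`Rv v 0` modulo `Rv v 1` (`approx`, `int_mem_Rv_iff`); `mean_eq`.
(2) `Ψ` is nontrivial (second part of `IsCond`: `z ∈ Rv v (-d-1)`, `z = θ a`, `a ∈ Rv v 0`, replace `a` by an
integer `c` with `a - c ∈ Rv v 1`), so it is primitive (`AddChar.IsPrimitive.of_ne_one` for fields).
(3) `∑_{c} Ψ(c²) = ∑_b (1 + χ(b)) Ψ(b) = gaussSum χ Ψ`, `χ` the quadratic character with values in `ℂ`
(number of square roots of `b` is `1 + χ b`: `quadraticChar_card_sqrts`; `∑_b Ψ b = 0`).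
(4) `gaussSum_sq`: `gaussSum χ Ψ ^ 2 = χ(-1) N`, so `mu v θ ^ 2 = χ(-1)/N`; `χ(-1) = uK v (-1)` (`uK_eq_one_iff`).
(5) for `z` of order `0` with residue `c ≠ 0`: the character of `θ z` is `b ↦ Ψ(c b)` and
`gaussSum χ (Ψ (c ·)) = χ(c)⁻¹ gaussSum χ Ψ = χ(c) gaussSum χ Ψ` (`gaussSum_mulShift`), `χ(c) = uK v z`.
-/

set_option autoImplicit false

namespace Pool.Agent.QD.N2

open NumberField IsDedekindDomain Pool.Agent.HWR Pool.Agent.QD

variable {K : Type} [Field K] [NumberField K]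

/-! ### finite fields -/

section FF

variable {F : Type*} [Field F] [Fintype F] [DecidableEq F]

private noncomputable def qc (F : Type*) [Field F] [Fintype F] [DecidableEq F] : MulChar F ℂ :=
  (quadraticChar F).ringHomComp (Int.castRingHom ℂ)

private theorem qc_apply (a : F) : qc F a = ((quadraticChar F a : ℤ) : ℂ) := rfl

private theorem qc_ne_one (hF : ringChar F ≠ 2) : qc F ≠ 1 := by
  obtain ⟨a, ha⟩ := quadraticChar_exists_neg_one' hF
  intro h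
  have h1 : qc F a = 1 := by
    rw [h, MulChar.one_apply_coe]
  rw [qc_apply, ha] at h1
  norm_num at h1

private theorem qc_quad : (qc F).IsQuadratic := by
  intro a
  rw [qc_apply]
  rcases quadraticChar_isQuadratic F a with h | h | h
  · left; rw [h]; simp
  · right; left; rw [h]; simp
  · right; right; rw [h]; simp

private theorem sum_sq (hF : ringChar F ≠ 2) {Ψ : AddChar F ℂ} (hΨ : Ψ ≠ 1) :
    ∑ c : F, Ψ (c ^ 2) = gaussSum (qc F) Ψ := by
  have h1 : ∑ c : F, Ψ (c ^ 2) = ∑ b : F, ((quadraticChar F b : ℤ) + 1 : ℂ) * Ψ b := by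
    rw [← Finset.sum_fiberwise' Finset.univ (fun c : F => c ^ 2) (fun b => Ψ b)]
    refine Finset.sum_congr rfl fun b _ => ?_
    rw [Finset.sum_const, nsmul_eq_mul]
    congr 1
    have h2 := quadraticChar_card_sqrts hF b
    have h3 : (Finset.univ.filter fun c : F => c ^ 2 = b) = {x : F | x ^ 2 = b}.toFinset := by
      ext x
      simp
    rw [h3]
    exact_mod_cast congrArg (fun z : ℤ => (z : ℂ)) h2
  rw [h1]
  simp only [add_mul, one_mul, Finset.sum_add_distrib]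
  rw [AddChar.sum_eq_zero_of_ne_one hΨ, add_zero]
  rfl

private theorem sum_sq_sq (hF : ringChar F ≠ 2) {Ψ : AddChar F ℂ} (hΨ : Ψ ≠ 1) :
    (∑ c : F, Ψ (c ^ 2)) ^ 2 = ((quadraticChar F (-1) : ℤ) : ℂ) * (Fintype.card F : ℂ) := by
  rw [sum_sq hF hΨ, gaussSum_sq (qc_ne_one hF) qc_quad (AddChar.IsPrimitive.of_ne_one hΨ)]
  rfl

private theorem sum_sq_shift (hF : ringChar F ≠ 2) {Ψ : AddChar F ℂ} (hΨ : Ψ ≠ 1) {a : F}
    (ha : a ≠ 0) :
    ∑ c : F, Ψ (a * c ^ 2) = ((quadraticChar F a : ℤ) : ℂ) * ∑ c : F, Ψ (c ^ 2) := by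
  have hp := AddChar.IsPrimitive.of_ne_one hΨ
  have h1 : ∑ c : F, Ψ (a * c ^ 2) = gaussSum (qc F) (AddChar.mulShift Ψ a) := by
    rw [← sum_sq hF (hp ha)]
    rfl
  have h2 := gaussSum_mulShift (qc F) Ψ (Units.mk0 a ha)
  rw [Units.val_mk0] at h2
  rw [h1, sum_sq hF hΨ, ← h2, ← mul_assoc, ← qc_apply]
  rcases quadraticChar_dichotomy ha with h | h
  · rw [qc_apply, h]; simp
  · rw [qc_apply, h]; simp

end FF

/-! ### residue characters -/

section Loc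

variable {v : HeightOneSpectrum (𝓞 K)} {θ : K}

private theorem psi_congr (h1 : ∀ a ∈ Rv v 1, psi v (θ * a) = 1) {a b : K}
    (h : a - b ∈ Rv v 1) : psi v (θ * a) = psi v (θ * b) := by
  have h2 : θ * a = θ * b + θ * (a - b) := by ring
  rw [h2, psi_add, h1 _ h, mul_one]

private theorem int_mem_one {a : 𝓞 K} : (a : K) ∈ Rv v 1 ↔ a ∈ v.asIdeal := by
  have h := int_mem_Rv_iff (v := v) a 1
  rw [pow_one] at h
  exact h

private theorem out_sub (a : 𝓞 K) :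
    ((Quotient.out (Ideal.Quotient.mk v.asIdeal a) : 𝓞 K) : K) - (a : K) ∈ Rv v 1 := by
  rw [← map_sub, int_mem_one, ← Ideal.Quotient.eq]
  exact Quotient.out_eq _

private noncomputable def rch (v : HeightOneSpectrum (𝓞 K)) (θ : K)
    (h1 : ∀ a ∈ Rv v 1, psi v (θ * a) = 1) : AddChar (𝓞 K ⧸ v.asIdeal) ℂ where
  toFun c := psi v (θ * ((Quotient.out c : 𝓞 K) : K))
  map_zero_eq_one' := by
    refine h1 _ ?_
    have h := out_sub (v := v) 0
    rw [map_zero, show ((0 : 𝓞 K) : K) = 0 from map_zero (algebraMap (𝓞 K) K), sub_zero] at h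
    exact h
  map_add_eq_mul' := by
    intro a b
    obtain ⟨a, rfl⟩ := Ideal.Quotient.mk_surjective a
    obtain ⟨b, rfl⟩ := Ideal.Quotient.mk_surjective b
    rw [← map_add, psi_congr h1 (out_sub (a + b)), psi_congr h1 (out_sub a),
      psi_congr h1 (out_sub b), show ((a + b : 𝓞 K) : K) = (a : K) + (b : K) from
        map_add (algebraMap (𝓞 K) K) a b, mul_add, psi_add]

private theorem rch_mk (h1 : ∀ a ∈ Rv v 1, psi v (θ * a) = 1) (a : 𝓞 K) :
    rch v θ h1 (Ideal.Quotient.mk _ a) = psi v (θ * a) := psi_congr h1 (out_sub a)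

private theorem mul_int {a : K} (b : 𝓞 K) (h : a ∈ Rv v 1) : a * b ∈ Rv v 1 := by
  have h2 := Rv_mul h (int_mem_Rv (v := v) b)
  simpa using h2

private theorem approx_one {a : K} (ha : a ∈ Rv v 0) : ∃ b : 𝓞 K, (b : K) - a ∈ Rv v 1 := by
  obtain ⟨b, hb⟩ := approx {v} (fun _ => a) (fun w hw => by
    rw [Finset.mem_singleton] at hw
    rw [hw]
    exact ha) 1
  exact ⟨b, hb v (Finset.mem_singleton_self v)⟩

private theorem mu_eq [Fintype (𝓞 K ⧸ v.asIdeal)] (h1 : ∀ a ∈ Rv v 1, psi v (θ * a) = 1) :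
    mu v θ = (∑ c : 𝓞 K ⧸ v.asIdeal, rch v θ h1 (c ^ 2)) /
      (Fintype.card (𝓞 K ⧸ v.asIdeal) : ℂ) := by
  have hper : Per (Rv v 0) (Rv v 1) (fun a => psi v (θ * a ^ 2)) := by
    refine ⟨Rv_anti (by norm_num), relIndex_Rv_ne_zero (by norm_num), ?_⟩
    intro x hx h hh
    refine psi_congr h1 ?_
    have e : (x + h) ^ 2 - x ^ 2 = h * (x + x + h) := by ring
    rw [e]
    have h2 : x + x + h ∈ Rv v 0 :=
      (Rv v 0).add_mem ((Rv v 0).add_mem hx hx) (Rv_anti (by norm_num) hh)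
    simpa using Rv_mul hh h2
  have hreps : Reps (Rv v 0) (Rv v 1)
      (fun c : 𝓞 K ⧸ v.asIdeal => ((Quotient.out c : 𝓞 K) : K)) := by
    refine ⟨fun i => int_mem_Rv _, ?_, ?_⟩
    · intro x hx
      obtain ⟨b, hb⟩ := approx_one hx
      refine ⟨Ideal.Quotient.mk _ b, ?_⟩
      have h2 := (Rv v 1).add_mem (out_sub b) hb
      have h3 := (Rv v 1).neg_mem h2
      have e : -((((Quotient.out (Ideal.Quotient.mk v.asIdeal b) : 𝓞 K) : K) - (b : K)) +
        ((b : K) - x)) = x - ((Quotient.out (Ideal.Quotient.mk v.asIdeal b) : 𝓞 K) : K) := by ring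
      rw [e] at h3
      exact h3
    · intro i j hij
      rw [← map_sub, int_mem_one, ← Ideal.Quotient.eq] at hij
      have hi : Ideal.Quotient.mk v.asIdeal (Quotient.out i : 𝓞 K) = i := Quotient.out_eq i
      have hj : Ideal.Quotient.mk v.asIdeal (Quotient.out j : 𝓞 K) = j := Quotient.out_eq j
      rw [← hi, ← hj]
      exact hij
  unfold mu
  rw [mean_eq hper hreps]
  congr 1
  refine Finset.sum_congr rfl fun c _ => ?_
  obtain ⟨b, rfl⟩ := Ideal.Quotient.mk_surjective c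
  rw [← map_pow (Ideal.Quotient.mk v.asIdeal) b 2, rch_mk,
    show ((b ^ 2 : 𝓞 K) : K) = (b : K) ^ 2 from map_pow (algebraMap (𝓞 K) K) b 2]
  refine psi_congr h1 ?_
  have e : ((Quotient.out (Ideal.Quotient.mk v.asIdeal b) : 𝓞 K) : K) ^ 2 - (b : K) ^ 2 =
      (((Quotient.out (Ideal.Quotient.mk v.asIdeal b) : 𝓞 K) : K) - (b : K)) *
        (((Quotient.out (Ideal.Quotient.mk v.asIdeal b) + b : 𝓞 K) : K)) := by
    rw [show ((Quotient.out (Ideal.Quotient.mk v.asIdeal b) + b : 𝓞 K) : K) =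
      ((Quotient.out (Ideal.Quotient.mk v.asIdeal b) : 𝓞 K) : K) + (b : K) from
        map_add (algebraMap (𝓞 K) K) _ _]
    ring
  rw [e]
  exact mul_int _ (out_sub b)

end Loc

private theorem triv_one {v : HeightOneSpectrum (𝓞 K)} {d : ℤ} (hd : IsCond v d) {θ : Kˣ}
    (hθ : ordK v θ = -d - 1) : ∀ a ∈ Rv v 1, psi v ((θ : K) * a) = 1 := by
  intro a ha
  refine hd.1 _ ?_
  have h := (mul_mem_Rv (v := v) (x := θ) (a := a) (j := 1)).2 ha
  rw [hθ] at h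
  simpa using h

private theorem rch_ne_one {v : HeightOneSpectrum (𝓞 K)} {d : ℤ} (hd : IsCond v d) {θ : Kˣ}
    (hθ : ordK v θ = -d - 1) : rch v (θ : K) (triv_one hd hθ) ≠ 1 := by
  intro hone
  obtain ⟨z, hz, hz1⟩ := hd.2
  apply hz1
  have e : (θ : K) * ((θ : K)⁻¹ * z) = z := by
    rw [← mul_assoc, mul_inv_cancel₀ θ.ne_zero, one_mul]
  have ha : (θ : K)⁻¹ * z ∈ Rv v 0 := by
    rw [← mul_mem_Rv (x := θ), e, hθ]
    simpa using hz
  obtain ⟨b, hb⟩ := approx_one ha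
  rw [← e, ← psi_congr (triv_one hd hθ) hb, ← rch_mk (triv_one hd hθ), hone]
  rfl

private theorem finite_k (v : HeightOneSpectrum (𝓞 K)) : Finite (𝓞 K ⧸ v.asIdeal) := by
  rw [← Ideal.absNorm_ne_zero_iff, Ne, Ideal.absNorm_eq_zero_iff]
  exact v.ne_bot

private theorem char_k (v : HeightOneSpectrum (𝓞 K)) (h2 : (2 : 𝓞 K) ∉ v.asIdeal) :
    ringChar (𝓞 K ⧸ v.asIdeal) ≠ 2 := by
  intro h
  apply h2
  rw [← Ideal.Quotient.eq_zero_iff_mem]
  have h3 := (ringChar.spec (𝓞 K ⧸ v.asIdeal) 2).2 (by rw [h])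
  rw [map_ofNat]
  exact_mod_cast h3

private theorem res_ne_zero {v : HeightOneSpectrum (𝓞 K)} {z : Kˣ} (hz : ordK v z = 0)
    {c : 𝓞 K} (hc : (c : K) - z ∈ Rv v 1) : Ideal.Quotient.mk v.asIdeal c ≠ 0 := by
  intro h
  rw [Ideal.Quotient.eq_zero_iff_mem, ← int_mem_one] at h
  have h3 := (Rv v 1).sub_mem h hc
  rw [sub_sub_cancel, mem_Rv, hz] at h3
  exact absurd h3 (by norm_num)

private theorem res_square {v : HeightOneSpectrum (𝓞 K)} {z : Kˣ} (hz : ordK v z = 0)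
    {c : 𝓞 K} (hc : (c : K) - z ∈ Rv v 1) :
    uK v z = 1 ↔ IsSquare (Ideal.Quotient.mk v.asIdeal c) := by
  rw [uK_eq_one_iff hz hc]
  constructor
  · rintro ⟨s, hs⟩
    refine ⟨Ideal.Quotient.mk _ s, ?_⟩
    rw [← map_mul, eq_comm, Ideal.Quotient.eq, ← pow_two]
    exact hs
  · rintro ⟨r, hr⟩
    obtain ⟨s, rfl⟩ := Ideal.Quotient.mk_surjective r
    refine ⟨s, ?_⟩
    rw [← map_mul, eq_comm, Ideal.Quotient.eq, ← pow_two] at hr
    exact hr

private theorem uK_eq_char {v : HeightOneSpectrum (𝓞 K)} {z : Kˣ} (hz : ordK v z = 0)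
    {c : 𝓞 K} (hc : (c : K) - z ∈ Rv v 1) [Fintype (𝓞 K ⧸ v.asIdeal)]
    [DecidableEq (𝓞 K ⧸ v.asIdeal)] :
    uK v z = @quadraticChar (𝓞 K ⧸ v.asIdeal) (Ideal.Quotient.field v.asIdeal) _ _
      (Ideal.Quotient.mk v.asIdeal c) := by
  letI := Ideal.Quotient.field v.asIdeal
  have hne := res_ne_zero hz hc
  have h1 := res_square hz hc
  rcases uK_cases z (by rw [hz]; exact Even.zero) with h | h
  · rw [h]
    exact ((quadraticChar_one_iff_isSquare hne).2 (h1.1 h)).symm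
  · rw [h]
    refine (quadraticChar_neg_one_iff_not_isSquare.2 fun hs => ?_).symm
    rw [h1.2 hs] at h
    norm_num at h

theorem res_sq (v : HeightOneSpectrum (𝓞 K)) (h2 : (2 : 𝓞 K) ∉ v.asIdeal) {d : ℤ}
    (hd : IsCond v d) (θ : Kˣ) (hθ : ordK v θ = -d - 1) :
    SP (mu v (θ : K) ^ 2) ((uK v (-1 : Kˣ) : ℤ) : ℂ) := by
  classical
  have := finite_k v
  letI : Fintype (𝓞 K ⧸ v.asIdeal) := Fintype.ofFinite _
  have h1 := triv_one hd hθ
  have hne := rch_ne_one hd hθ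
  have hq := uK_eq_char (v := v) (z := (-1 : Kˣ)) (c := -1) ordK_neg_one (by
    have e : ((-1 : 𝓞 K) : K) - ((-1 : Kˣ) : K) = 0 := by
      rw [show ((-1 : 𝓞 K) : K) = -1 by
        rw [show ((-1 : 𝓞 K) : K) = -((1 : 𝓞 K) : K) from map_neg (algebraMap (𝓞 K) K) 1,
          show ((1 : 𝓞 K) : K) = 1 from map_one (algebraMap (𝓞 K) K)]]
      simp
    rw [e]
    exact (Rv v 1).zero_mem)
  have hm : Ideal.Quotient.mk v.asIdeal (-1) = -1 := by rw [map_neg, map_one]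
  letI := Ideal.Quotient.field v.asIdeal
  have hG := sum_sq_sq (F := 𝓞 K ⧸ v.asIdeal) (char_k v h2) (Ψ := rch v θ h1) hne
  rw [mu_eq h1, div_pow, hG, hq, hm]
  have hc : (0 : ℝ) < Fintype.card (𝓞 K ⧸ v.asIdeal) := by
    exact_mod_cast Fintype.card_pos
  have hc' : (Fintype.card (𝓞 K ⧸ v.asIdeal) : ℂ) ≠ 0 := by
    exact_mod_cast hc.ne'
  refine ⟨(Fintype.card (𝓞 K ⧸ v.asIdeal) : ℝ)⁻¹, inv_pos.2 hc, ?_⟩
  push_cast
  field_simp

theorem res_mul (v : HeightOneSpectrum (𝓞 K)) (h2 : (2 : 𝓞 K) ∉ v.asIdeal) {d : ℤ}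
    (hd : IsCond v d) (θ z : Kˣ) (hθ : ordK v θ = -d - 1) (hz : ordK v z = 0) :
    mu v ((θ : K) * (z : K)) = ((uK v z : ℤ) : ℂ) * mu v (θ : K) := by
  classical
  have := finite_k v
  letI : Fintype (𝓞 K ⧸ v.asIdeal) := Fintype.ofFinite _
  have hz0 : (z : K) ∈ Rv v 0 := mem_Rv.2 hz.ge
  obtain ⟨c, hc⟩ := approx_one hz0
  have hq := uK_eq_char hz hc
  have hcn := res_ne_zero hz hc
  have h1 := triv_one hd hθ
  have hne := rch_ne_one hd hθ
  have hθz : ordK v (θ * z) = -d - 1 := by rw [ordK_mul, hz, hθ, add_zero]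
  have h1' := triv_one hd hθz
  rw [← Units.val_mul, mu_eq h1', mu_eq h1, ← mul_div_assoc]
  congr 1
  letI := Ideal.Quotient.field v.asIdeal
  have hS := sum_sq_shift (F := 𝓞 K ⧸ v.asIdeal) (char_k v h2) (Ψ := rch v θ h1) hne hcn
  rw [hq, ← hS]
  refine Finset.sum_congr rfl fun b _ => ?_
  obtain ⟨b, rfl⟩ := Ideal.Quotient.mk_surjective b
  rw [← map_pow (Ideal.Quotient.mk v.asIdeal) b 2, ← map_mul (Ideal.Quotient.mk v.asIdeal) c (b ^ 2),
    rch_mk, rch_mk, show ((c * b ^ 2 : 𝓞 K) : K) = (c : K) * ((b ^ 2 : 𝓞 K) : K) from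
      map_mul (algebraMap (𝓞 K) K) _ _, Units.val_mul, mul_assoc]
  refine psi_congr h1 ?_
  have e : (z : K) * ((b ^ 2 : 𝓞 K) : K) - (c : K) * ((b ^ 2 : 𝓞 K) : K) =
      -((c : K) - z) * ((b ^ 2 : 𝓞 K) : K) := by ring
  rw [e]
  exact mul_int _ ((Rv v 1).neg_mem hc)

end Pool.Agent.QD.N2
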