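import Pool.Agent.QD.N2.LocDef

/-!
# QD-N2-SigConst: the signature of the trace form is locally constant

PLAN of `sigPos_le`.  By `exists_finrank_eq_sigPos_and_posDef` there is a subspace `V ≤ K` with
`finrank V = sigPos (trf ω)` on which `trf ω` is positive definite.  The restriction to `V` has an orthogonal
basis `f_j` (`(trf ω).restrict V` is equivalent to a weighted sum of squares, all weights `a_j > 0`; or
`LinearMap.BilinForm.exists_orthogonal_basis`): for `z = ∑ t_j f_j`, `trf ω z = ∑ a_j t_j²`.  For every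
complex embedding `σ` of `K`: `|σ z|² ≤ (∑ |t_j| |σ f_j|)² ≤ (∑_j |σ f_j|²/a_j) (∑_j a_j t_j²) = C_σ trf ω z`
(Cauchy-Schwarz).  And `|trf ω' z - trf ω z| = |Tr ((ω' - ω) z²)| = |∑_σ σ(ω' - ω) (σ z)²| ≤ δ ∑_σ |σ z|²
≤ δ C trf ω z`, `C = ∑_σ C_σ` (`trace_eq_sum_embeddings`; the hypothesis gives `|σ (ω' - ω)| < δ` as
`InfinitePlace.mk σ (x) = ‖σ x‖`).  With `δ = 1/(2 (C+1))`: `trf ω' z ≥ trf ω z / 2 > 0` for `z ∈ V`, `z ≠ 0`, so
`le_sigPos_of_posDef`.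
`sig_const`: apply `sigPos_le` to `ω` and to `-ω` (`trf (-ω) = - trf ω`, `sigNeg Q = sigPos (-Q)`), and
`sigPos + sigNeg = finrank ℚ K` for both (`QuadraticForm.sigPos_add_sigNeg_add_radical`, the radical is `⊥` by
`trf_nondeg`; `ω' ≠ 0` for `δ` small: take `δ ≤ v ω` for one place `v`).
-/

set_option autoImplicit false

namespace Pool.Agent.QD.N2

open NumberField

variable {K : Type} [Field K] [NumberField K]

private theorem bd_aux {ω : K} (V : Submodule ℚ K) (hV : ((trf ω).restrict V).PosDef) :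
    ∃ C : ℝ, 0 ≤ C ∧ ∀ z ∈ V, ∑ σ : K →ₐ[ℚ] ℂ, ‖σ z‖ ^ 2 ≤ C * ((trf ω z : ℚ) : ℝ) := by
  classical
  have : Invertible (2 : ℚ) := invertibleOfNonzero two_ne_zero
  obtain ⟨w, ⟨e⟩⟩ := QuadraticForm.equivalent_weightedSumSquares ((trf ω).restrict V)
  let f : Fin (Module.finrank ℚ V) → V := fun i => e.toLinearEquiv.symm (Pi.single i 1)
  have hef : ∀ i, e (f i) = Pi.single i 1 := by
    intro i
    exact e.toLinearEquiv.apply_symm_apply _
  have hw : ∀ i, 0 < w i := by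
    intro i
    have h1 : ((trf ω).restrict V) (f i) = w i := by
      rw [← e.map_app, hef, QuadraticMap.weightedSumSquares_apply,
        Finset.sum_eq_single i]
      · simp
      · intro j _ hj
        simp [Pi.single_apply, hj]
      · intro h; exact absurd (Finset.mem_univ i) h
    rw [← h1]
    apply hV
    intro h
    have h2 := hef i
    rw [h, map_zero] at h2
    have h3 := congrFun h2 i
    simp at h3
  have hT : ∀ z : V, ((trf ω (z : K) : ℚ) : ℝ) = ∑ i, (w i : ℝ) * (e z i : ℝ) ^ 2 := by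
    intro z
    have h1 : trf ω (z : K) = ∑ i, w i • (e z i * e z i) := by
      have h2 := e.map_app z
      rw [QuadraticMap.weightedSumSquares_apply] at h2
      rw [h2]
      rfl
    rw [h1]
    push_cast
    refine Finset.sum_congr rfl fun i _ => ?_
    rw [smul_eq_mul]
    push_cast
    ring
  have hz : ∀ z : V, (z : K) = ∑ i, (e z i) • ((f i : V) : K) := by
    intro z
    have h1 : z = ∑ i, (e z i) • f i := by
      have h2 : e.toLinearEquiv.symm (e z) = z := e.toLinearEquiv.symm_apply_apply z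
      conv_lhs => rw [← h2, pi_eq_sum_univ' (e z)]
      rw [map_sum]
      refine Finset.sum_congr rfl fun i _ => ?_
      rw [map_smul]
    conv_lhs => rw [h1]
    simp
  have hσ : ∀ (σ : K →ₐ[ℚ] ℂ) (z : V), ‖σ z‖ ^ 2 ≤
      ((Module.finrank ℚ V : ℝ) * ∑ i, ‖σ (f i : V)‖ ^ 2 / (w i : ℝ)) * ((trf ω (z : K) : ℚ) : ℝ) := by
    intro σ z
    have h1 : ‖σ z‖ ≤ ∑ i, |(e z i : ℝ)| * ‖σ (f i : V)‖ := by
      conv_lhs => rw [hz z, map_sum]
      refine (norm_sum_le _ _).trans (Finset.sum_le_sum fun i _ => ?_)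
      rw [Rat.smul_def, map_mul, map_ratCast, norm_mul, Complex.norm_ratCast]
    have h2 : ‖σ z‖ ^ 2 ≤ (∑ i, |(e z i : ℝ)| * ‖σ (f i : V)‖) ^ 2 :=
      pow_le_pow_left₀ (norm_nonneg _) h1 2
    have h3 := sq_sum_le_card_mul_sum_sq (s := (Finset.univ : Finset (Fin (Module.finrank ℚ V))))
      (f := fun i => |(e z i : ℝ)| * ‖σ (f i : V)‖)
    refine h2.trans (h3.trans ?_)
    rw [Finset.card_univ, Fintype.card_fin, mul_assoc, Finset.sum_mul]
    refine mul_le_mul_of_nonneg_left (Finset.sum_le_sum fun i _ => ?_) (Nat.cast_nonneg _)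
    rw [mul_pow, sq_abs]
    have hwi : (0 : ℝ) < w i := by exact_mod_cast hw i
    have h4 : (w i : ℝ) * (e z i : ℝ) ^ 2 ≤ ((trf ω (z : K) : ℚ) : ℝ) := by
      rw [hT z]
      refine Finset.single_le_sum (f := fun i => (w i : ℝ) * (e z i : ℝ) ^ 2) (fun j _ => ?_)
        (Finset.mem_univ i)
      exact mul_nonneg (by exact_mod_cast (hw j).le) (sq_nonneg _)
    have h5 : (e z i : ℝ) ^ 2 ≤ ((trf ω (z : K) : ℚ) : ℝ) / w i := by
      rw [le_div_iff₀ hwi]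
      linarith
    calc (e z i : ℝ) ^ 2 * ‖σ (f i : V)‖ ^ 2
        ≤ ((trf ω (z : K) : ℚ) : ℝ) / w i * ‖σ (f i : V)‖ ^ 2 :=
          mul_le_mul_of_nonneg_right h5 (sq_nonneg _)
      _ = ‖σ (f i : V)‖ ^ 2 / (w i : ℝ) * ((trf ω (z : K) : ℚ) : ℝ) := by ring
  refine ⟨∑ σ : K →ₐ[ℚ] ℂ, ((Module.finrank ℚ V : ℝ) * ∑ i, ‖σ (f i : V)‖ ^ 2 / (w i : ℝ)), ?_, ?_⟩
  · refine Finset.sum_nonneg fun σ _ => mul_nonneg (Nat.cast_nonneg _)
      (Finset.sum_nonneg fun i _ => div_nonneg (sq_nonneg _) ?_)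
    exact_mod_cast (hw i).le
  · intro z hzV
    rw [Finset.sum_mul]
    exact Finset.sum_le_sum fun σ _ => hσ σ ⟨z, hzV⟩

private theorem diff_aux (ω ω' z : K) (δ : ℝ) (h : ∀ w : InfinitePlace K, w (ω' - ω) < δ) :
    |((trf ω' z : ℚ) : ℝ) - ((trf ω z : ℚ) : ℝ)| ≤ δ * ∑ σ : K →ₐ[ℚ] ℂ, ‖σ z‖ ^ 2 := by
  have h1 : ((trf ω' z : ℚ) : ℝ) - ((trf ω z : ℚ) : ℝ) =
      ((Algebra.trace ℚ K ((ω' - ω) * z ^ 2) : ℚ) : ℝ) := by
    rw [trf_apply, trf_apply, ← Rat.cast_sub, ← map_sub]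
    congr 3
    ring
  have h2 : ((Algebra.trace ℚ K ((ω' - ω) * z ^ 2) : ℚ) : ℂ) =
      ∑ σ : K →ₐ[ℚ] ℂ, σ ((ω' - ω) * z ^ 2) := by
    have := trace_eq_sum_embeddings (K := ℚ) (L := K) ℂ (x := (ω' - ω) * z ^ 2)
    rwa [eq_ratCast] at this
  rw [h1]
  have h3 : |((Algebra.trace ℚ K ((ω' - ω) * z ^ 2) : ℚ) : ℝ)| =
      ‖((Algebra.trace ℚ K ((ω' - ω) * z ^ 2) : ℚ) : ℂ)‖ := by
    rw [Complex.norm_ratCast]
  rw [h3, h2, Finset.mul_sum]
  refine (norm_sum_le _ _).trans (Finset.sum_le_sum fun σ _ => ?_)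
  rw [map_mul, map_pow, norm_mul, norm_pow]
  refine mul_le_mul_of_nonneg_right ?_ (sq_nonneg _)
  have h4 := h (InfinitePlace.mk (σ : K →+* ℂ))
  rw [InfinitePlace.apply] at h4
  exact h4.le

theorem sigPos_le {ω : K} (hω : ω ≠ 0) : ∃ δ : ℝ, 0 < δ ∧ ∀ ω' : K,
    (∀ w : InfinitePlace K, w (ω' - ω) < δ) → sigPos (trf ω) ≤ sigPos (trf ω') := by
  obtain ⟨V, hV1, hV2⟩ := exists_finrank_eq_sigPos_and_posDef (trf ω)
  obtain ⟨C, hC0, hC⟩ := bd_aux V hV2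
  refine ⟨1 / (2 * (C + 1)), by positivity, fun ω' h => ?_⟩
  rw [← hV1]
  apply le_sigPos_of_posDef
  intro z hz
  have h1 := diff_aux ω ω' (z : K) _ h
  have h2 := hC (z : K) z.2
  have h3 : 0 < trf ω (z : K) := hV2 z hz
  have h3' : (0 : ℝ) < ((trf ω (z : K) : ℚ) : ℝ) := by exact_mod_cast h3
  have h4 : 1 / (2 * (C + 1)) * ∑ σ : K →ₐ[ℚ] ℂ, ‖σ (z : K)‖ ^ 2 ≤
      1 / 2 * ((trf ω (z : K) : ℚ) : ℝ) := by
    calc 1 / (2 * (C + 1)) * ∑ σ : K →ₐ[ℚ] ℂ, ‖σ (z : K)‖ ^ 2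
        ≤ 1 / (2 * (C + 1)) * (C * ((trf ω (z : K) : ℚ) : ℝ)) :=
          mul_le_mul_of_nonneg_left h2 (by positivity)
      _ ≤ 1 / (2 * (C + 1)) * ((C + 1) * ((trf ω (z : K) : ℚ) : ℝ)) := by
          refine mul_le_mul_of_nonneg_left ?_ (by positivity)
          nlinarith
      _ = 1 / 2 * ((trf ω (z : K) : ℚ) : ℝ) := by
          field_simp
  have h5 : (0 : ℝ) < ((trf ω' (z : K) : ℚ) : ℝ) := by
    have h6 := (abs_le.1 (h1.trans h4)).1
    linarith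
  have h7 : 0 < trf ω' (z : K) := by exact_mod_cast h5
  exact h7

private theorem trf_neg (ω : K) : trf (-ω) = - trf ω := by
  ext a
  rw [neg_apply, trf_apply, trf_apply, neg_mul, map_neg]

private theorem sum_sig {ω : K} (hω : ω ≠ 0) :
    sigPos (trf ω) + sigNeg (trf ω) = Module.finrank ℚ K := by
  have h := QuadraticForm.sigPos_add_sigNeg_add_radical (Q := trf ω)
  have hr : (trf ω).radical = ⊥ := by
    rw [eq_bot_iff]
    intro x hx
    rw [Submodule.mem_bot]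
    refine trf_nondeg hω x fun y => ?_
    rw [QuadraticMap.mem_radical_iff'] at hx
    rw [QuadraticMap.polar, hx.2 y, hx.1]
    ring
  rw [hr, finrank_bot] at h
  omega

theorem sig_const {ω : K} (hω : ω ≠ 0) : ∃ δ : ℝ, 0 < δ ∧ ∀ ω' : K, ω' ≠ 0 →
    (∀ w : InfinitePlace K, w (ω' - ω) < δ) →
    sigPos (trf ω') = sigPos (trf ω) ∧ sigNeg (trf ω') = sigNeg (trf ω) := by
  obtain ⟨δ1, hδ1, h1⟩ := sigPos_le hω
  obtain ⟨δ2, hδ2, h2⟩ := sigPos_le (neg_ne_zero.2 hω)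
  refine ⟨min δ1 δ2, lt_min hδ1 hδ2, fun ω' hω' h => ?_⟩
  have h3 := h1 ω' fun w => (h w).trans_le (min_le_left _ _)
  have h4 := h2 (-ω') fun w => by
    have : -ω' - -ω = -(ω' - ω) := by ring
    rw [this, ← InfinitePlace.norm_embedding_eq, map_neg, norm_neg,
      InfinitePlace.norm_embedding_eq]
    exact (h w).trans_le (min_le_right _ _)
  rw [trf_neg, trf_neg, sigPos_neg, sigPos_neg] at h4
  have h5 := sum_sig hω
  have h6 := sum_sig hω'
  omega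

end Pool.Agent.QD.N2
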