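import Pool.Agent.QD.N2.Ord
import Pool.Agent.QD.N3.Basic

/-!
# QD-N2-UKA: the symbol `uK`

`uK v x = 0` for odd order; `1` if the order is even and `x r²` is close to `1` for some `r`; else `-1`.
PLAN.
* `uK_mul_sq`: `ordK v (x r²) = ordK v x + 2 ordK v r` (parity), and `LSq1 v (x r²) ↔ LSq1 v x`
  (replace the square root `s` by `s r⁻¹` resp. `s r`).
* `uK_one`: `r = 1`.
* `uK_eq_one_iff`: `x` of order `0`, `c ∈ 𝓞 K` with `c - x ∈ Rv v 1`: `uK v x = 1` iff `c` is a nonzero square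
  modulo `v`.  (→) `x r² - 1 ∈ Rv v 1`: then `ordK v r = 0` (`ordK_eq_of_close`), take `t ∈ 𝓞 K` with
  `t - r⁻¹ ∈ Rv v 1` (`approx`): `t² - c ∈ Rv v 1`, i.e. in `v` (`int_mem_Rv_iff`, `n = 1`).  (←) `s² - c ∈ v`,
  `c ∉ v` (order `0`), so `s ∉ v`, `s ≠ 0` of order `0`; `r = s⁻¹`.
* `uK_mul`: reduce to order `0` by `uK_mul_sq` (choose `r` with `2 ordK v r = - ordK v x`), take residues
  `c, c' ∈ 𝓞 K` (`approx`); in the finite field `𝓞 K ⧸ v.asIdeal` of odd characteristic (`2 ∉ v`) the product of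
  two non-squares is a square (`FiniteField` / `quadraticChar` is multiplicative:
  `quadraticChar_one_iff_isSquare`, `quadraticChar_neg_one_iff_not_isSquare`).
* the four formulas for `hs`: e.g. `a = ordK v x` odd, `b = ordK v y` even: `(-1)^(a b) = 1` and
  `x^b (y^a)⁻¹ = y * (x^(b/2) * y^(-(a+1)/2))²`.  Both odd: `-(x^b y^(-a)) = -(x y) * (x^((b-1)/2) y^(-(a+1)/2))²`.
* `hs_mul_left'`, `hs_comm'`, `hs_sq'`: from the four formulas by cases on the parities, with `uK_mul`,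
  `uK_mul_sq` (`uK v (-(x z)) * uK v (-(y z)) = uK v (x y z²) = uK v (x y)`).
-/

set_option autoImplicit false
namespace Pool.Agent.QD.N2

open NumberField IsDedekindDomain Pool.Agent.HWR Pool.Agent.QD

variable {K : Type} [Field K] [NumberField K] {v : HeightOneSpectrum (𝓞 K)}

theorem uK_mul_sq (x r : Kˣ) : uK v (x * r ^ 2) = uK v x :=
  Pool.Agent.QD.uK_mul_sq v x r

theorem uK_one : uK v (1 : Kˣ) = 1 := Pool.Agent.QD.uK_one v

theorem uK_cases (x : Kˣ) (h : Even (ordK v x)) : uK v x = 1 ∨ uK v x = -1 :=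
  Pool.Agent.QD.uK_of_even h

private theorem uka_sq_zero {x : Kˣ} (h : ordK v (x ^ 2) = 0) : ordK v x = 0 := by
  rw [ordK_pow] at h
  push_cast at h
  omega

theorem uK_eq_one_iff {x : Kˣ} (hx : ordK v x = 0) {c : 𝓞 K} (hc : (c : K) - x ∈ Rv v 1) :
    uK v x = 1 ↔ ∃ s : 𝓞 K, s ^ 2 - c ∈ v.asIdeal := by
  rw [Pool.Agent.QD.uK_eq_one_iff]
  have hx0 : (x : K) ∈ Rv v 0 := mem_Rv.2 hx.ge
  constructor
  · rintro ⟨r, hr⟩
    have hr1 : (x : K) * (r : K) ^ 2 - 1 ∈ Rv v 1 := by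
      have := closeOne_iff.1 hr
      exact_mod_cast this
    have hr0 : ordK v r = 0 := by
      have h1 : ordK v (x * r ^ 2) = 0 := by
        refine Pool.Agent.QD.ordK_of_closeOne v one_ne_zero ?_
        push_cast
        exact hr
      rw [ordK_mul, hx, zero_add] at h1
      exact uka_sq_zero h1
    have hri : ordK v r⁻¹ = 0 := by rw [ordK_inv, hr0, neg_zero]
    have hri0 : ((r⁻¹ : Kˣ) : K) ∈ Rv v 0 := mem_Rv.2 hri.ge
    obtain ⟨t, ht⟩ := approx {v} (fun _ => ((r⁻¹ : Kˣ) : K)) (by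
      intro w hw
      rw [Finset.mem_singleton] at hw
      rw [hw]
      exact hri0) 1
    have ht1 : (t : K) - ((r⁻¹ : Kˣ) : K) ∈ Rv v 1 := by
      have := ht v (Finset.mem_singleton_self v)
      exact_mod_cast this
    refine ⟨t, ?_⟩
    have h2 : ((t ^ 2 - c : 𝓞 K) : K) ∈ Rv v 1 := by
      have e : ((t ^ 2 - c : 𝓞 K) : K) = ((t : K) - ((r⁻¹ : Kˣ) : K)) * ((t : K) + ((r⁻¹ : Kˣ) : K)) +
          (-((((r⁻¹ : Kˣ) : K) * ((r⁻¹ : Kˣ) : K)) * ((x : K) * (r : K) ^ 2 - 1)) -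
            ((c : K) - x)) := by
        have hr' : (r : K) ≠ 0 := r.ne_zero
        have e0 : ((t ^ 2 - c : 𝓞 K) : K) = (t : K) ^ 2 - (c : K) := rfl
        rw [e0, Units.val_inv_eq_inv_val]
        field_simp
        ring
      rw [e]
      refine (Rv v 1).add_mem ?_ ((Rv v 1).sub_mem ((Rv v 1).neg_mem ?_) hc)
      · have := Rv_mul ht1 ((Rv v 0).add_mem (int_mem_Rv t) hri0)
        rwa [add_zero] at this
      · have := Rv_mul (Rv_mul hri0 hri0) hr1
        rwa [add_zero, zero_add] at this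
    have h3 := (int_mem_Rv_iff (v := v) (t ^ 2 - c) 1).1 (by exact_mod_cast h2)
    rwa [pow_one] at h3
  · rintro ⟨s, hs⟩
    have h1 : ((s ^ 2 - c : 𝓞 K) : K) ∈ Rv v 1 := by
      have := (int_mem_Rv_iff (v := v) (s ^ 2 - c) 1).2 (by rwa [pow_one])
      exact_mod_cast this
    have h2 : (s : K) ^ 2 - (x : K) ∈ Rv v 1 := by
      have e : (s : K) ^ 2 - (x : K) = ((s ^ 2 - c : 𝓞 K) : K) + ((c : K) - x) := by
        have e0 : ((s ^ 2 - c : 𝓞 K) : K) = (s : K) ^ 2 - (c : K) := rfl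
        rw [e0]
        ring
      rw [e]
      exact (Rv v 1).add_mem h1 hc
    have hs0 : (s : K) ≠ 0 := by
      intro h0
      rw [h0] at h2
      have h3 : (x : K) ∈ Rv v 1 := by
        have := (Rv v 1).neg_mem h2
        convert this using 1
        ring
      have := mem_Rv.1 h3
      omega
    have h4 : ordK v (Units.mk0 (s : K) hs0 ^ 2) = ordK v x := by
      refine ordK_eq_of_close ?_
      rw [hx, zero_add]
      exact h2
    have h5 : ordK v (Units.mk0 (s : K) hs0) = 0 := uka_sq_zero (h4.trans hx)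
    have h6 : ordK v (Units.mk0 (s : K) hs0)⁻¹ = 0 := by rw [ordK_inv, h5, neg_zero]
    have h7 : (((Units.mk0 (s : K) hs0)⁻¹ : Kˣ) : K) ∈ Rv v 0 := mem_Rv.2 h6.ge
    refine ⟨(Units.mk0 (s : K) hs0)⁻¹, ?_⟩
    rw [closeOne_iff]
    have e : (x : K) * (((Units.mk0 (s : K) hs0)⁻¹ : Kˣ) : K) ^ 2 - 1 =
        -(((((Units.mk0 (s : K) hs0)⁻¹ : Kˣ) : K) * (((Units.mk0 (s : K) hs0)⁻¹ : Kˣ) : K)) *
          ((s : K) ^ 2 - x)) := by
      rw [Units.val_inv_eq_inv_val, Units.val_mk0]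
      field_simp
      ring
    rw [e]
    have h8 := (Rv v 1).neg_mem (show _ ∈ Rv v 1 from by
      have := Rv_mul (Rv_mul h7 h7) h2
      rwa [add_zero, zero_add] at this)
    exact_mod_cast h8

/-- the symbol of an element of order `0` is the quadratic character of its residue -/
private theorem uka_char [Fintype (𝓞 K ⧸ v.asIdeal)] [DecidableEq (𝓞 K ⧸ v.asIdeal)]
    {F : Type} [Field F] [Fintype F] [DecidableEq F] (φ : 𝓞 K →+* F)
    (hφ : Function.Surjective φ) (hk : ∀ a, φ a = 0 ↔ a ∈ v.asIdeal)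
    {x : Kˣ} (hx : ordK v x = 0) {c : 𝓞 K} (hc : (c : K) - x ∈ Rv v 1) :
    uK v x = quadraticChar F (φ c) := by
  have hc0 : φ c ≠ 0 := by
    intro h
    rw [hk] at h
    have h1 := (int_mem_Rv_iff (v := v) c 1).2 (by rwa [pow_one])
    have h2 : (x : K) ∈ Rv v 1 := by
      have := (Rv v 1).sub_mem (by exact_mod_cast h1) hc
      convert this using 1
      ring
    have := mem_Rv.1 h2
    omega
  have h3 : uK v x = 1 ↔ quadraticChar F (φ c) = 1 := by
    rw [uK_eq_one_iff hx hc, quadraticChar_one_iff_isSquare hc0]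
    constructor
    · rintro ⟨s, hs⟩
      refine ⟨φ s, ?_⟩
      have := (hk _).2 hs
      rw [map_sub, map_pow, sub_eq_zero] at this
      rw [← this, pow_two]
    · rintro ⟨b, hb⟩
      obtain ⟨s, rfl⟩ := hφ b
      refine ⟨s, (hk _).1 ?_⟩
      rw [map_sub, map_pow, hb, pow_two, sub_self]
  rcases uK_cases x (hx ▸ Even.zero) with h4 | h4
  · rw [h4, h3.1 h4]
  · rcases quadraticChar_dichotomy hc0 with h5 | h5
    · rw [h3.2 h5] at h4
      omega
    · rw [h4, h5]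

theorem uK_mul (h2 : (2 : 𝓞 K) ∉ v.asIdeal) (x y : Kˣ) (hx : Even (ordK v x))
    (hy : Even (ordK v y)) : uK v (x * y) = uK v x * uK v y := by
  classical
  have hfin : Finite (𝓞 K ⧸ v.asIdeal) := v.asIdeal.finiteQuotientOfFreeOfNeBot v.ne_bot
  let _ : Fintype (𝓞 K ⧸ v.asIdeal) := Fintype.ofFinite _
  have hmax : v.asIdeal.IsMaximal := v.isMaximal
  let _ : Field (𝓞 K ⧸ v.asIdeal) := Ideal.Quotient.field v.asIdeal
  have key : ∀ {z : Kˣ}, ordK v z = 0 → ∃ c : 𝓞 K, (c : K) - z ∈ Rv v 1 := by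
    intro z hz
    obtain ⟨c, hc⟩ := approx {v} (fun _ => (z : K)) (by
      intro w hw
      rw [Finset.mem_singleton] at hw
      rw [hw]
      exact mem_Rv.2 hz.ge) 1
    refine ⟨c, ?_⟩
    have := hc v (Finset.mem_singleton_self v)
    exact_mod_cast this
  have norm : ∀ z : Kˣ, Even (ordK v z) → ∃ r : Kˣ, ordK v (z * r ^ 2) = 0 := by
    rintro z ⟨m, hm⟩
    obtain ⟨r, hr⟩ := exists_ordK v (-m)
    refine ⟨r, ?_⟩
    rw [ordK_mul, ordK_pow, hm, hr]
    push_cast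
    ring
  obtain ⟨r, hr⟩ := norm x hx
  obtain ⟨s, hs⟩ := norm y hy
  obtain ⟨c, hc⟩ := key hr
  obtain ⟨d, hd⟩ := key hs
  have hxy : ordK v ((x * r ^ 2) * (y * s ^ 2)) = 0 := by rw [ordK_mul, hr, hs, add_zero]
  have hcd : ((c * d : 𝓞 K) : K) - ((x * r ^ 2) * (y * s ^ 2) : Kˣ) ∈ Rv v 1 := by
    have e : ((c * d : 𝓞 K) : K) - ((x * r ^ 2) * (y * s ^ 2) : Kˣ) =
        (c : K) * ((d : K) - ((y * s ^ 2 : Kˣ) : K)) +
          ((c : K) - ((x * r ^ 2 : Kˣ) : K)) * ((y * s ^ 2 : Kˣ) : K) := by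
      have e0 : ((c * d : 𝓞 K) : K) = (c : K) * (d : K) := rfl
      rw [e0, Units.val_mul]
      ring
    rw [e]
    refine (Rv v 1).add_mem ?_ ?_
    · have := Rv_mul (int_mem_Rv (v := v) c) hd
      rwa [zero_add] at this
    · have := Rv_mul hc (mem_Rv.2 hs.ge)
      rwa [add_zero] at this
  have hφ : Function.Surjective (Ideal.Quotient.mk v.asIdeal) := Ideal.Quotient.mk_surjective
  have hk : ∀ a, Ideal.Quotient.mk v.asIdeal a = 0 ↔ a ∈ v.asIdeal :=
    fun a => Ideal.Quotient.eq_zero_iff_mem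
  have e1 := uka_char (F := 𝓞 K ⧸ v.asIdeal) (Ideal.Quotient.mk v.asIdeal) hφ hk hr hc
  have e2 := uka_char (F := 𝓞 K ⧸ v.asIdeal) (Ideal.Quotient.mk v.asIdeal) hφ hk hs hd
  have e3 := uka_char (F := 𝓞 K ⧸ v.asIdeal) (Ideal.Quotient.mk v.asIdeal) hφ hk hxy hcd
  rw [uK_mul_sq] at e1 e2
  have e4 : (x * r ^ 2) * (y * s ^ 2) = (x * y) * (r * s) ^ 2 := by
    rw [mul_pow]
    exact mul_mul_mul_comm x (r ^ 2) y (s ^ 2)
  rw [e4, uK_mul_sq] at e3
  rw [e1, e2, e3, map_mul, map_mul]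

end Pool.Agent.QD.N2
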