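import Pool.Agent.QD.N2.UKA

/-!
# QD-N2-UKB: the tame symbol `hs`

`hs v x y = uK v ((-1)^(a b) * x^b * (y^a)⁻¹)`, `a = ordK v x`, `b = ordK v y`.
PLAN.
* the four formulas for `hs`: e.g. `a` odd, `b` even: `(-1)^(a b) = 1` and
  `x^b (y^a)⁻¹ = y * (x^(b/2) * y^(-(a+1)/2))²` (`uK_mul_sq`).  Both odd: `-(x^b y^(-a)) =
  -(x y) * (x^((b-1)/2) y^(-(a+1)/2))²`.  Both even: the argument is `1 * (square)`, `uK_one`.
* `hs_mul_left'`, `hs_comm'`, `hs_sq'`: from the four formulas by cases on the parities, with `uK_mul`,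
  `uK_mul_sq` (e.g. all odd: `uK v (-(x z)) * uK v (-(y z)) = uK v (x y z²) = uK v (x y)`).
* `hs_finite'`: contained in the set of `v` with `ordK v x ≠ 0` or `ordK v y ≠ 0` (`hs_ee`, `finite_ord`).
-/
set_option autoImplicit false

namespace Pool.Agent.QD.N2

open NumberField IsDedekindDomain Pool.Agent.HWR Pool.Agent.QD

variable {K : Type} [Field K] [NumberField K] {v : HeightOneSpectrum (𝓞 K)}

private theorem ukb_oe {G : Type*} [CommGroup G] (x y : G) (k m : ℤ) :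
    x ^ (k + k) * (y ^ (2 * m + 1))⁻¹ = y * (x ^ k * (y ^ (m + 1))⁻¹) ^ 2 := by
  have h1 : y ^ (2 * m + 1) = (y ^ (m + 1)) ^ 2 * y⁻¹ := by
    rw [← zpow_natCast, ← zpow_mul, ← zpow_sub_one]
    congr 1
    push_cast
    ring
  rw [zpow_add, h1, mul_inv, inv_inv, mul_pow, inv_pow, pow_two (x ^ k)]
  rw [← mul_assoc, mul_comm]

private theorem ukb_eo {G : Type*} [CommGroup G] (x y : G) (k m : ℤ) :
    x ^ (2 * m + 1) * (y ^ (k + k))⁻¹ = x * (x ^ m * (y ^ k)⁻¹) ^ 2 := by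
  rw [zpow_add_one, zpow_mul, zpow_add, mul_pow, inv_pow, pow_two (y ^ k)]
  have h1 : (x ^ (2 : ℤ)) ^ m = (x ^ m) ^ 2 := by
    rw [← zpow_natCast, ← zpow_mul, ← zpow_mul]
    congr 1
    push_cast
    ring
  rw [h1, mul_comm ((x ^ m) ^ 2) x, mul_assoc]

private theorem ukb_oo {G : Type*} [CommGroup G] (x y : G) (k m : ℤ) :
    x ^ (2 * k + 1) * (y ^ (2 * m + 1))⁻¹ = (x * y) * (x ^ k * (y ^ (m + 1))⁻¹) ^ 2 := by
  have h1 : x ^ (2 * k + 1) = x * x ^ (k + k) := by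
    rw [← zpow_one_add]
    congr 1
    ring
  rw [h1, mul_assoc, ukb_oe, mul_assoc]

private theorem ukb_ee {G : Type*} [CommGroup G] (x y : G) (k m : ℤ) :
    x ^ (k + k) * (y ^ (m + m))⁻¹ = 1 * (x ^ k * (y ^ m)⁻¹) ^ 2 := by
  rw [one_mul, zpow_add, zpow_add, mul_pow, inv_pow, pow_two (x ^ k), pow_two (y ^ m)]

theorem hs_ee (x y : Kˣ) (hx : Even (ordK v x)) (hy : Even (ordK v y)) : hs v x y = 1 := by
  unfold hs
  rw [(hx.mul_right _).neg_one_zpow, one_mul]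
  obtain ⟨m, hm⟩ := hx
  obtain ⟨k, hk⟩ := hy
  rw [hm, hk, ukb_ee, uK_mul_sq, uK_one]

theorem hs_oe (x y : Kˣ) (hx : Odd (ordK v x)) (hy : Even (ordK v y)) : hs v x y = uK v y := by
  unfold hs
  rw [(hy.mul_left _).neg_one_zpow, one_mul]
  obtain ⟨m, hm⟩ := hx
  obtain ⟨k, hk⟩ := hy
  rw [hm, hk, ukb_oe, uK_mul_sq]

theorem hs_eo (x y : Kˣ) (hx : Even (ordK v x)) (hy : Odd (ordK v y)) : hs v x y = uK v x := by
  unfold hs
  rw [(hx.mul_right _).neg_one_zpow, one_mul]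
  obtain ⟨k, hk⟩ := hx
  obtain ⟨m, hm⟩ := hy
  rw [hm, hk, ukb_eo, uK_mul_sq]

theorem hs_oo (x y : Kˣ) (hx : Odd (ordK v x)) (hy : Odd (ordK v y)) :
    hs v x y = uK v (-(x * y)) := by
  unfold hs
  rw [(hx.mul hy).neg_one_zpow]
  obtain ⟨m, hm⟩ := hx
  obtain ⟨k, hk⟩ := hy
  rw [hm, hk, mul_assoc, ukb_oo, ← mul_assoc, uK_mul_sq, neg_one_mul]

private theorem ukb_neg (x : Kˣ) : ordK v (-x) = ordK v x := by
  rw [← neg_one_mul, ordK_mul, ordK_neg_one, zero_add]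

private theorem ukb_sq1 {z : Kˣ} (hz : Even (ordK v z)) : uK v z * uK v z = 1 := by
  rcases N2.uK_cases z hz with h | h <;> rw [h] <;> norm_num

theorem hs_mul_left' (h2 : (2 : 𝓞 K) ∉ v.asIdeal) (x y z : Kˣ) :
    hs v (x * y) z = hs v x z * hs v y z := by
  rcases Int.even_or_odd (ordK v z) with hz | hz
  · rcases Int.even_or_odd (ordK v x) with hx | hx <;> rcases Int.even_or_odd (ordK v y) with hy | hy
    · rw [hs_ee x z hx hz, hs_ee y z hy hz, hs_ee (x * y) z (by rw [ordK_mul]; exact hx.add hy) hz,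
        one_mul]
    · rw [hs_ee x z hx hz, hs_oe y z hy hz,
        hs_oe (x * y) z (by rw [ordK_mul]; exact hx.add_odd hy) hz, one_mul]
    · rw [hs_oe x z hx hz, hs_ee y z hy hz,
        hs_oe (x * y) z (by rw [ordK_mul]; exact hx.add_even hy) hz, mul_one]
    · rw [hs_oe x z hx hz, hs_oe y z hy hz,
        hs_ee (x * y) z (by rw [ordK_mul]; exact hx.add_odd hy) hz, ukb_sq1 hz]
  · rcases Int.even_or_odd (ordK v x) with hx | hx <;> rcases Int.even_or_odd (ordK v y) with hy | hy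
    · rw [hs_eo x z hx hz, hs_eo y z hy hz,
        hs_eo (x * y) z (by rw [ordK_mul]; exact hx.add hy) hz, uK_mul h2 x y hx hy]
    · rw [hs_eo x z hx hz, hs_oo y z hy hz,
        hs_oo (x * y) z (by rw [ordK_mul]; exact hx.add_odd hy) hz,
        ← uK_mul h2 x _ hx (by rw [ukb_neg, ordK_mul]; exact hy.add_odd hz)]
      congr 1
      rw [mul_neg, mul_assoc]
    · rw [hs_oo x z hx hz, hs_eo y z hy hz,
        hs_oo (x * y) z (by rw [ordK_mul]; exact hx.add_even hy) hz,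
        ← uK_mul h2 _ y (by rw [ukb_neg, ordK_mul]; exact hx.add_odd hz) hy]
      congr 1
      rw [neg_mul]
      congr 1
      rw [mul_assoc, mul_assoc, mul_comm y z]
    · rw [hs_oo x z hx hz, hs_oo y z hy hz,
        hs_eo (x * y) z (by rw [ordK_mul]; exact hx.add_odd hy) hz,
        ← uK_mul h2 _ _ (by rw [ukb_neg, ordK_mul]; exact hx.add_odd hz)
          (by rw [ukb_neg, ordK_mul]; exact hy.add_odd hz)]
      have h3 : -(x * z) * -(y * z) = x * y * z ^ 2 := by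
        rw [neg_mul_neg, pow_two]
        exact mul_mul_mul_comm x z y z
      rw [h3, uK_mul_sq]

theorem hs_comm' (x y : Kˣ) : hs v x y = hs v y x := by
  rcases Int.even_or_odd (ordK v x) with hx | hx <;> rcases Int.even_or_odd (ordK v y) with hy | hy
  · rw [hs_ee x y hx hy, hs_ee y x hy hx]
  · rw [hs_eo x y hx hy, hs_oe y x hy hx]
  · rw [hs_oe x y hx hy, hs_eo y x hy hx]
  · rw [hs_oo x y hx hy, hs_oo y x hy hx, mul_comm]

theorem hs_sq' (x y : Kˣ) : hs v x y = 1 ∨ hs v x y = -1 := by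
  rcases Int.even_or_odd (ordK v x) with hx | hx <;> rcases Int.even_or_odd (ordK v y) with hy | hy
  · rw [hs_ee x y hx hy]
    exact Or.inl rfl
  · rw [hs_eo x y hx hy]
    exact N2.uK_cases x hx
  · rw [hs_oe x y hx hy]
    exact N2.uK_cases y hy
  · rw [hs_oo x y hx hy]
    exact N2.uK_cases _ (by rw [ukb_neg, ordK_mul]; exact hx.add_odd hy)

theorem hs_finite' (x y : Kˣ) :
    {v : HeightOneSpectrum (𝓞 K) | hs v x y ≠ 1}.Finite := by
  refine ((finite_ord x).union (finite_ord y)).subset fun v hv => ?_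
  by_contra h
  rw [Set.mem_union, not_or] at h
  obtain ⟨h1, h2⟩ := h
  have h3 : ordK v x = 0 := by
    by_contra h4
    exact h1 h4
  have h4 : ordK v y = 0 := by
    by_contra h5
    exact h2 h5
  exact hv (hs_ee x y (by rw [h3]; exact Even.zero) (by rw [h4]; exact Even.zero))

end Pool.Agent.QD.N2
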